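import Mathlib

/-!
Arithmetic.  `S` is a nonempty finite set of primes, `a, h ≥ 1`, `k q * q * e q = a * h`,
`1 ≤ e q ≤ q - 1`, each `e q` divides `h` or is an element of `S` smaller than `q`, and
`sum over q in S of k q * (q - 1) = a - 1`.  Then `k q = 1` for some `q ∈ S`.
Proof.  In rational numbers `k q (q - 1) = a (1 - 1/q) h / (e q)`.  Let `p = min S`; `e p ∣ h` (no
element of `S` is smaller than `p`), so `k p (p - 1) ≥ a (1 - 1/p)`.
 * `S = {p}`: `k p (p - 1) = a - 1 < a` gives `h (p - 1) < p e p`, so `h ≤ e p`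
   (`e p ≤ p - 1`), so `h = e p` (`e p ∣ h`), `k p * p = a`, `a - 1 = k p (p - 1) = a - k p`,
   `k p = 1`.
 * otherwise let `p2` be the smallest element of `S` larger than `p`.  If `e p2 ∣ h` then
   `k p2 (p2 - 1) ≥ a (1 - 1/p2)`, and the sum is `≥ a (1 - 1/p + 1 - 1/p2) ≥ a`
   (`p ≥ 2`, `p2 ≥ 3`), contradiction.  So `e p2 = p`, the sum of the two terms is
   `≥ a (1 - 1/p) + a (1 - 1/p2) h / p < a`, so `h (p2 - 1) < p2`, `h = 1`, `e p = 1`.
   If there is a third element, let `p3` be the smallest element larger than `p2`: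
   `e p3` divides `h = 1` or is `p` or `p2`, so `e p3 ≤ p2`, and the sum of the three terms is
   `≥ a (1 - 1/(p p2) + (1 - 1/p3)/p2) ≥ a`, contradiction.
   So `S = {p, p2}`, `k p = a / p`, `k p2 = a / (p p2)`,
   `a - 1 = a - a/p + a/p - a/(p p2) = a - k p2`, and `k p2 = 1`.
-/

namespace Pool.MP_a7cd38_co.AT

/-- one prime -/
private theorem Ari_one {p a h k e : ℕ} (hp : 2 ≤ p) (hh : 0 < h)
    (hk : k * p * e = a * h) (he : 0 < e) (hd : e ∣ h) (hs : k * (p - 1) = a - 1) (ha : 0 < a) :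
    k = 1 := by
  obtain ⟨c, rfl⟩ := hd
  obtain ⟨q, rfl⟩ : ∃ q, p = q + 1 := ⟨p - 1, by omega⟩
  obtain ⟨b, rfl⟩ : ∃ b, a = b + 1 := ⟨a - 1, by omega⟩
  simp only [Nat.add_sub_cancel] at hs
  have h1 : k * (q + 1) = (b + 1) * c := by
    have h2 : e * (k * (q + 1)) = e * ((b + 1) * c) := by
      rw [show e * (k * (q + 1)) = k * (q + 1) * e by ring, hk]
      ring
    exact Nat.eq_of_mul_eq_mul_left he h2
  have hc : 0 < c := Nat.pos_of_mul_pos_left hh
  rw [← hs] at h1
  have hc1 : c = 1 := by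
    by_contra hne
    have h2 : 2 ≤ c := by omega
    have h3 : (k * q + 1) * 2 ≤ (k * q + 1) * c := Nat.mul_le_mul_left _ h2
    have h4 : k * 1 ≤ k * q := Nat.mul_le_mul_left _ (by omega)
    rw [Nat.mul_add] at h1
    omega
  rw [hc1, Nat.mul_add] at h1
  omega

/-- the second prime has `e = p`, and `h = 1` -/
private theorem Ari_two {p r a h f g : ℤ} (hp : 2 ≤ p) (hr : p < r) (ha : 0 < a)
    (hf : a * (p - 1) ≤ f * p) (hfg : f + g ≤ a - 1) :
    g * r < a * (r - 1) ∧ (2 ≤ h → g * (r * p) < a * h * (r - 1)) := by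
  have h1 : f * p + g * p ≤ (a - 1) * p := by nlinarith
  have h2 : g * p ≤ a - p := by linarith
  constructor
  · by_contra hcon
    push Not at hcon
    have h3 : a * (r - 1) * p ≤ g * r * p := mul_le_mul_of_nonneg_right hcon (by linarith)
    have h4 : g * p * r ≤ (a - p) * r := mul_le_mul_of_nonneg_right h2 (by linarith)
    have h5 : a * ((r - 1) * p - r) ≤ -(p * r) := by nlinarith
    have h6 : 0 ≤ (r - 1) * p - r := by nlinarith
    have h7 : 0 ≤ a * ((r - 1) * p - r) := mul_nonneg ha.le h6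
    have h8 : 0 < p * r := mul_pos (by linarith) (by linarith)
    linarith
  · intro hh
    have h4 : g * p * r ≤ (a - p) * r := mul_le_mul_of_nonneg_right h2 (by linarith)
    have h8 : 0 < p * r := by nlinarith
    have h9 : a * 2 * (r - 1) ≤ a * h * (r - 1) := by
      refine mul_le_mul_of_nonneg_right ?_ (by linarith)
      exact mul_le_mul_of_nonneg_left hh ha.le
    have h10 : a * r ≤ a * 2 * (r - 1) := by
      have : a * r ≤ a * (2 * (r - 1)) := mul_le_mul_of_nonneg_left (by linarith) ha.le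
      linarith
    nlinarith

/-- there is no third prime -/
private theorem Ari_three {p r t a f g l e : ℤ} (hp : 2 ≤ p) (hr : p < r) (ht : r < t)
    (ha : 0 < a) (hf : f * p = a * (p - 1)) (hg : g * (r * p) = a * (r - 1))
    (hl : l * (t * e) = a * (t - 1)) (he : 0 < e) (her : e ≤ r) (hl0 : 0 ≤ l)
    (hsum : f + g + l ≤ a - 1) : False := by
  have h1 : a * (t - 1) ≤ l * (t * r) := by
    rw [← hl]
    exact mul_le_mul_of_nonneg_left (mul_le_mul_of_nonneg_left her (by linarith)) hl0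
  have h2 : (f + g + l) * (p * r * t) ≤ (a - 1) * (p * r * t) :=
    mul_le_mul_of_nonneg_right hsum
      (mul_pos (mul_pos (by linarith) (by linarith)) (by linarith)).le
  have h3 : f * (p * r * t) = a * (p - 1) * (r * t) := by rw [← hf]; ring
  have h4 : g * (p * r * t) = a * (r - 1) * t := by rw [← hg]; ring
  have h5 : a * (t - 1) * p ≤ l * (p * r * t) := by
    have := mul_le_mul_of_nonneg_right h1 (show (0 : ℤ) ≤ p by linarith)
    linarith
  have h6 : a * (p * r * t) + a * ((p - 1) * t - p) ≤ (a - 1) * (p * r * t) := by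
    have : a * (p * r * t) + a * ((p - 1) * t - p) =
        a * (p - 1) * (r * t) + a * (r - 1) * t + a * (t - 1) * p := by ring
    rw [this]
    linarith
  have h7 : 0 ≤ (p - 1) * t - p := by nlinarith
  have h8 := mul_nonneg ha.le h7
  have h9 : 0 < p * r * t :=
    mul_pos (mul_pos (by linarith) (by linarith)) (by linarith)
  linarith

theorem arith (S : Finset ℕ) (hS : S.Nonempty) (hp : ∀ q ∈ S, q.Prime) (a h : ℕ) (ha : 0 < a)
    (hh : 0 < h) (k e : ℕ → ℕ) (hk : ∀ q ∈ S, k q * q * e q = a * h)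
    (he : ∀ q ∈ S, 0 < e q ∧ e q ≤ q - 1)
    (hd : ∀ q ∈ S, e q ∣ h ∨ (e q ∈ S ∧ e q < q))
    (hsum : ∑ q ∈ S, k q * (q - 1) = a - 1) :
    ∃ q ∈ S, k q = 1 := by
  obtain ⟨p, hpS, hpmin⟩ : ∃ p ∈ S, ∀ q ∈ S, p ≤ q :=
    ⟨S.min' hS, S.min'_mem hS, fun q hq => S.min'_le q hq⟩
  have hp2 : 2 ≤ p := (hp p hpS).two_le
  have hepd : e p ∣ h := by
    rcases hd p hpS with h1 | ⟨h1, h2⟩
    · exact h1
    · exact absurd (hpmin _ h1) (not_le.2 h2)
  have hep : e p ≤ h := Nat.le_of_dvd hh hepd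
  by_cases hS1 : S = {p}
  · refine ⟨p, hpS, ?_⟩
    rw [hS1, Finset.sum_singleton] at hsum
    exact Ari_one hp2 hh (hk p hpS) (he p hpS).1 hepd hsum ha
  -- casts
  have hkz : ∀ q ∈ S, (k q : ℤ) * q * e q = a * h := fun q hq => by exact_mod_cast hk q hq
  have hFz : ∀ q ∈ S, ((k q * (q - 1) : ℕ) : ℤ) = k q * (q - 1) := by
    intro q hq
    have h1 := (hp q hq).one_le
    push_cast [Nat.cast_sub h1]
    ring
  have hsub : ∀ T ⊆ S, ∑ q ∈ T, ((k q : ℤ) * (q - 1)) ≤ a - 1 := by
    intro T hT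
    have h1 : ∑ q ∈ T, k q * (q - 1) ≤ a - 1 := by
      rw [← hsum]
      exact Finset.sum_le_sum_of_subset hT
    have h2 : ((∑ q ∈ T, k q * (q - 1) : ℕ) : ℤ) ≤ ((a - 1 : ℕ) : ℤ) := by exact_mod_cast h1
    rw [Nat.cast_sum, Finset.sum_congr rfl fun q hq => hFz q (hT hq), Nat.cast_sub ha] at h2
    simpa using h2
  have haz : (0 : ℤ) < a := by exact_mod_cast ha
  have hhz : (0 : ℤ) < h := by exact_mod_cast hh
  have hp2z : (2 : ℤ) ≤ p := by exact_mod_cast hp2
  have hne : (S.erase p).Nonempty := by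
    rw [Finset.nonempty_iff_ne_empty]
    intro h0
    rcases Finset.erase_eq_empty_iff _ _ |>.1 h0 with h1 | h1
    · exact hS.ne_empty h1
    · exact hS1 h1
  obtain ⟨r, hrS, hrp, hrmin⟩ : ∃ r ∈ S, r ≠ p ∧ ∀ q ∈ S, q ≠ p → r ≤ q := by
    refine ⟨(S.erase p).min' hne, Finset.mem_of_mem_erase (Finset.min'_mem _ hne),
      Finset.ne_of_mem_erase (Finset.min'_mem _ hne), fun q hq hqp => ?_⟩
    exact Finset.min'_le _ q (Finset.mem_erase.2 ⟨hqp, hq⟩)
  have hpr : p < r := lt_of_le_of_ne (hpmin r hrS) (Ne.symm hrp)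
  have hprz : (p : ℤ) < r := by exact_mod_cast hpr
  have hfp : (a : ℤ) * (p - 1) ≤ (k p * (p - 1)) * p := by
    have h1 := hkz p hpS
    have h2 : (e p : ℤ) ≤ h := by exact_mod_cast hep
    have h3 : (0 : ℤ) < e p := by exact_mod_cast (he p hpS).1
    have h4 : (a : ℤ) ≤ k p * p := by
      by_contra hcon
      push Not at hcon
      have h5 : (k p : ℤ) * p * e p < a * e p := mul_lt_mul_of_pos_right hcon h3
      have h6 : (a : ℤ) * e p ≤ a * h := mul_le_mul_of_nonneg_left h2 haz.le
      linarith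
    have h5 : (a : ℤ) * (p - 1) ≤ k p * p * (p - 1) :=
      mul_le_mul_of_nonneg_right h4 (by linarith)
    linarith
  have hsum2 : (k p : ℤ) * (p - 1) + k r * (r - 1) ≤ a - 1 := by
    have h1 := hsub {p, r} (by
      intro x hx
      rcases Finset.mem_insert.1 hx with h2 | h2
      · rw [h2]; exact hpS
      · rw [Finset.mem_singleton.1 h2]; exact hrS)
    rwa [Finset.sum_pair (Ne.symm hrp)] at h1
  obtain ⟨hA, hB⟩ := Ari_two (h := (h : ℤ)) hp2z hprz haz hfp hsum2
  -- `e r = p`
  have her : e r = p := by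
    rcases hd r hrS with h1 | ⟨h1, h2⟩
    · exfalso
      have h2 : (e r : ℤ) ≤ h := by exact_mod_cast Nat.le_of_dvd hh h1
      have h3 : (0 : ℤ) < e r := by exact_mod_cast (he r hrS).1
      have h4 := hkz r hrS
      have h5 : (a : ℤ) ≤ k r * r := by
        by_contra hcon
        push Not at hcon
        have h5 : (k r : ℤ) * r * e r < a * e r := mul_lt_mul_of_pos_right hcon h3
        have h6 : (a : ℤ) * e r ≤ a * h := mul_le_mul_of_nonneg_left h2 haz.le
        linarith
      have h6 : (a : ℤ) * (r - 1) ≤ k r * r * (r - 1) :=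
        mul_le_mul_of_nonneg_right h5 (by linarith)
      linarith
    · by_contra hne
      exact absurd (hrmin _ h1 hne) (not_le.2 h2)
  have hkr : (k r : ℤ) * r * p = a * h := by
    have h1 := hkz r hrS
    rwa [her] at h1
  have hh1 : h = 1 := by
    by_contra hne
    have h2 : (2 : ℤ) ≤ h := by
      have : 2 ≤ h := by omega
      exact_mod_cast this
    have h3 := hB h2
    have h4 : (k r : ℤ) * (r - 1) * (r * p) = a * h * (r - 1) := by
      rw [← hkr]
      ring
    linarith
  have hep1 : e p = 1 := Nat.dvd_one.1 (hh1 ▸ hepd)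
  have hkp : (k p : ℤ) * p = a := by
    have h1 := hkz p hpS
    rw [hep1, hh1] at h1
    simpa using h1
  have hkr1 : (k r : ℤ) * r * p = a := by
    rw [hkr, hh1]
    simp
  by_cases hS2 : S = {p, r}
  · refine ⟨r, hrS, ?_⟩
    have h1 : ∑ q ∈ S, ((k q : ℤ) * (q - 1)) = a - 1 := by
      have h2 : ((∑ q ∈ S, k q * (q - 1) : ℕ) : ℤ) = ((a - 1 : ℕ) : ℤ) := by rw [hsum]
      rw [Nat.cast_sum, Finset.sum_congr rfl fun q hq => hFz q hq, Nat.cast_sub ha] at h2
      simpa using h2
    rw [hS2, Finset.sum_pair (Ne.symm hrp)] at h1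
    have h2 : (k p : ℤ) = k r * r := by
      have h3 : (p : ℤ) * k p = p * (k r * r) := by linarith
      exact mul_left_cancel₀ (by linarith : (p : ℤ) ≠ 0) h3
    have h3 : (k r : ℤ) = 1 := by linarith
    exact_mod_cast h3
  · exfalso
    have hne3 : ((S.erase p).erase r).Nonempty := by
      rw [Finset.nonempty_iff_ne_empty]
      intro h0
      apply hS2
      ext x
      rw [Finset.mem_insert, Finset.mem_singleton]
      constructor
      · intro hx
        by_contra hcon
        push Not at hcon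
        have h1 : x ∈ (S.erase p).erase r :=
          Finset.mem_erase.2 ⟨hcon.2, Finset.mem_erase.2 ⟨hcon.1, hx⟩⟩
        rw [h0] at h1
        exact absurd h1 (Finset.notMem_empty x)
      · rintro (h1 | h1)
        · rw [h1]; exact hpS
        · rw [h1]; exact hrS
    obtain ⟨t, htS, htp, htr, htmin⟩ : ∃ t ∈ S, t ≠ p ∧ t ≠ r ∧
        ∀ q ∈ S, q ≠ p → q ≠ r → t ≤ q := by
      have h1 := Finset.min'_mem _ hne3
      refine ⟨((S.erase p).erase r).min' hne3,
        Finset.mem_of_mem_erase (Finset.mem_of_mem_erase h1),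
        Finset.ne_of_mem_erase (Finset.mem_of_mem_erase h1), Finset.ne_of_mem_erase h1,
        fun q hq hqp hqr => ?_⟩
      exact Finset.min'_le _ q (Finset.mem_erase.2 ⟨hqr, Finset.mem_erase.2 ⟨hqp, hq⟩⟩)
    have hrt : r < t := lt_of_le_of_ne (hrmin t htS htp) (Ne.symm htr)
    have hrtz : (r : ℤ) < t := by exact_mod_cast hrt
    have het : e t ≤ r := by
      rcases hd t htS with h1 | ⟨h1, h2⟩
      · rw [hh1] at h1
        rw [Nat.dvd_one.1 h1]
        omega
      · by_cases h3 : e t = p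
        · omega
        · by_cases h4 : e t = r
          · exact h4.le
          · exact absurd (htmin _ h1 h3 h4) (not_le.2 h2)
    have hsum3 : (k p : ℤ) * (p - 1) + k r * (r - 1) + k t * (t - 1) ≤ a - 1 := by
      have h1 := hsub {p, r, t} (by
        intro x hx
        rcases Finset.mem_insert.1 hx with h2 | h2
        · rw [h2]; exact hpS
        · rcases Finset.mem_insert.1 h2 with h3 | h3
          · rw [h3]; exact hrS
          · rw [Finset.mem_singleton.1 h3]; exact htS)
      rw [Finset.sum_insert (by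
        rw [Finset.mem_insert, Finset.mem_singleton]
        push Not
        exact ⟨Ne.symm hrp, Ne.symm htp⟩), Finset.sum_pair (Ne.symm htr)] at h1
      linarith
    have hkt : (k t : ℤ) * t * e t = a := by
      have h1 := hkz t htS
      rw [hh1] at h1
      simpa using h1
    refine Ari_three (p := p) (r := r) (t := t) (a := a) (f := k p * (p - 1))
      (g := k r * (r - 1)) (l := k t * (t - 1)) (e := e t) hp2z hprz hrtz haz ?_ ?_ ?_ ?_ ?_ ?_ hsum3
    · rw [← hkp]
      ring
    · rw [← hkr1]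
      ring
    · rw [← hkt]
      ring
    · exact_mod_cast (he t htS).1
    · exact_mod_cast het
    · exact mul_nonneg (Int.natCast_nonneg _) (by linarith)

end Pool.MP_a7cd38_co.AT
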