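import Pool.Agent.H.MP_a7cd38_co.AT.Stb

/-!
The action of a single autotopism on the rows and on the columns.
-/

namespace Pool.MP_a7cd38_co.AT

variable {G R C : Type} [Group G] [MulAction G R] [MulAction G C] [Finite G] [Finite R] [Finite C]
  [Nontrivial C] {s : R → R → Equiv.Perm C}

/-- `x` of prime order `q ∣ n` fixes the row `r`, `y` commutes with `x`: then `y ^ q` fixes `r`. -/
theorem RH.pow_fix_row (hL : RH G R C s) {q : ℕ} [Fact q.Prime] (hq : q ∣ Nat.card C)
    (x : G) (hx : orderOf x = q) (r : R) (hr : x • r = r) (y : G) (hxy : Commute x y) :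
    y ^ q • r = r := by
  set X : Equiv.Perm C := MulAction.toPerm x with hX
  have hXc : ∀ c, X c ≠ c := hL.nofix_col hq x hx r hr
  have hXq : X ^ q = 1 := by
    have : X = MulAction.toPermHom G C x := rfl
    rw [this, ← map_pow, ← hx, pow_orderOf_eq_one, map_one]
  obtain ⟨T, hT, hT0⟩ := exists_T X q hXc hXq
  have hcs : ∀ t t' : R, x • t = t → x • t' = t' → Commute (s t t') X :=
    fun t t' h h' => hL.commute_perm h h'
  have h1 : T 1 = 0 := by
    have := hT 1 1 (Commute.one_left X) (Commute.one_left X)
    rw [mul_one] at this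
    simpa using this
  have hinj : ∀ t t' : R, x • t = t → x • t' = t' → T (s r t) = T (s r t') → t = t' := by
    intro t t' ht ht' h
    by_contra hne
    apply hT0 (s t t') (hcs t t' ht ht') (hL.full t t' hne)
    have h2 := hT (s r t) (s t t') (hcs r t hr ht) (hcs t t' ht ht')
    rw [hL.mul, h] at h2
    simpa using h2
  set Y : Equiv.Perm C := MulAction.toPerm y with hY
  have hYX : Commute Y X := by
    have h1 : Y = MulAction.toPermHom G C y := rfl
    have h2 : X = MulAction.toPermHom G C x := rfl
    rw [h1, h2]
    exact (hxy.symm).map _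
  have hyfix : ∀ t : R, x • t = t → x • y • t = y • t := by
    intro t ht
    rw [← mul_smul, hxy.eq, mul_smul, ht]
  have hinv : ∀ t : R, x • t = t → T (s (y • r) (y • t)) = T (s r t) := by
    intro t ht
    have hs : s (y • r) (y • t) = Y * s r t * Y⁻¹ := by
      rw [eq_mul_inv_iff_mul_eq]
      apply Equiv.ext
      intro c
      have := hL.conj y r t c
      simpa [Equiv.Perm.mul_apply, hY] using this
    have h2 : T Y + T Y⁻¹ = 0 := by
      rw [← hT Y Y⁻¹ hYX hYX.inv_left, mul_inv_cancel, h1]
    rw [hs, hT _ _ (hYX.mul_left (hcs r t hr ht)) hYX.inv_left,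
      hT _ _ hYX (hcs r t hr ht)]
    linear_combination h2
  have hind : ∀ j : ℕ, x • y ^ j • r = y ^ j • r ∧
      T (s r (y ^ j • r)) = (j : ZMod q) * T (s r (y • r)) := by
    intro j
    induction j with
    | zero =>
      rw [pow_zero, one_smul, hL.one, h1]
      exact ⟨hr, by simp⟩
    | succ j ih =>
      obtain ⟨ih1, ih2⟩ := ih
      have h3 : y ^ (j + 1) • r = y • y ^ j • r := by rw [pow_succ', mul_smul]
      rw [h3]
      refine ⟨hyfix _ ih1, ?_⟩
      rw [← hL.mul r (y • r) (y • y ^ j • r),
        hT _ _ (hcs _ _ hr (hyfix r hr)) (hcs _ _ (hyfix r hr) (hyfix _ ih1)), hinv _ ih1, ih2]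
      push_cast
      ring
  obtain ⟨h3, h4⟩ := hind q
  apply hinj _ _ h3 hr
  rw [h4, hL.one, h1]
  simp

/-- an autotopism without fixed rows acts semiregularly on the rows. -/
theorem RH.free_row (hL : RH G R C s) (y : G) (hy : ∀ r : R, y • r ≠ r) (k : ℕ)
    (hk : y ^ k ≠ 1) (r : R) : y ^ k • r ≠ r := by
  intro hr
  set x := y ^ k with hx
  have hxy : Commute x y := (Commute.refl y).pow_left k
  by_cases hc : ∃ c : C, x • c = c
  · obtain ⟨c, hc⟩ := hc
    have h1 : x • y • r = y • r := by rw [← mul_smul, hxy.eq, mul_smul, hr]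
    exact hk (hL.eq_one (r := r) (t := y • r) (hy r).symm hr h1 hc)
  · obtain ⟨hp, hd⟩ := hL.order_of_free r x hr hk (fun c h => hc ⟨c, h⟩)
    set q := orderOf x with hq
    have hqf : Fact q.Prime := ⟨hp⟩
    have hyq : y ^ q • r = r := hL.pow_fix_row hd x hq.symm r hr y hxy
    have hyqx : y ^ q ∈ Subgroup.zpowers x :=
      hL.cent hd x hq.symm r hr (y ^ q) hyq (hxy.pow_right q)
    have hfixx : ∀ z ∈ Subgroup.zpowers x, z • r = r := by
      intro z hz
      have : Subgroup.zpowers x ≤ MulAction.stabilizer G r := by
        rw [Subgroup.zpowers_le]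
        exact hr
      exact this hz
    have hxzy : Subgroup.zpowers x ≤ Subgroup.zpowers y := by
      rw [Subgroup.zpowers_le]
      exact Subgroup.npow_mem_zpowers y k
    -- the order of `y` is `q ^ 2`
    have hyq1 : y ^ q ≠ 1 := by
      intro h
      have h1 : orderOf y ∣ q := orderOf_dvd_of_pow_eq_one h
      have h2 : orderOf y ≠ 1 := by
        intro h3
        rw [orderOf_eq_one_iff] at h3
        apply hy r
        rw [h3, one_smul]
      have h3 : orderOf y = q := (Nat.Prime.eq_one_or_self_of_dvd hp _ h1).resolve_left h2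
      have h4 : Subgroup.zpowers x = Subgroup.zpowers y := by
        apply Subgroup.eq_of_le_of_card_ge hxzy
        rw [Nat.card_zpowers, Nat.card_zpowers, h3]
      apply hy r
      apply hfixx
      rw [h4]
      exact Subgroup.mem_zpowers y
    have hoyq : orderOf (y ^ q) = q := by
      have h1 : orderOf (y ^ q) ∣ q := by
        have h2 := Subgroup.orderOf_dvd_natCard _ hyqx
        rwa [Nat.card_zpowers] at h2
      exact (Nat.Prime.eq_one_or_self_of_dvd hp _ h1).resolve_left
        (fun h3 => hyq1 (orderOf_eq_one_iff.mp h3))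
    have hoy : orderOf y = q * q := by
      have h1 : y ^ (q ^ 2) = 1 := by
        have h2 : (y ^ q) ^ q = 1 := orderOf_dvd_iff_pow_eq_one.mp (by rw [hoyq])
        rw [sq, pow_mul]
        exact h2
      obtain ⟨i, hi, hi2⟩ := (Nat.dvd_prime_pow hp).mp (orderOf_dvd_of_pow_eq_one h1)
      have hi3 : i = 2 := by
        have h3 : i ≠ 0 := by
          rintro rfl
          rw [pow_zero, orderOf_eq_one_iff] at hi2
          apply hyq1
          rw [hi2, one_pow]
        have h4 : i ≠ 1 := by
          rintro rfl
          rw [pow_one] at hi2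
          apply hyq1
          rw [← hi2, pow_orderOf_eq_one]
        omega
      rw [hi2, hi3, sq]
    -- every nontrivial subgroup of `zpowers y` contains `x`
    have hmin : ∀ z ∈ Subgroup.zpowers y, z ≠ 1 → x ∈ Subgroup.zpowers z := by
      intro z hz hz1
      have hzd : orderOf z ∣ q ^ 2 := by
        have := Subgroup.orderOf_dvd_natCard _ hz
        rwa [Nat.card_zpowers, hoy, ← sq] at this
      obtain ⟨i, hi, hi2⟩ := (Nat.dvd_prime_pow hp).mp hzd
      have hi0 : i ≠ 0 := by
        rintro rfl
        rw [pow_zero, orderOf_eq_one_iff] at hi2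
        exact hz1 hi2
      have hle : Subgroup.zpowers z ≤ Subgroup.zpowers y := by
        rw [Subgroup.zpowers_le]
        exact hz
      rcases Nat.lt_or_ge i 2 with h2 | h2
      · have hi1 : i = 1 := by omega
        rw [hi1, pow_one] at hi2
        obtain ⟨j, hj⟩ := Subgroup.mem_zpowers_iff.mp hz
        have h3 : z ∈ Subgroup.zpowers x := by
          have h4 : y ^ (j * q) = 1 := by
            rw [zpow_mul, hj, zpow_natCast, ← hi2, pow_orderOf_eq_one]
          have h5 : ((q : ℤ) * q) ∣ j * q := by
            have h6 := orderOf_dvd_iff_zpow_eq_one.mpr h4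
            rw [hoy] at h6
            push_cast at h6
            exact h6
          have h6 : (q : ℤ) ∣ j := by
            have hq0 : (q : ℤ) ≠ 0 := by exact_mod_cast hp.ne_zero
            exact Int.dvd_of_mul_dvd_mul_right hq0 h5
          obtain ⟨l, hl⟩ := h6
          rw [← hj, hl, zpow_mul, zpow_natCast]
          exact Subgroup.zpow_mem _ hyqx l
        have h4 : Subgroup.zpowers z = Subgroup.zpowers x := by
          apply Subgroup.eq_of_le_of_card_ge
          · rw [Subgroup.zpowers_le]
            exact h3
          · rw [Nat.card_zpowers, Nat.card_zpowers, hi2]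
        rw [h4]
        exact Subgroup.mem_zpowers x
      · have hi1 : i = 2 := by omega
        have h4 : Subgroup.zpowers z = Subgroup.zpowers y := by
          apply Subgroup.eq_of_le_of_card_ge hle
          rw [Nat.card_zpowers, Nat.card_zpowers, hi2, hoy, hi1, sq]
        rw [h4]
        exact hxzy (Subgroup.mem_zpowers x)
    -- counting columns
    have hC : q * q ∣ Nat.card C := by
      have h0 : ∀ z : Subgroup.zpowers y, z ≠ 1 → Nat.card {c : C // z • c = c} = 0 := by
        intro z hz
        rw [Finite.card_eq_zero_iff]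
        constructor
        rintro ⟨c, hcz⟩
        have hz1 : (z : G) ≠ 1 := fun h => hz (Subtype.ext h)
        apply hc
        refine ⟨c, ?_⟩
        have : Subgroup.zpowers (z : G) ≤ MulAction.stabilizer G c := by
          rw [Subgroup.zpowers_le]
          exact hcz
        exact this (hmin z z.2 hz1)
      have h1 := semireg (Γ := Subgroup.zpowers y) (C := C) 0 h0
      rwa [mul_zero, add_zero, Nat.card_zpowers, hoy] at h1
    -- counting rows
    have hyX : ∀ z ∈ Subgroup.zpowers y, ∀ t : R, x • t ≠ t → x • z • t ≠ z • t := by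
      intro z hz t ht h
      apply ht
      have hcom : Commute x z := by
        obtain ⟨j, hj⟩ := Subgroup.mem_zpowers_iff.mp hz
        rw [← hj]
        exact hxy.zpow_right j
      rw [← mul_smul, hcom.eq, mul_smul] at h
      exact (MulAction.injective z) h
    have hR : q * q ∣ Nat.card {t : R // x • t ≠ t} := by
      let act : MulAction (Subgroup.zpowers y) {t : R // x • t ≠ t} :=
        { smul := fun z t => ⟨(z : G) • t.1, hyX z z.2 t.1 t.2⟩
          one_smul := fun t => Subtype.ext (one_smul G t.1)
          mul_smul := fun a b t => Subtype.ext (mul_smul (a : G) (b : G) t.1) }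
      have h0 : ∀ z : Subgroup.zpowers y, z ≠ 1 →
          Nat.card {t : {t : R // x • t ≠ t} // z • t = t} = 0 := by
        intro z hz
        rw [Finite.card_eq_zero_iff]
        constructor
        rintro ⟨t, htz⟩
        have hz1 : (z : G) ≠ 1 := fun h => hz (Subtype.ext h)
        have htz' : (z : G) • t.1 = t.1 := congrArg Subtype.val htz
        apply t.2
        have : Subgroup.zpowers (z : G) ≤ MulAction.stabilizer G t.1 := by
          rw [Subgroup.zpowers_le]
          exact htz'
        exact this (hmin z z.2 hz1)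
      have h1 := semireg (Γ := Subgroup.zpowers y) (C := {t : R // x • t ≠ t}) 0 h0
      rwa [mul_zero, add_zero, Nat.card_zpowers, hoy] at h1
    have hcard : Nat.card {t : R // x • t ≠ t} = Nat.card C - q := by
      classical
      have hfR := Fintype.ofFinite R
      have h1 := (hL.key hd x hq.symm r hr).1
      rw [Nat.card_eq_fintype_card] at h1
      rw [Nat.card_eq_fintype_card, ← hL.card, Nat.card_eq_fintype_card,
        Fintype.card_subtype_compl, h1]
    rw [hcard] at hR
    have hqn : q ≤ Nat.card C := Nat.le_of_dvd Nat.card_pos hd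
    have h1 := Nat.dvd_sub hC hR
    have h2 : Nat.card C - (Nat.card C - q) = q := by omega
    rw [h2] at h1
    have h3 := Nat.le_of_dvd hp.pos h1
    have h4 := hp.two_le
    nlinarith

/-- an autotopism with a fixed row and a fixed column. -/
theorem RH.type_one (hL : RH G R C s) (y : G) (hy : y ≠ 1) (r : R) (hr : y • r = r)
    (c : C) (hc : y • c = c) (k : ℕ) (hk : y ^ k ≠ 1) :
    (∀ t : R, y ^ k • t = t → t = r) ∧ ∀ d : C, y ^ k • d = d → d = c := by
  have hpow : y ^ k • r = r ∧ y ^ k • c = c := by
    constructor
    · have : Subgroup.zpowers y ≤ MulAction.stabilizer G r := by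
        rw [Subgroup.zpowers_le]
        exact hr
      exact this (Subgroup.npow_mem_zpowers _ _)
    · have : Subgroup.zpowers y ≤ MulAction.stabilizer G c := by
        rw [Subgroup.zpowers_le]
        exact hc
      exact this (Subgroup.npow_mem_zpowers _ _)
  constructor
  · intro t ht
    by_contra hne
    exact hk (hL.eq_one (r := r) (t := t) (Ne.symm hne) hpow.1 ht hpow.2)
  · intro d hd
    exact hL.unique_col hk hpow.1 hd hpow.2

end Pool.MP_a7cd38_co.AT
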