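import Pool.Agent.H.MP_a7cd38_co.AT.BPot
import Pool.Agent.H.MP_a7cd38_co.AT.Cyc

/-!
# Module BAff: elements normalizing `⟨x⟩` act on the rows fixed by `x` as affine maps

`x` has prime order `q ∣ n` and fixes the row `r`. `a t = T (s r t)`.
-/

namespace Pool.MP_a7cd38_co.AT

variable {G R C : Type} [Group G] [MulAction G R] [MulAction G C] [Finite G] [Finite R] [Finite C]
  [Nontrivial C] {s : R → R → Equiv.Perm C}

omit [MulAction G R] [MulAction G C] [Finite R] [Finite C] [Nontrivial C] in
theorem BAff_npow {y z : G} (hz : z ∈ Subgroup.zpowers y) : ∃ k : ℕ, y ^ k = z := by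
  rw [← mem_powers_iff_mem_zpowers] at hz
  exact hz

omit [MulAction G R] [MulAction G C] [Finite R] [Finite C] [Nontrivial C] in
theorem BAff_inv {x g : G} {k : ℕ} (h : g * x * g⁻¹ = x ^ k) : ∃ j : ℕ, g⁻¹ * x * g = x ^ j := by
  have hle : Subgroup.zpowers (g * x * g⁻¹) ≤ Subgroup.zpowers x := by
    rw [Subgroup.zpowers_le, h]
    exact Subgroup.npow_mem_zpowers x k
  have hcard : Nat.card (Subgroup.zpowers (g * x * g⁻¹)) = Nat.card (Subgroup.zpowers x) := by
    rw [Nat.card_zpowers, Nat.card_zpowers]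
    exact orderOf_injective (MulAut.conj g).toMonoidHom (MulAut.conj g).injective x
  have heq : Subgroup.zpowers (g * x * g⁻¹) = Subgroup.zpowers x :=
    Subgroup.eq_of_le_of_card_ge hle hcard.ge
  have hx : x ∈ Subgroup.zpowers (g * x * g⁻¹) := by
    rw [heq]
    exact Subgroup.mem_zpowers x
  obtain ⟨j, hj⟩ := BAff_npow hx
  refine ⟨j, ?_⟩
  rw [conj_pow] at hj
  calc g⁻¹ * x * g = g⁻¹ * (g * x ^ j * g⁻¹) * g := by rw [hj]
    _ = x ^ j := by group

omit [Finite R] [MulAction G C] [Finite C] [Nontrivial C] in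
theorem BAff_fix {x g : G} {k : ℕ} (h : g * x * g⁻¹ = x ^ k) {t : R} (ht : x • t = t) :
    x • g • t = g • t := by
  obtain ⟨j, hj⟩ := BAff_inv h
  have h1 : x * g = g * x ^ j := by
    rw [← hj]
    group
  have h2 : x ^ j • t = t := by
    have : Subgroup.zpowers x ≤ MulAction.stabilizer G t := by
      rw [Subgroup.zpowers_le]
      exact ht
    exact this (Subgroup.npow_mem_zpowers x j)
  rw [← mul_smul, h1, mul_smul, h2]

theorem RH.affine (hL : RH G R C s) {q : ℕ} [Fact q.Prime] (hq : q ∣ Nat.card C)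
    (x : G) (hx : orderOf x = q) (r : R) (hr : x • r = r) :
    ∃ a : R → ZMod q,
      (∀ t t' : R, x • t = t → x • t' = t' → a t = a t' → t = t') ∧
      (∀ (g : G) (k : ℕ), g * x * g⁻¹ = x ^ k → ∀ t t' : R, x • t = t → x • t' = t' →
        a (g • t') - a (g • t) = k * (a t' - a t)) := by
  set X : Equiv.Perm C := MulAction.toPerm x with hX
  have hXh : X = MulAction.toPermHom G C x := rfl
  have hXc : ∀ c, X c ≠ c := hL.nofix_col hq x hx r hr
  have hXq : X ^ q = 1 := by
    rw [hXh, ← map_pow, ← hx, pow_orderOf_eq_one, map_one]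
  have hoX : orderOf X = q := by
    apply orderOf_eq_prime hXq
    intro h1
    obtain ⟨c, -⟩ := exists_pair_ne C
    apply hXc c
    rw [h1]
    rfl
  obtain ⟨T, m, hT, hT0⟩ := exists_T2 X q hXc hXq
  have hcs : ∀ t t' : R, x • t = t → x • t' = t' → Commute (s t t') X :=
    fun t t' h h' => hL.commute_perm h h'
  have hdiff : ∀ t t' : R, x • t = t → x • t' = t' → T (s r t') - T (s r t) = T (s t t') := by
    intro t t' ht ht'
    have h2 := hT (s r t) (s t t') (hcs r t hr ht) (hcs t t' ht ht')
    rw [hL.mul] at h2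
    rw [h2]
    ring
  have h1 : T 1 = 0 := by
    have := hT 1 1 (Commute.one_left X) (Commute.one_left X)
    rw [mul_one] at this
    simpa using this
  refine ⟨fun t => T (s r t), ?_, ?_⟩
  · intro t t' ht ht' h
    by_contra hne
    apply (hT0 (s t t') (hcs t t' ht ht') (hL.full t t' hne)).2
    rw [← hdiff t t' ht ht']
    change T (s r t) = T (s r t') at h
    rw [h, sub_self]
  · intro g k hg t t' ht ht'
    have hgt := BAff_fix hg ht
    have hgt' := BAff_fix hg ht'
    change T (s r (g • t')) - T (s r (g • t)) = k * (T (s r t') - T (s r t))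
    rw [hdiff _ _ hgt hgt', hdiff t t' ht ht']
    by_cases hne : t = t'
    · subst hne
      rw [hL.one, hL.one, h1, mul_zero]
    · have hgne : g • t ≠ g • t' := fun h => hne (MulAction.injective g h)
      set Y : Equiv.Perm C := MulAction.toPerm g with hY
      have hYh : Y = MulAction.toPermHom G C g := rfl
      have hYX : Y * X * Y⁻¹ = X ^ k := by
        rw [hXh, hYh, ← map_inv, ← map_mul, ← map_mul, hg, map_pow]
      have hs : s (g • t) (g • t') = Y * s t t' * Y⁻¹ := by
        rw [eq_mul_inv_iff_mul_eq]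
        apply Equiv.ext
        intro c
        have := hL.conj g t t' c
        simpa [Equiv.Perm.mul_apply, hY] using this
      have e1 := (hT0 (s t t') (hcs t t' ht ht') (hL.full t t' hne)).1
      have e2 := (hT0 _ (hcs _ _ hgt hgt') (hL.full _ _ hgne)).1
      have e3 : s (g • t) (g • t') ^ m = X ^ (k * (T (s t t')).val) := by
        rw [hs, conj_pow, e1, pow_mul, ← hYX, conj_pow]
      rw [e3] at e2
      have e4 := pow_eq_pow_iff_modEq.mp e2
      rw [hoX] at e4
      have e5 := (ZMod.natCast_eq_natCast_iff _ _ _).mpr e4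
      push_cast at e5
      rw [ZMod.natCast_zmod_val, ZMod.natCast_zmod_val] at e5
      exact e5.symm

end Pool.MP_a7cd38_co.AT
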