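import Mathlib

/-!
# Module BCnt: double counting of the conjugates of `x` and their fixed points
-/

namespace Pool.MP_a7cd38_co.AT

theorem class_count {G R : Type} [Group G] [MulAction G R] [Finite G] [Finite R] (x : G) (q w : ℕ)
    (hF : Nat.card {r : R // x • r = r} = q)
    (hw : ∀ r : R, Nat.card {z : G // IsConj x z ∧ z • r = r} ≤ w) :
    Nat.card G * q ≤ Nat.card R * (w * Nat.card (Subgroup.centralizer {x})) := by
  classical
  have := Fintype.ofFinite G
  have := Fintype.ofFinite R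
  have e1 : Nat.card (Σ g : G, {r : R // (g * x * g⁻¹) • r = r}) = Nat.card G * q := by
    rw [Nat.card_sigma]
    have h1 : ∀ g : G, Nat.card {r : R // (g * x * g⁻¹) • r = r} = q := by
      intro g
      rw [← hF]
      apply Nat.card_congr
      refine ⟨fun r => ⟨g⁻¹ • r.1, ?_⟩, fun r => ⟨g • r.1, ?_⟩, ?_, ?_⟩
      · have h2 := r.2
        rw [mul_smul, mul_smul] at h2
        rw [← smul_left_cancel_iff g, h2, smul_inv_smul]
      · rw [mul_smul, mul_smul, inv_smul_smul, r.2]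
      · intro r
        exact Subtype.ext (smul_inv_smul g r.1)
      · intro r
        exact Subtype.ext (inv_smul_smul g r.1)
    rw [Finset.sum_congr rfl fun g _ => h1 g, Finset.sum_const, smul_eq_mul, Finset.card_univ,
      Nat.card_eq_fintype_card]
  have e2 : Nat.card (Σ g : G, {r : R // (g * x * g⁻¹) • r = r}) =
      Nat.card (Σ r : R, {g : G // (g * x * g⁻¹) • r = r}) := by
    apply Nat.card_congr
    exact ⟨fun p => ⟨p.2.1, p.1, p.2.2⟩, fun p => ⟨p.2.1, p.1, p.2.2⟩, fun _ => rfl, fun _ => rfl⟩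
  rw [← e1, e2, Nat.card_sigma]
  have h2 : ∀ r : R, Nat.card {g : G // (g * x * g⁻¹) • r = r} ≤
      w * Nat.card (Subgroup.centralizer {x}) := by
    intro r
    refine le_trans ?_ (Nat.mul_le_mul_right _ (hw r))
    rw [← Nat.card_prod]
    have hch : ∀ z : {z : G // IsConj x z ∧ z • r = r}, ∃ g : G, g * x * g⁻¹ = z.1 :=
      fun z => isConj_iff.mp z.2.1
    choose c hc using hch
    have hz : ∀ g : {g : G // (g * x * g⁻¹) • r = r}, IsConj x (g.1 * x * g.1⁻¹) ∧
        (g.1 * x * g.1⁻¹) • r = r := fun g => ⟨isConj_iff.mpr ⟨g.1, rfl⟩, g.2⟩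
    have hcen : ∀ g : {g : G // (g * x * g⁻¹) • r = r},
        (c ⟨_, hz g⟩)⁻¹ * g.1 ∈ Subgroup.centralizer {x} := by
      intro g
      rw [Subgroup.mem_centralizer_singleton_iff]
      have h3 := hc ⟨_, hz g⟩
      set d := c ⟨_, hz g⟩ with hd
      have h4 : d * x * d⁻¹ = g.1 * x * g.1⁻¹ := h3
      calc d⁻¹ * g.1 * x = d⁻¹ * (g.1 * x * g.1⁻¹) * g.1 := by group
        _ = d⁻¹ * (d * x * d⁻¹) * g.1 := by rw [h4]
        _ = x * (d⁻¹ * g.1) := by group
    refine Nat.card_le_card_of_injective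
      (fun g : {g : G // (g * x * g⁻¹) • r = r} =>
        ((⟨_, hz g⟩ : {z : G // IsConj x z ∧ z • r = r}),
          (⟨_, hcen g⟩ : Subgroup.centralizer {x}))) ?_
    intro g g' h
    rw [Prod.mk.injEq] at h
    obtain ⟨h3, h4⟩ := h
    have h5 := congrArg Subtype.val h4
    change (c ⟨_, hz g⟩)⁻¹ * g.1 = (c ⟨_, hz g'⟩)⁻¹ * g'.1 at h5
    rw [h3] at h5
    exact Subtype.ext (mul_left_cancel h5)
  calc ∑ r : R, Nat.card {g : G // (g * x * g⁻¹) • r = r}
      ≤ ∑ _r : R, w * Nat.card (Subgroup.centralizer {x}) := Finset.sum_le_sum fun r _ => h2 r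
    _ = Nat.card R * (w * Nat.card (Subgroup.centralizer {x})) := by
      rw [Finset.sum_const, smul_eq_mul, Finset.card_univ, Nat.card_eq_fintype_card (α := R)]

end Pool.MP_a7cd38_co.AT
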