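import Mathlib

/-!
# Module BFrb: the theorem of Frobenius on the number of solutions of `g ^ m = 1`

Proof (Isaacs and Robinson, in a variant). For `q`, `s` coprime the elements `g` with
`g ^ (q * s) = 1` are the products `y * z` with `z ^ s = 1`, `y ^ q = 1`, `y z = z y`, in exactly
one way. So their number is the sum over the `z` with `z ^ s = 1` of the number `f z` of the `y`
in the centralizer of `z` with `y ^ q = 1` (`BFrb_split`), and such a sum can be grouped by
conjugacy classes (`BFrb_classes`).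
* Prime powers (`BFrb_pow`): if `p ^ a ∣ card G` then `p ^ a ∣ card {g | g ^ (p ^ a) = 1}`. Strong
  induction on the order of `G`. Let `card G = p ^ v * s`, `p` not dividing `s`. Then `card G` is the
  sum over the `z` with `z ^ s = 1` of `f z` (`q = p ^ v`). The `z` in the center give
  `c * card {g | g ^ (p ^ v) = 1}` with `c` prime to `p`, the other classes multiples of `p ^ v` by
  induction. This is the case `a = v`. For `a < v` the number of the `g` with
  `p ^ (a + 1) ∣ orderOf g` is a multiple of `p ^ a` (`BFrb_order`: group the `g` by their zpowers).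
* In general let `m = p ^ a * s`. The number of the `g` with `g ^ m = 1` is the sum over the `z` with
  `z ^ s = 1` of `f z` (`q = p ^ a`), and each class gives a multiple of `p ^ a`.
-/

namespace Pool.MP_a7cd38_co.AT

open Finset

section

variable {G : Type} [Group G]

/-- the number of solutions in the centralizer -/
noncomputable def BFrb_f (G : Type) [Group G] (q : ℕ) (z : G) : ℕ :=
  Nat.card {y : G // y ^ q = 1 ∧ Commute y z}

theorem BFrb_f_centralizer (q : ℕ) (z : G) :
    BFrb_f G q z = Nat.card {y : Subgroup.centralizer {z} // y ^ q = 1} := by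
  unfold BFrb_f
  refine Nat.card_congr
    { toFun := fun y => ⟨⟨y.1, Subgroup.mem_centralizer_singleton_iff.2 y.2.2⟩,
        Subtype.ext y.2.1⟩
      invFun := fun y => ⟨y.1.1, congrArg Subtype.val y.2,
        Subgroup.mem_centralizer_singleton_iff.1 y.1.2⟩
      left_inv := fun _ => rfl
      right_inv := fun _ => rfl }

theorem BFrb_f_conj (q : ℕ) (g z : G) : BFrb_f G q (g * z * g⁻¹) = BFrb_f G q z := by
  unfold BFrb_f
  refine Nat.card_congr ((MulAut.conj g).symm.toEquiv.subtypeEquiv fun y => ?_)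
  have e : (MulAut.conj g).symm.toEquiv y = g⁻¹ * y * g := by
    simp [MulAut.conj_symm_apply]
  rw [e]
  have hp : (g⁻¹ * y * g) ^ q = g⁻¹ * y ^ q * g := by
    have := conj_pow (i := q) (a := g⁻¹) (b := y)
    rwa [inv_inv] at this
  rw [hp]
  constructor
  · rintro ⟨h1, h2⟩
    refine ⟨by rw [h1]; simp, ?_⟩
    have h3 : y * (g * z * g⁻¹) = g * z * g⁻¹ * y := h2
    show g⁻¹ * y * g * z = z * (g⁻¹ * y * g)
    calc g⁻¹ * y * g * z = g⁻¹ * (y * (g * z * g⁻¹)) * g := by group
      _ = g⁻¹ * (g * z * g⁻¹ * y) * g := by rw [h3]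
      _ = z * (g⁻¹ * y * g) := by group
  · rintro ⟨h1, h2⟩
    refine ⟨?_, ?_⟩
    · have h4 : y ^ q = g * (g⁻¹ * y ^ q * g) * g⁻¹ := by group
      rw [h4, h1]
      simp
    · have h3 : g⁻¹ * y * g * z = z * (g⁻¹ * y * g) := h2
      show y * (g * z * g⁻¹) = g * z * g⁻¹ * y
      calc y * (g * z * g⁻¹) = g * (g⁻¹ * y * g * z) * g⁻¹ := by group
        _ = g * (z * (g⁻¹ * y * g)) * g⁻¹ := by rw [h3]
        _ = g * z * g⁻¹ * y := by group

theorem BFrb_index (z : G) : (Subgroup.centralizer {z}).index =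
    Nat.card {x : G // ConjClasses.mk x = ConjClasses.mk z} := by
  have e : Subgroup.centralizer {z} = (MulAction.stabilizer (ConjAct G) z).comap
      (ConjAct.toConjAct : G ≃* ConjAct G).toMonoidHom := by
    ext g
    rw [Subgroup.mem_comap, MulAction.mem_stabilizer_iff, Subgroup.mem_centralizer_singleton_iff]
    show g * z = z * g ↔ ConjAct.toConjAct g • z = z
    rw [ConjAct.toConjAct_smul, mul_inv_eq_iff_eq_mul]
  rw [e, Subgroup.index_comap_of_surjective _ (ConjAct.toConjAct : G ≃* ConjAct G).surjective,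
    MulAction.index_stabilizer, ConjAct.orbit_eq_carrier_conjClasses, ← Nat.card_coe_set_eq]
  refine Nat.card_congr (Equiv.subtypeEquivRight fun x => ?_)
  exact ConjClasses.mem_carrier_iff_mk_eq

/-- Summation over conjugacy classes. -/
theorem BFrb_classes [Fintype G] (S : Finset G) (f : G → ℕ) (d : ℕ)
    (hS : ∀ g z, z ∈ S → g * z * g⁻¹ ∈ S) (hf : ∀ g z, f (g * z * g⁻¹) = f z)
    (h : ∀ z ∈ S, d ∣ (Subgroup.centralizer {z}).index * f z) : d ∣ ∑ z ∈ S, f z := by
  classical
  rw [← Finset.sum_fiberwise S (fun z => ConjClasses.mk z) f]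
  refine Finset.dvd_sum fun c _ => ?_
  rcases (S.filter fun z => ConjClasses.mk z = c).eq_empty_or_nonempty with he | ⟨z0, hz0⟩
  · rw [he]
    simp
  · rw [Finset.mem_filter] at hz0
    obtain ⟨hz0, rfl⟩ := hz0
    have hconj : ∀ x : G, ConjClasses.mk x = ConjClasses.mk z0 → ∃ g, g * z0 * g⁻¹ = x := by
      intro x hx
      have h1 : IsConj z0 x := ConjClasses.mk_eq_mk_iff_isConj.1 hx.symm
      exact isConj_iff.1 h1
    have hset : (S.filter fun z => ConjClasses.mk z = ConjClasses.mk z0) =
        univ.filter fun z => ConjClasses.mk z = ConjClasses.mk z0 := by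
      ext x
      simp only [Finset.mem_filter, Finset.mem_univ, true_and, and_iff_right_iff_imp]
      intro hx
      obtain ⟨g, rfl⟩ := hconj x hx
      exact hS g z0 hz0
    have hsum : ∑ z ∈ S.filter (fun z => ConjClasses.mk z = ConjClasses.mk z0), f z =
        (Subgroup.centralizer {z0}).index * f z0 := by
      rw [hset]
      have h2 : ∀ z ∈ univ.filter (fun z : G => ConjClasses.mk z = ConjClasses.mk z0),
          f z = f z0 := by
        intro z hz
        obtain ⟨g, rfl⟩ := hconj z (Finset.mem_filter.1 hz).2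
        exact hf g z0
      rw [Finset.sum_congr rfl h2, Finset.sum_const, smul_eq_mul, BFrb_index,
        Nat.card_eq_fintype_card, Fintype.card_subtype]
    rw [hsum]
    exact h z0 hz0

/-- The decomposition of the solutions. -/
theorem BFrb_split [Fintype G] {q s : ℕ} (h : Nat.Coprime q s) [DecidablePred fun z : G => z ^ s = 1] :
    Nat.card {g : G // g ^ (q * s) = 1} =
      ∑ z ∈ univ.filter (fun z : G => z ^ s = 1), BFrb_f G q z := by
  classical
  have hL : Nat.card {g : G // g ^ (q * s) = 1} =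
      (univ.filter fun g : G => g ^ (q * s) = 1).card := by
    rw [Nat.card_eq_fintype_card, Fintype.card_subtype]
  have hR : ∀ z : G, BFrb_f G q z = (univ.filter fun y : G => y ^ q = 1 ∧ Commute y z).card := by
    intro z
    unfold BFrb_f
    rw [Nat.card_eq_fintype_card, Fintype.card_subtype]
  rw [hL]
  simp only [hR]
  rw [← Finset.card_sigma]
  obtain ⟨e, he0, he1⟩ := Nat.chineseRemainder h 0 1
  obtain ⟨e', he0', he1'⟩ := Nat.chineseRemainder h 1 0
  have hqe : q ∣ e := (Nat.modEq_zero_iff_dvd).1 he0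
  have hse' : s ∣ e' := (Nat.modEq_zero_iff_dvd).1 he1'
  have hsum : e' + e ≡ 1 [MOD q * s] := by
    rw [← Nat.modEq_and_modEq_iff_modEq_mul h]
    exact ⟨he0'.add he0, he1'.add he1⟩
  have hy : ∀ y : G, y ^ q = 1 → y ^ e = 1 ∧ y ^ e' = y := by
    intro y hy
    refine ⟨?_, ?_⟩
    · have := pow_eq_pow_of_modEq he0 hy
      simpa using this
    · have := pow_eq_pow_of_modEq he0' hy
      simpa using this
  have hz : ∀ z : G, z ^ s = 1 → z ^ e = z ∧ z ^ e' = 1 := by
    intro z hz
    refine ⟨?_, ?_⟩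
    · have := pow_eq_pow_of_modEq he1 hz
      simpa using this
    · have := pow_eq_pow_of_modEq he1' hz
      simpa using this
  refine Finset.card_bij' (fun g _ => (⟨g ^ e, g ^ e'⟩ : Σ _ : G, G)) (fun p _ => p.2 * p.1)
    ?_ ?_ ?_ ?_
  · intro g hg
    have hg' : g ^ (q * s) = 1 := (Finset.mem_filter.1 hg).2
    rw [Finset.mem_sigma, Finset.mem_filter, Finset.mem_filter]
    refine ⟨⟨Finset.mem_univ _, ?_⟩, Finset.mem_univ _, ?_, ?_⟩
    · obtain ⟨k, hk⟩ := hqe
      show (g ^ e) ^ s = 1
      rw [← pow_mul, hk, show q * k * s = q * s * k by ring, pow_mul, hg', one_pow]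
    · obtain ⟨k, hk⟩ := hse'
      show (g ^ e') ^ q = 1
      rw [← pow_mul, hk, show s * k * q = q * s * k by ring, pow_mul, hg', one_pow]
    · exact Commute.pow_pow (Commute.refl g) e' e
  · rintro ⟨z, y⟩ hp
    rw [Finset.mem_sigma, Finset.mem_filter, Finset.mem_filter] at hp
    obtain ⟨⟨_, h1⟩, _, h2, h3⟩ := hp
    simp only at h1 h2 h3
    rw [Finset.mem_filter]
    refine ⟨Finset.mem_univ _, ?_⟩
    show (y * z) ^ (q * s) = 1
    rw [h3.mul_pow, pow_mul, h2, one_pow, mul_comm q s, pow_mul, h1, one_pow, one_mul]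
  · intro g hg
    have hg' : g ^ (q * s) = 1 := (Finset.mem_filter.1 hg).2
    show g ^ e' * g ^ e = g
    rw [← pow_add]
    have := pow_eq_pow_of_modEq hsum hg'
    simpa using this
  · rintro ⟨z, y⟩ hp
    rw [Finset.mem_sigma, Finset.mem_filter, Finset.mem_filter] at hp
    obtain ⟨⟨_, h1⟩, _, h2, h3⟩ := hp
    simp only at h1 h2 h3
    have e1 : (y * z) ^ e = z := by
      rw [h3.mul_pow, (hy y h2).1, (hz z h1).1, one_mul]
    have e2 : (y * z) ^ e' = y := by
      rw [h3.mul_pow, (hy y h2).2, (hz z h1).2, mul_one]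
    show (⟨(y * z) ^ e, (y * z) ^ e'⟩ : Σ _ : G, G) = ⟨z, y⟩
    rw [e1, e2]

/-- The number of the elements of a given order is a multiple of the value of the totient. -/
theorem BFrb_totient [Fintype G] (d : ℕ) [DecidablePred fun g : G => orderOf g = d] :
    d.totient ∣ (univ.filter fun g : G => orderOf g = d).card := by
  classical
  rw [Finset.card_eq_sum_card_fiberwise (f := fun g => Subgroup.zpowers g)
    (t := (univ.filter fun g : G => orderOf g = d).image fun g => Subgroup.zpowers g)
    (fun g hg => Finset.mem_coe.2 (Finset.mem_image_of_mem _ hg))]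
  refine Finset.dvd_sum fun C hC => ?_
  obtain ⟨g0, hg0, rfl⟩ := Finset.mem_image.1 hC
  have hd : orderOf g0 = d := (Finset.mem_filter.1 hg0).2
  have hcard : Fintype.card (Subgroup.zpowers g0) = d := by
    rw [← Nat.card_eq_fintype_card, Nat.card_zpowers, hd]
  have hcyc : (univ.filter fun x : Subgroup.zpowers g0 => orderOf x = d).card = d.totient :=
    IsCyclic.card_orderOf_eq_totient (by rw [hcard])
  rw [← hcyc]
  refine dvd_of_eq ?_
  refine Finset.card_bij (fun x _ => (x : G)) ?_ ?_ ?_
  · intro x hx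
    have hx' : orderOf x = d := (Finset.mem_filter.1 hx).2
    have hx2 : orderOf (x : G) = d := by rw [Subgroup.orderOf_coe, hx']
    rw [Finset.mem_filter, Finset.mem_filter]
    refine ⟨⟨Finset.mem_univ _, hx2⟩, ?_⟩
    refine Subgroup.eq_of_le_of_card_ge ?_ ?_
    · rw [Subgroup.zpowers_le]
      exact x.2
    · rw [Nat.card_zpowers, Nat.card_zpowers, hd, hx2]
  · intro x _ y _ hxy
    exact Subtype.ext hxy
  · intro g hg
    rw [Finset.mem_filter, Finset.mem_filter] at hg
    obtain ⟨⟨_, h1⟩, h2⟩ := hg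
    have hmem : g ∈ Subgroup.zpowers g0 := by
      rw [← h2]
      exact Subgroup.mem_zpowers g
    refine ⟨⟨g, hmem⟩, ?_, rfl⟩
    rw [Finset.mem_filter]
    refine ⟨Finset.mem_univ _, ?_⟩
    rw [← Subgroup.orderOf_coe]
    exact h1

/-- The number of the elements whose order has a given property which implies that it is a
multiple of `p ^ (a + 1)`. -/
theorem BFrb_order [Fintype G] {p a : ℕ} (hp : p.Prime) (P : ℕ → Prop)
    (hP : ∀ d, P d → p ^ (a + 1) ∣ d) [DecidablePred fun g : G => P (orderOf g)] :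
    p ^ a ∣ (univ.filter fun g : G => P (orderOf g)).card := by
  classical
  rw [Finset.card_eq_sum_card_fiberwise (f := fun g => orderOf g)
    (t := (univ.filter fun g : G => P (orderOf g)).image fun g => orderOf g)
    (fun g hg => Finset.mem_coe.2 (Finset.mem_image_of_mem _ hg))]
  refine Finset.dvd_sum fun d hd => ?_
  obtain ⟨g0, hg0, rfl⟩ := Finset.mem_image.1 hd
  have hP0 : P (orderOf g0) := (Finset.mem_filter.1 hg0).2
  have he : ((univ.filter fun g : G => P (orderOf g)).filter fun g => orderOf g = orderOf g0) =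
      univ.filter fun g : G => orderOf g = orderOf g0 := by
    ext g
    simp only [Finset.mem_filter, Finset.mem_univ, true_and, and_iff_right_iff_imp]
    intro hg
    rw [hg]
    exact hP0
  rw [he]
  have h1 : p ^ a ∣ (orderOf g0).totient := by
    have h2 : (p ^ (a + 1)).totient ∣ (orderOf g0).totient := Nat.totient_dvd_of_dvd (hP _ hP0)
    rw [Nat.totient_prime_pow_succ hp] at h2
    exact (Dvd.intro _ rfl).trans h2
  exact h1.trans (BFrb_totient _)

end

/-- Only the common divisor with the order of the group matters. -/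
theorem BFrb_gcd (G : Type) [Group G] [Finite G] (n : ℕ) :
    Nat.card {g : G // g ^ n = 1} = Nat.card {g : G // g ^ Nat.gcd n (Nat.card G) = 1} := by
  refine Nat.card_congr (Equiv.subtypeEquivRight fun g => ?_)
  rw [← orderOf_dvd_iff_pow_eq_one, ← orderOf_dvd_iff_pow_eq_one, Nat.dvd_gcd_iff]
  exact ⟨fun h => ⟨h, orderOf_dvd_natCard g⟩, fun h => h.1⟩

/-- The contribution of one class. -/
theorem BFrb_class {G : Type} [Group G] [Finite G] {p b : ℕ} (hp : p.Prime)
    (hb : p ^ b ∣ Nat.card G) (z : G)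
    (ih : ∀ a, p ^ a ∣ Nat.card (Subgroup.centralizer {z}) →
      p ^ a ∣ Nat.card {y : Subgroup.centralizer {z} // y ^ p ^ a = 1}) :
    p ^ b ∣ (Subgroup.centralizer {z}).index * BFrb_f G (p ^ b) z := by
  rw [BFrb_f_centralizer, BFrb_gcd]
  obtain ⟨c, hc, hce⟩ := (Nat.dvd_prime_pow hp).1
    (Nat.gcd_dvd_left (p ^ b) (Nat.card (Subgroup.centralizer {z})))
  have h1 : p ^ c ∣ Nat.card {y : Subgroup.centralizer {z} // y ^ p ^ c = 1} := by
    refine ih c ?_
    rw [← hce]
    exact Nat.gcd_dvd_right _ _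
  rw [hce]
  refine dvd_trans ?_ (Nat.mul_dvd_mul_left _ h1)
  rw [← hce, ← Nat.gcd_mul_left, Subgroup.index_mul_card]
  exact Nat.dvd_gcd (Dvd.intro_left _ rfl) hb

/-- Prime powers. -/
theorem BFrb_pow {p : ℕ} (hp : p.Prime) : ∀ (n : ℕ) (G : Type) [Group G] [Finite G],
    Nat.card G = n → ∀ a, p ^ a ∣ Nat.card G → p ^ a ∣ Nat.card {g : G // g ^ p ^ a = 1} := by
  intro n
  induction n using Nat.strong_induction_on with
  | _ n IH =>
  intro G _ _ hn a ha
  classical
  have : Fintype G := Fintype.ofFinite G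
  have hG0 : Nat.card G ≠ 0 := Nat.card_pos.ne'
  obtain ⟨v, s, hs, hG⟩ := Nat.exists_eq_pow_mul_and_not_dvd hG0 p hp.ne_one
  have hcop : Nat.Coprime (p ^ v) s := Nat.Coprime.pow_left v ((Nat.Prime.coprime_iff_not_dvd hp).2 hs)
  -- the full power
  have hfull : p ^ v ∣ Nat.card {g : G // g ^ p ^ v = 1} := by
    have h1 : Nat.card G = ∑ z ∈ univ.filter (fun z : G => z ^ s = 1), BFrb_f G (p ^ v) z := by
      rw [← BFrb_split hcop]
      refine (Nat.card_congr (Equiv.subtypeUnivEquiv fun g => ?_)).symm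
      rw [← hG]
      exact pow_card_eq_one'
    rw [← Finset.sum_filter_add_sum_filter_not (univ.filter fun z : G => z ^ s = 1)
      (fun z => z ∈ Subgroup.center G)] at h1
    have h2 : p ^ v ∣ ∑ z ∈ (univ.filter fun z : G => z ^ s = 1).filter
        (fun z => z ∉ Subgroup.center G), BFrb_f G (p ^ v) z := by
      refine BFrb_classes _ _ _ ?_ (fun g z => BFrb_f_conj _ g z) ?_
      · intro g z hz
        rw [Finset.mem_filter, Finset.mem_filter] at hz ⊢
        refine ⟨⟨Finset.mem_univ _, ?_⟩, ?_⟩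
        · rw [conj_pow, hz.1.2]
          simp
        · intro hc
          apply hz.2
          have h3 : g * (g * z * g⁻¹) = g * z * g⁻¹ * g := Subgroup.mem_center_iff.1 hc g
          have h4 : g * z * g⁻¹ = z := by
            have h5 : g * (g * z * g⁻¹) = g * z := by rw [h3]; group
            exact mul_left_cancel h5
          rwa [h4] at hc
      · intro z hz
        rw [Finset.mem_filter, Finset.mem_filter] at hz
        refine BFrb_class hp (by rw [hG]; exact Dvd.intro _ rfl) z ?_
        have hlt : Nat.card (Subgroup.centralizer {z}) < n := by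
          rw [← hn]
          refine lt_of_le_of_ne (Subgroup.card_le_card_group _) fun he => hz.2 ?_
          have htop : Subgroup.centralizer {z} = ⊤ := Subgroup.eq_top_of_card_eq _ he
          rw [Subgroup.mem_center_iff]
          intro g
          have hg : g ∈ Subgroup.centralizer {z} := by rw [htop]; exact Subgroup.mem_top g
          exact Subgroup.mem_centralizer_singleton_iff.1 hg
        exact fun a ha => IH _ hlt _ rfl a ha
    have h3 : ∑ z ∈ (univ.filter fun z : G => z ^ s = 1).filter
        (fun z => z ∈ Subgroup.center G), BFrb_f G (p ^ v) z =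
        ((univ.filter fun z : G => z ^ s = 1).filter (fun z => z ∈ Subgroup.center G)).card *
          Nat.card {g : G // g ^ p ^ v = 1} := by
      rw [← smul_eq_mul, ← Finset.sum_const]
      refine Finset.sum_congr rfl fun z hz => ?_
      have hzc := (Finset.mem_filter.1 hz).2
      unfold BFrb_f
      refine Nat.card_congr (Equiv.subtypeEquivRight fun y => ?_)
      exact ⟨fun h => h.1, fun h => ⟨h, Subgroup.mem_center_iff.1 hzc y⟩⟩
    have h4 : p ^ v ∣ ((univ.filter fun z : G => z ^ s = 1).filter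
        (fun z => z ∈ Subgroup.center G)).card * Nat.card {g : G // g ^ p ^ v = 1} := by
      rw [← h3]
      have h5 : p ^ v ∣ Nat.card G := by rw [hG]; exact Dvd.intro _ rfl
      rw [h1] at h5
      exact (Nat.dvd_add_iff_left h2).2 h5
    refine Nat.Coprime.dvd_of_dvd_mul_left ?_ h4
    refine Nat.Coprime.pow_left v ((Nat.Prime.coprime_iff_not_dvd hp).2 fun hdvd => ?_)
    -- the central solutions form a group
    let K : Subgroup G :=
      { carrier := {z | z ∈ Subgroup.center G ∧ z ^ s = 1}
        one_mem' := ⟨Subgroup.one_mem _, one_pow s⟩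
        mul_mem' := by
          rintro x y ⟨hx, hx1⟩ ⟨hy, hy1⟩
          refine ⟨Subgroup.mul_mem _ hx hy, ?_⟩
          have hc : Commute x y := Subgroup.mem_center_iff.1 hy x
          rw [hc.mul_pow, hx1, hy1, one_mul]
        inv_mem' := by
          rintro x ⟨hx, hx1⟩
          exact ⟨Subgroup.inv_mem _ hx, by rw [inv_pow, hx1, inv_one]⟩ }
    have hK : ((univ.filter fun z : G => z ^ s = 1).filter
        (fun z => z ∈ Subgroup.center G)).card = Nat.card K := by
      rw [Nat.card_eq_fintype_card, ← Finset.card_univ]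
      refine (Finset.card_bij (fun (x : K) _ => (x : G)) ?_ ?_ ?_).symm
      · intro x _
        rw [Finset.mem_filter, Finset.mem_filter]
        exact ⟨⟨Finset.mem_univ _, x.2.2⟩, x.2.1⟩
      · intro x _ y _ hxy
        exact Subtype.ext hxy
      · intro z hz
        rw [Finset.mem_filter, Finset.mem_filter] at hz
        exact ⟨⟨z, hz.2, hz.1.2⟩, Finset.mem_univ _, rfl⟩
    rw [hK] at hdvd
    have : Fact p.Prime := ⟨hp⟩
    obtain ⟨x, hx⟩ := exists_prime_orderOf_dvd_card' p hdvd
    have hx2 : x ^ s = 1 := Subtype.ext x.2.2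
    have hx3 : orderOf x ∣ s := orderOf_dvd_of_pow_eq_one hx2
    rw [hx] at hx3
    exact hs hx3
  -- smaller powers
  have hav : a ≤ v := by
    rw [hG] at ha
    have h1 : p ^ a ∣ p ^ v := by
      refine Nat.Coprime.dvd_of_dvd_mul_right ?_ ha
      exact Nat.Coprime.pow_left a ((Nat.Prime.coprime_iff_not_dvd hp).2 hs)
    exact (Nat.pow_dvd_pow_iff_le_right hp.one_lt).1 h1
  have hsplit : Nat.card {g : G // g ^ p ^ v = 1} = Nat.card {g : G // g ^ p ^ a = 1} +
      (univ.filter fun g : G => orderOf g ∣ p ^ v ∧ ¬ orderOf g ∣ p ^ a).card := by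
    rw [Nat.card_eq_fintype_card, Nat.card_eq_fintype_card, Fintype.card_subtype,
      Fintype.card_subtype, ← Finset.card_union_of_disjoint]
    · congr 1
      ext g
      simp only [Finset.mem_filter, Finset.mem_univ, true_and, Finset.mem_union,
        ← orderOf_dvd_iff_pow_eq_one]
      constructor
      · intro h
        by_cases h' : orderOf g ∣ p ^ a
        · exact Or.inl h'
        · exact Or.inr ⟨h, h'⟩
      · rintro (h | h)
        · exact h.trans (pow_dvd_pow p hav)
        · exact h.1
    · rw [Finset.disjoint_filter]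
      intro g _ h1 h2
      exact h2.2 (orderOf_dvd_of_pow_eq_one h1)
  have hrest : p ^ a ∣ (univ.filter fun g : G => orderOf g ∣ p ^ v ∧ ¬ orderOf g ∣ p ^ a).card := by
    refine BFrb_order hp (fun d => d ∣ p ^ v ∧ ¬ d ∣ p ^ a) ?_
    rintro d ⟨h1, h2⟩
    obtain ⟨j, _, rfl⟩ := (Nat.dvd_prime_pow hp).1 h1
    refine pow_dvd_pow p ?_
    by_contra hj
    exact h2 (pow_dvd_pow p (by omega))
  have h6 : p ^ a ∣ Nat.card {g : G // g ^ p ^ v = 1} := (pow_dvd_pow p hav).trans hfull
  rw [hsplit] at h6
  exact (Nat.dvd_add_iff_left hrest).2 h6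

theorem frobenius_count (G : Type) [Group G] [Finite G] (m : ℕ) (hm : m ∣ Nat.card G) :
    m ∣ Nat.card {g : G // g ^ m = 1} := by
  classical
  have : Fintype G := Fintype.ofFinite G
  have hm0 : m ≠ 0 := ne_zero_of_dvd_ne_zero Nat.card_pos.ne' hm
  rw [Nat.dvd_iff_prime_pow_dvd_dvd]
  intro p k hp hk
  obtain ⟨v, s, hs, hms⟩ := Nat.exists_eq_pow_mul_and_not_dvd hm0 p hp.ne_one
  have hkv : k ≤ v := by
    rw [hms] at hk
    have h1 : p ^ k ∣ p ^ v := by
      refine Nat.Coprime.dvd_of_dvd_mul_right ?_ hk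
      exact Nat.Coprime.pow_left k ((Nat.Prime.coprime_iff_not_dvd hp).2 hs)
    exact (Nat.pow_dvd_pow_iff_le_right hp.one_lt).1 h1
  refine (pow_dvd_pow p hkv).trans ?_
  have hcop : Nat.Coprime (p ^ v) s := Nat.Coprime.pow_left v ((Nat.Prime.coprime_iff_not_dvd hp).2 hs)
  rw [hms, BFrb_split hcop]
  refine BFrb_classes _ _ _ ?_ (fun g z => BFrb_f_conj _ g z) ?_
  · intro g z hz
    rw [Finset.mem_filter] at hz ⊢
    refine ⟨Finset.mem_univ _, ?_⟩
    rw [conj_pow, hz.2]
    simp
  · intro z _
    refine BFrb_class hp ?_ z fun a ha => BFrb_pow hp _ _ rfl a ha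
    exact (Dvd.intro _ hms.symm).trans hm

end Pool.MP_a7cd38_co.AT
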