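import Mathlib

/-!
`Γ` is a finite group acting on the finite nonempty set `C` such that every `y ≠ 1` fixes at most
one point.  For `c ∈ C` let `h_c` be the order of its stabilizer, `a_c = card Γ / h_c` the size of
its orbit.  The elements `y ≠ 1` with a fixed point are counted by their fixed point: there are
`sum over c of (h_c - 1)` of them (N1 below), fewer than `card Γ`.
`one_orbit`: choose `c0` with `h_{c0} > 1` if there is one, otherwise any `c0`; `h = h_{c0}`,
`a = a_{c0}`.  If `h_c > 1` for some `c` outside the orbit of `c0`, then `h > 1` and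
`N1 ≥ a (h - 1) + a_c (h_c - 1) = 2 card Γ - a - a_c ≥ card Γ`, contradiction.  So
`N1 = a (h - 1) = card Γ - a` and the number of the `y ≠ 1` without fixed points is
`card Γ - 1 - N1 = a - 1`.  If `y ≠ 1` fixes `c` then `h_c > 1`, so `c` is in the orbit of `c0`,
`h_c = h`, and the order of `y` divides `h_c` (y is in the stabilizer of `c`).
`all_fixed`: if every `y ≠ 1` has a fixed point (exactly one, then), Burnside's lemma
(`MulAction.sum_card_fixedBy_eq_card_orbits_mul_card_group`) gives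
`card C + (card Γ - 1) = (number of orbits) * card Γ`, so `card Γ` divides `card C - 1`.
`semireg`: if all the elements `y ≠ 1` have exactly `f` fixed points then, by Burnside again,
`card Γ` divides `card C + (card Γ - 1) * f`.
-/

namespace Pool.MP_a7cd38_co.AT

set_option linter.unusedSectionVars false

open MulAction Finset

theorem semireg {Γ C : Type} [Group Γ] [Finite Γ] [Finite C] [MulAction Γ C] (f : ℕ)
    (hf : ∀ y : Γ, y ≠ 1 → Nat.card {c : C // y • c = c} = f) :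
    Nat.card Γ ∣ Nat.card C + (Nat.card Γ - 1) * f := by
  classical
  have := Fintype.ofFinite Γ
  have := Fintype.ofFinite C
  have h := sum_card_fixedBy_eq_card_orbits_mul_card_group Γ C
  rw [← Finset.add_sum_erase _ _ (Finset.mem_univ (1 : Γ))] at h
  have h1 : Fintype.card (fixedBy C (1 : Γ)) = Nat.card C := by
    rw [Nat.card_eq_fintype_card]
    exact Fintype.card_congr (Equiv.subtypeUnivEquiv fun c => one_smul Γ c)
  have h2 : ∑ y ∈ Finset.univ.erase (1 : Γ), Fintype.card (fixedBy C y) =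
      (Nat.card Γ - 1) * f := by
    rw [Finset.sum_congr rfl (g := fun _ => f) (fun y hy => ?_), Finset.sum_const,
      Finset.card_erase_of_mem (Finset.mem_univ _), Finset.card_univ, smul_eq_mul,
      Nat.card_eq_fintype_card]
    rw [← hf y (Finset.ne_of_mem_erase hy), Nat.card_eq_fintype_card]
    rfl
  rw [h1, h2] at h
  rw [h, Nat.card_eq_fintype_card]
  exact dvd_mul_left _ _

theorem all_fixed {Γ C : Type} [Group Γ] [Finite Γ] [Finite C] [Nonempty C] [MulAction Γ C]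
    (P1 : ∀ y : Γ, y ≠ 1 → ∀ c c' : C, y • c = c → y • c' = c' → c = c')
    (hf : ∀ y : Γ, y ≠ 1 → ∃ c : C, y • c = c) :
    Nat.card Γ ∣ Nat.card C - 1 := by
  have h := semireg (Γ := Γ) (C := C) 1 fun y hy => by
    obtain ⟨c, hc⟩ := hf y hy
    have : Unique {c : C // y • c = c} := ⟨⟨⟨c, hc⟩⟩, fun c' => Subtype.ext (P1 y hy _ _ c'.2 hc)⟩
    exact Nat.card_unique
  have hC : 0 < Nat.card C := Nat.card_pos
  have hG : 0 < Nat.card Γ := Nat.card_pos
  have e : Nat.card C + (Nat.card Γ - 1) * 1 = (Nat.card C - 1) + Nat.card Γ := by omega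
  rw [e] at h
  exact (Nat.dvd_add_left (dvd_refl _)).1 h

section

variable {Γ C : Type} [Group Γ] [Fintype Γ] [Fintype C] [DecidableEq Γ] [DecidableEq C]
  [MulAction Γ C]

/-- the elements different from 1 which fix `c` -/
private def Orb_Fx (Γ : Type) {C : Type} [Group Γ] [Fintype Γ] [DecidableEq Γ] [DecidableEq C]
    [MulAction Γ C] (c : C) : Finset Γ := univ.filter (fun y : Γ => y ≠ 1 ∧ y • c = c)

private theorem Orb_card_Fx (c : C) : (Orb_Fx Γ c).card + 1 = Nat.card (stabilizer Γ c) := by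
  have h1 : Orb_Fx Γ c = (univ.filter (fun y : Γ => y • c = c)).erase 1 := by
    ext y
    simp [Orb_Fx]
  have h2 : (univ.filter (fun y : Γ => y • c = c)).card = Nat.card (stabilizer Γ c) := by
    rw [Nat.card_eq_fintype_card, Fintype.card_subtype]
    rfl
  have h3 : (1 : Γ) ∈ univ.filter (fun y : Γ => y • c = c) := by simp
  rw [h1, card_erase_of_mem h3, ← h2]
  have h4 : 0 < (univ.filter (fun y : Γ => y • c = c)).card := card_pos.2 ⟨1, h3⟩
  omega

/-- the orbit -/
private noncomputable def Orb_O (Γ : Type) {C : Type} [Group Γ] [Fintype C] [MulAction Γ C]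
    (c : C) : Finset C := by
  classical exact univ.filter (fun c' : C => c' ∈ orbit Γ c)

private theorem Orb_mem_O {c c' : C} : c' ∈ Orb_O Γ c ↔ c' ∈ orbit Γ c := by
  simp [Orb_O]

private theorem Orb_mul (c : C) : (Orb_O Γ c).card * Nat.card (stabilizer Γ c) = Nat.card Γ := by
  rw [← Subgroup.index_mul_card (stabilizer Γ c), index_stabilizer]
  congr 1
  rw [← Set.ncard_coe_finset]
  congr 1
  ext c'
  simp [Orb_O]

private theorem Orb_eq {c c' : C} (h : c' ∈ orbit Γ c) : Orb_O Γ c' = Orb_O Γ c := by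
  ext d
  rw [Orb_mem_O, Orb_mem_O, orbit_eq_iff.2 h]

private theorem Orb_st {c c' : C} (h : c' ∈ orbit Γ c) :
    Nat.card (stabilizer Γ c') = Nat.card (stabilizer Γ c) := by
  have h1 := Orb_mul (Γ := Γ) c
  have h2 := Orb_mul (Γ := Γ) c'
  rw [Orb_eq h, ← h1] at h2
  refine Nat.eq_of_mul_eq_mul_left ?_ h2
  exact card_pos.2 ⟨c, Orb_mem_O.2 (mem_orbit_self c)⟩

private theorem Orb_disj (P1 : ∀ y : Γ, y ≠ 1 → ∀ c c' : C, y • c = c → y • c' = c' → c = c')
    {c c' : C} (h : c ≠ c') : Disjoint (Orb_Fx Γ c) (Orb_Fx Γ c') := by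
  rw [disjoint_left]
  intro y hy hy'
  simp only [Orb_Fx, mem_filter, mem_univ, true_and] at hy hy'
  exact h (P1 y hy.1 _ _ hy.2 hy'.2)

private theorem Orb_X (P1 : ∀ y : Γ, y ≠ 1 → ∀ c c' : C, y • c = c → y • c' = c' → c = c')
    (c : C) : ((Orb_O Γ c).biUnion (Orb_Fx Γ)).card + (Orb_O Γ c).card = Nat.card Γ := by
  rw [card_biUnion fun x _ y _ h => Orb_disj P1 h, ← Orb_mul c]
  have h1 : ∑ u ∈ Orb_O Γ c, (Orb_Fx Γ u).card + (Orb_O Γ c).card =
      ∑ u ∈ Orb_O Γ c, ((Orb_Fx Γ u).card + 1) := by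
    rw [sum_add_distrib, sum_const, smul_eq_mul, mul_one]
  rw [h1, sum_congr rfl (g := fun _ => Nat.card (stabilizer Γ c)) fun u hu => ?_, sum_const,
    smul_eq_mul]
  rw [Orb_card_Fx, Orb_st (Orb_mem_O.1 hu)]

private theorem Orb_unique (P1 : ∀ y : Γ, y ≠ 1 → ∀ c c' : C, y • c = c → y • c' = c' → c = c')
    {c c' : C} (h : 1 < Nat.card (stabilizer Γ c)) (h' : 1 < Nat.card (stabilizer Γ c')) :
    c' ∈ orbit Γ c := by
  by_contra hn
  have h1 := Orb_X P1 c
  have h2 := Orb_X P1 c'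
  have h3 : Disjoint ((Orb_O Γ c).biUnion (Orb_Fx Γ)) ((Orb_O Γ c').biUnion (Orb_Fx Γ)) := by
    rw [disjoint_left]
    intro y hy hy'
    simp only [mem_biUnion, Orb_mem_O, Orb_Fx, mem_filter, mem_univ, true_and] at hy hy'
    obtain ⟨d, hd, hy1, hy2⟩ := hy
    obtain ⟨d', hd', -, hy4⟩ := hy'
    have e := P1 y hy1 _ _ hy2 hy4
    subst e
    apply hn
    rw [← orbit_eq_iff] at hd hd' ⊢
    rw [← hd', hd]
  have h4 : ((Orb_O Γ c).biUnion (Orb_Fx Γ)) ∪ ((Orb_O Γ c').biUnion (Orb_Fx Γ)) ⊆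
      univ.erase (1 : Γ) := by
    intro y hy
    simp only [mem_union, mem_biUnion, Orb_Fx, mem_filter, mem_univ, true_and] at hy
    rw [mem_erase]
    rcases hy with ⟨d, -, hy, -⟩ | ⟨d, -, hy, -⟩
    · exact ⟨hy, mem_univ _⟩
    · exact ⟨hy, mem_univ _⟩
  have h5 := card_le_card h4
  rw [card_union_of_disjoint h3, card_erase_of_mem (mem_univ _), card_univ,
    ← Nat.card_eq_fintype_card] at h5
  have h6 := Orb_mul (Γ := Γ) c
  have h7 := Orb_mul (Γ := Γ) c'
  have h8 : (Orb_O Γ c).card * 2 ≤ Nat.card Γ := by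
    rw [← h6]
    exact Nat.mul_le_mul_left _ h
  have h9 : (Orb_O Γ c').card * 2 ≤ Nat.card Γ := by
    rw [← h7]
    exact Nat.mul_le_mul_left _ h'
  have h10 : 0 < Nat.card Γ := Nat.card_pos
  omega

end

theorem one_orbit {Γ C : Type} [Group Γ] [Finite Γ] [Finite C] [Nonempty C] [MulAction Γ C]
    (P1 : ∀ y : Γ, y ≠ 1 → ∀ c c' : C, y • c = c → y • c' = c' → c = c') :
    ∃ a h : ℕ, 0 < a ∧ 0 < h ∧ a * h = Nat.card Γ ∧
      Nat.card {y : Γ // y ≠ 1 ∧ ∀ c : C, y • c ≠ c} = a - 1 ∧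
      ∀ y : Γ, y ≠ 1 → (∃ c : C, y • c = c) → orderOf y ∣ h := by
  classical
  have := Fintype.ofFinite Γ
  have := Fintype.ofFinite C
  obtain ⟨c0, hc0⟩ : ∃ c0 : C, ∀ c : C, 1 < Nat.card (stabilizer Γ c) → c ∈ orbit Γ c0 := by
    by_cases h : ∃ c0 : C, 1 < Nat.card (stabilizer Γ c0)
    · obtain ⟨c0, h0⟩ := h
      exact ⟨c0, fun c hc => Orb_unique P1 h0 hc⟩
    · exact ⟨Classical.arbitrary C, fun c hc => (h ⟨c, hc⟩).elim⟩
  have hfix : ∀ y : Γ, y ≠ 1 → ∀ c : C, y • c = c → c ∈ orbit Γ c0 := by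
    intro y hy c hc
    refine hc0 c ?_
    have h1 : y ∈ Orb_Fx Γ c := by simp [Orb_Fx, hy, hc]
    have h2 := card_pos.2 ⟨y, h1⟩
    rw [← Orb_card_Fx]
    omega
  refine ⟨(Orb_O Γ c0).card, Nat.card (stabilizer Γ c0),
    card_pos.2 ⟨c0, Orb_mem_O.2 (mem_orbit_self c0)⟩, Nat.card_pos, Orb_mul c0, ?_, ?_⟩
  · have h1 := Orb_X P1 c0
    rw [Nat.card_eq_fintype_card, Fintype.card_subtype]
    have h2 : (univ.filter (fun y : Γ => y ≠ 1 ∧ ∀ c : C, y • c ≠ c)) =
        (univ.erase (1 : Γ)) \ ((Orb_O Γ c0).biUnion (Orb_Fx Γ)) := by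
      ext y
      simp only [mem_filter, mem_univ, true_and, mem_sdiff, mem_erase, mem_biUnion, Orb_mem_O,
        Orb_Fx, and_true]
      constructor
      · rintro ⟨hy, hn⟩
        exact ⟨hy, fun ⟨c, _, _, h⟩ => hn c h⟩
      · rintro ⟨hy, hn⟩
        exact ⟨hy, fun c h => hn ⟨c, hfix y hy c h, hy, h⟩⟩
    have h3 : (Orb_O Γ c0).biUnion (Orb_Fx Γ) ⊆ univ.erase (1 : Γ) := by
      intro y hy
      simp only [mem_biUnion, Orb_Fx, mem_filter, mem_univ, true_and] at hy
      obtain ⟨d, -, hy, -⟩ := hy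
      exact mem_erase.2 ⟨hy, mem_univ _⟩
    rw [h2, card_sdiff_of_subset h3, card_erase_of_mem (mem_univ _), card_univ,
      ← Nat.card_eq_fintype_card]
    omega
  · rintro y hy ⟨c, hc⟩
    rw [← Orb_st (hfix y hy c hc)]
    exact Subgroup.orderOf_dvd_natCard (stabilizer Γ c) hc

end Pool.MP_a7cd38_co.AT
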