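import Mathlib

/-!
Burnside's lemma for actions in which every nontrivial element has at most one fixed point.
-/

namespace Pool.MP_a7cd38_co.AT

theorem burnside_gen {Γ C : Type} [Group Γ] [Finite Γ] [Finite C] [MulAction Γ C]
    (P1 : ∀ y : Γ, y ≠ 1 → ∀ c c' : C, y • c = c → y • c' = c' → c = c') :
    Nat.card Γ ∣ Nat.card C + Nat.card {y : Γ // y ≠ 1 ∧ ∃ c : C, y • c = c} := by
  classical
  have hfΓ := Fintype.ofFinite Γ
  have hfC := Fintype.ofFinite C
  have hB := MulAction.sum_card_fixedBy_eq_card_orbits_mul_card_group Γ C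
  have h1 : ∀ y : Γ, y ≠ 1 → Fintype.card (MulAction.fixedBy C y) =
      if ∃ c : C, y • c = c then 1 else 0 := by
    intro y hy
    split_ifs with h
    · obtain ⟨c, hc⟩ := h
      rw [Fintype.card_eq_one_iff]
      exact ⟨⟨c, hc⟩, fun d => Subtype.ext (P1 y hy d.1 c d.2 hc)⟩
    · rw [Fintype.card_eq_zero_iff]
      exact ⟨fun d => h ⟨d.1, d.2⟩⟩
  have h2 : Fintype.card (MulAction.fixedBy C (1 : Γ)) = Fintype.card C := by
    rw [Fintype.card_subtype]
    simp [MulAction.mem_fixedBy]
  rw [← Finset.add_sum_erase Finset.univ _ (Finset.mem_univ (1 : Γ)), h2,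
    Finset.sum_congr rfl (fun y hy => h1 y (Finset.ne_of_mem_erase hy)), Finset.sum_boole] at hB
  have h3 : Nat.card {y : Γ // y ≠ 1 ∧ ∃ c : C, y • c = c} =
      ((Finset.univ.erase (1 : Γ)).filter (fun y => ∃ c : C, y • c = c)).card := by
    rw [Nat.card_eq_fintype_card, Fintype.card_subtype]
    congr 1
    ext y
    simp
  rw [h3, Nat.card_eq_fintype_card, Nat.card_eq_fintype_card]
  rw [Nat.cast_id] at hB
  rw [hB]
  exact Dvd.intro_left _ rfl

theorem card_split {Γ C : Type} [Group Γ] [Finite Γ] [MulAction Γ C] :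
    Nat.card {y : Γ // y ≠ 1 ∧ ∃ c : C, y • c = c} +
      Nat.card {y : Γ // y ≠ 1 ∧ ∀ c : C, y • c ≠ c} + 1 = Nat.card Γ := by
  classical
  have hfΓ := Fintype.ofFinite Γ
  rw [Nat.card_eq_fintype_card, Nat.card_eq_fintype_card, Nat.card_eq_fintype_card,
    Fintype.card_subtype, Fintype.card_subtype]
  have h1 : (Finset.univ.filter (fun y : Γ => y ≠ 1 ∧ ∃ c : C, y • c = c)).card +
      (Finset.univ.filter (fun y : Γ => y ≠ 1 ∧ ∀ c : C, y • c ≠ c)).card =
      (Finset.univ.erase (1 : Γ)).card := by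
    rw [← Finset.card_union_of_disjoint]
    · congr 1
      ext y
      simp only [Finset.mem_union, Finset.mem_filter, Finset.mem_univ, true_and,
        Finset.mem_erase, and_true]
      constructor
      · rintro (h | h)
        · exact h.1
        · exact h.1
      · intro h
        by_cases hc : ∃ c : C, y • c = c
        · exact Or.inl ⟨h, hc⟩
        · exact Or.inr ⟨h, fun c hcc => hc ⟨c, hcc⟩⟩
    · rw [Finset.disjoint_filter]
      rintro y - ⟨-, c, hc⟩ ⟨-, h⟩
      exact h c hc
  rw [h1, Finset.card_erase_of_mem (Finset.mem_univ _), Finset.card_univ]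
  have : 0 < Fintype.card Γ := Fintype.card_pos
  omega

end Pool.MP_a7cd38_co.AT
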