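import Pool.Agent.H.MP_a7cd38_co.AT.BFrb
import Pool.Agent.H.MP_a7cd38_co.AT.OrbB
import Pool.Agent.H.MP_a7cd38_co.AT.Orb

/-!
# Module BKnd: an action in which every nontrivial element has at most one fixed point

Let `f` be the number of the nontrivial elements with a fixed point. Burnside
(`MulAction.sum_card_fixedBy_eq_card_orbits_mul_card_group`, see `OrbB`): `(number of orbits) *
card Γ = n + f`, `f ≤ card Γ - 1`. Two or more orbits: `card Γ ≤ n - 1`, done. One orbit: let `p` be
a point, `h` the order of its stabilizer `Γ_p`, so `card Γ = n * h`, and `h ∣ n - 1` by `all_fixed`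
(module Orb) for `Γ_p`. The elements with `g ^ n = 1` are `1` and the ones without fixed points
(the others have orders dividing `n - 1`), their number is `card Γ - f = n`.
Let `p` be a prime divisor of `n`, `n = P * m`, `P` a power of `p`, `p` not dividing `m`, chosen such
that `P * P < n` (two different primes dividing `n` give coprime `P`, `P'` with `P * P' ≤ n`; take
the smaller one). By `frobenius_count` (`m ∣ n ∣ card Γ`) the number of the `g` with `g ^ m = 1` is
`m * l`; they are among the `n` elements with `g ^ n = 1`, and an element of order `p` (Cauchy) is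
not among them, so `m * l < n = P * m` and `l < P`. `Γ_p` acts on `{g // g ^ m = 1 ∧ g ≠ 1}` by
conjugation, without fixed points for `y ≠ 1`: if `y` commutes with `g` then `g • p` is fixed by
`y`, so `g • p = p`, so `orderOf g ∣ n - 1` and `orderOf g ∣ m ∣ n`, `g = 1`. Hence (`semireg` of
module Orb with `f = 0`) `h ∣ m * l - 1`, and with `h ∣ P * m - 1`: `h ∣ m * (P - l)`, `h` is
coprime to `m`, so `h ∣ P - l`, `h < P`. So `card Γ = n * h` and `h * h < P * P < n`.
-/

namespace Pool.MP_a7cd38_co.AT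

/-- The choice of the prime. -/
private theorem BKnd_prime (n : ℕ) (hn : 2 ≤ n) (hpp : ¬ IsPrimePow n) :
    ∃ q P m : ℕ, q.Prime ∧ q ∣ n ∧ n = P * m ∧ ¬ q ∣ m ∧ P * P < n := by
  have hn0 : n ≠ 0 := by omega
  have hq1 : (n.minFac).Prime := Nat.minFac_prime (by omega)
  set q1 := n.minFac with hq1def
  have hq1n : q1 ∣ n := Nat.minFac_dvd n
  have hm1 : ordCompl[q1] n ≠ 1 := by
    intro h
    apply hpp
    rw [isPrimePow_nat_iff]
    refine ⟨q1, n.factorization q1, hq1, hq1.factorization_pos_of_dvd hn0 hq1n, ?_⟩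
    have := Nat.ordProj_mul_ordCompl_eq_self n q1
    rw [h, mul_one] at this
    exact this
  have hq2 : ((ordCompl[q1] n).minFac).Prime := Nat.minFac_prime hm1
  set q2 := (ordCompl[q1] n).minFac with hq2def
  have hq2m : q2 ∣ ordCompl[q1] n := Nat.minFac_dvd _
  have hq2n : q2 ∣ n := hq2m.trans (Nat.ordCompl_dvd n q1)
  have hne : q1 ≠ q2 := by
    intro h
    exact Nat.not_dvd_ordCompl hq1 hn0 (h ▸ hq2m)
  have hcop : Nat.Coprime (ordProj[q1] n) (ordProj[q2] n) :=
    ((Nat.coprime_primes hq1 hq2).2 hne).pow _ _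
  have hle : ordProj[q1] n * ordProj[q2] n ≤ n :=
    Nat.le_of_dvd (by omega)
      (hcop.mul_dvd_of_dvd_of_dvd (Nat.ordProj_dvd n q1) (Nat.ordProj_dvd n q2))
  have h1 : 1 < ordProj[q1] n :=
    Nat.one_lt_pow (hq1.factorization_pos_of_dvd hn0 hq1n).ne' hq1.one_lt
  have h2 : 1 < ordProj[q2] n :=
    Nat.one_lt_pow (hq2.factorization_pos_of_dvd hn0 hq2n).ne' hq2.one_lt
  have hPne : ordProj[q1] n ≠ ordProj[q2] n := by
    intro h
    rw [h, Nat.coprime_self] at hcop
    omega
  rcases lt_or_gt_of_ne hPne with h | h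
  · refine ⟨q1, ordProj[q1] n, ordCompl[q1] n, hq1, hq1n,
      (Nat.ordProj_mul_ordCompl_eq_self n q1).symm, Nat.not_dvd_ordCompl hq1 hn0, ?_⟩
    nlinarith [h]
  · refine ⟨q2, ordProj[q2] n, ordCompl[q2] n, hq2, hq2n,
      (Nat.ordProj_mul_ordCompl_eq_self n q2).symm, Nat.not_dvd_ordCompl hq2 hn0, ?_⟩
    nlinarith [h]

/-- Burnside with the number of orbits. -/
private theorem BKnd_burnside {Γ C : Type} [Group Γ] [Finite Γ] [Finite C] [MulAction Γ C]
    (P1 : ∀ y : Γ, y ≠ 1 → ∀ c c' : C, y • c = c → y • c' = c' → c = c') :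
    Nat.card C + Nat.card {y : Γ // y ≠ 1 ∧ ∃ c : C, y • c = c} =
      Nat.card (Quotient (MulAction.orbitRel Γ C)) * Nat.card Γ := by
  classical
  have hfΓ := Fintype.ofFinite Γ
  have hfC := Fintype.ofFinite C
  have hB := MulAction.sum_card_fixedBy_eq_card_orbits_mul_card_group Γ C
  have h1 : ∀ y : Γ, y ≠ 1 → Fintype.card (MulAction.fixedBy C y) =
      if ∃ c : C, y • c = c then 1 else 0 := by
    intro y hy
    split_ifs with h
    · obtain ⟨c, hc⟩ := h
      rw [Fintype.card_eq_one_iff]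
      exact ⟨⟨c, hc⟩, fun d => Subtype.ext (P1 y hy d.1 c d.2 hc)⟩
    · rw [Fintype.card_eq_zero_iff]
      exact ⟨fun d => h ⟨d.1, d.2⟩⟩
  have h2 : Fintype.card (MulAction.fixedBy C (1 : Γ)) = Fintype.card C := by
    rw [Fintype.card_subtype]
    simp [MulAction.mem_fixedBy]
  rw [← Finset.add_sum_erase Finset.univ _ (Finset.mem_univ (1 : Γ)), h2,
    Finset.sum_congr rfl (fun y hy => h1 y (Finset.ne_of_mem_erase hy)), Finset.sum_boole] at hB
  have h3 : Nat.card {y : Γ // y ≠ 1 ∧ ∃ c : C, y • c = c} =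
      ((Finset.univ.erase (1 : Γ)).filter (fun y => ∃ c : C, y • c = c)).card := by
    rw [Nat.card_eq_fintype_card, Fintype.card_subtype]
    congr 1
    ext y
    simp
  rw [h3, Nat.card_eq_fintype_card, Nat.card_eq_fintype_card, Nat.card_eq_fintype_card]
  rw [Nat.cast_id] at hB
  exact hB

/-- The group `H` acts on the nontrivial solutions of `g ^ m = 1` by conjugation. -/
private def BKnd_act {Γ : Type} [Group Γ] (H : Subgroup Γ) (m : ℕ) :
    MulAction H {g : Γ // g ^ m = 1 ∧ g ≠ 1} where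
  smul y g := ⟨y.1 * g.1 * y.1⁻¹, by
    rw [conj_pow, g.2.1]
    simp, by
    intro h
    apply g.2.2
    have h1 : y.1 * g.1 = y.1 := by
      rw [mul_inv_eq_one] at h
      exact h
    simpa using h1⟩
  one_smul g := Subtype.ext (by
    change (1 : Γ) * g.1 * (1 : Γ)⁻¹ = g.1
    simp)
  mul_smul y z g := Subtype.ext (by
    change (y.1 * z.1) * g.1 * (y.1 * z.1)⁻¹ = y.1 * (z.1 * g.1 * z.1⁻¹) * y.1⁻¹
    group)

theorem kind_bound {Γ X : Type} [Group Γ] [Finite Γ] [Finite X] [MulAction Γ X] (n : ℕ)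
    (hn : 2 ≤ n) (hX : Nat.card X = n) (hpp : ¬ IsPrimePow n)
    (h1 : ∀ g : Γ, g ≠ 1 → ∀ p p' : X, g • p = p → g • p' = p' → p = p')
    (h2 : ∀ (g : Γ) (p : X), g • p = p → orderOf g ∣ n - 1)
    (h3 : ∀ g : Γ, (∀ p : X, g • p ≠ p) → orderOf g ∣ n) :
    ∃ m : ℕ, m * m < n ∧ Nat.card Γ ≤ n * m := by
  have hB := BKnd_burnside h1
  have hS := card_split (Γ := Γ) (C := X)
  rw [hX] at hB
  set f := Nat.card {y : Γ // y ≠ 1 ∧ ∃ c : X, y • c = c} with hf
  set u := Nat.card {y : Γ // y ≠ 1 ∧ ∀ c : X, y • c ≠ c} with hu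
  set G := Nat.card Γ with hG
  set o := Nat.card (Quotient (MulAction.orbitRel Γ X)) with ho
  rcases Nat.lt_or_ge 1 o with h | h
  · -- two or more orbits
    have h5 : 2 * G ≤ o * G := Nat.mul_le_mul_right _ h
    exact ⟨1, by omega, by omega⟩
  have ho1 : o = 1 := by
    rcases Nat.eq_zero_or_pos o with h0 | h0
    · rw [h0, zero_mul] at hB
      omega
    · omega
  rw [ho1, one_mul] at hB
  have hun : u + 1 = n := by omega
  -- transitivity
  have hsub : Subsingleton (Quotient (MulAction.orbitRel Γ X)) :=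
    (Nat.card_eq_one_iff_unique.1 ho1).1
  have hne : Nonempty X := by
    by_contra hcon
    rw [not_nonempty_iff] at hcon
    rw [Nat.card_of_isEmpty] at hX
    omega
  obtain ⟨p⟩ := hne
  have htr : MulAction.IsPretransitive Γ X :=
    (MulAction.pretransitive_iff_subsingleton_quotient Γ X).2 hsub
  have hidx : (MulAction.stabilizer Γ p).index = n := by
    rw [MulAction.index_stabilizer_of_transitive, hX]
  set H := MulAction.stabilizer Γ p with hH
  set h := Nat.card H with hh
  have hGn : n * h = G := by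
    rw [← hidx, hh, hG, Subgroup.index_mul_card]
  have hH1 : h ∣ n - 1 := by
    have : Nonempty X := ⟨p⟩
    have := all_fixed (Γ := H) (C := X) (fun y hy c c' hc hc' =>
      h1 y.1 (fun hy' => hy (Subtype.ext hy')) c c' hc hc') (fun y _ => ⟨p, y.2⟩)
    rwa [hX] at this
  -- an element of order dividing n and n - 1 is trivial
  have htriv : ∀ g : Γ, orderOf g ∣ n → orderOf g ∣ n - 1 → g = 1 := by
    intro g hg hg'
    have : orderOf g ∣ n - (n - 1) := Nat.dvd_sub hg hg'
    rw [show n - (n - 1) = 1 by omega, Nat.dvd_one] at this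
    exact orderOf_eq_one_iff.1 this
  have hcn : Nat.card {g : Γ // g ^ n = 1} = n := by
    classical
    have hfΓ := Fintype.ofFinite Γ
    rw [← hun, hu, Nat.card_eq_fintype_card, Nat.card_eq_fintype_card, Fintype.card_subtype,
      Fintype.card_subtype]
    have e : Finset.univ.filter (fun g : Γ => g ^ (u + 1) = 1) =
        insert 1 (Finset.univ.filter (fun y : Γ => y ≠ 1 ∧ ∀ c : X, y • c ≠ c)) := by
      ext g
      simp only [Finset.mem_filter, Finset.mem_univ, true_and, Finset.mem_insert]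
      rw [hun]
      constructor
      · intro hg
        by_cases hg1 : g = 1
        · exact Or.inl hg1
        · refine Or.inr ⟨hg1, fun c hc => hg1 ?_⟩
          exact htriv g (orderOf_dvd_of_pow_eq_one hg) (h2 g c hc)
      · rintro (hg | hg)
        · rw [hg, one_pow]
        · exact orderOf_dvd_iff_pow_eq_one.1 (h3 g hg.2)
    rw [hu, Nat.card_eq_fintype_card, Fintype.card_subtype] at e
    rw [e, Finset.card_insert_of_notMem (by simp)]
  obtain ⟨q, P, m, hq, hqn, hnPm, hqm, hPP⟩ := BKnd_prime n hn hpp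
  have hP0 : 0 < P := by
    rcases Nat.eq_zero_or_pos P with h0 | h0
    · rw [h0, zero_mul] at hnPm
      omega
    · exact h0
  have hm0 : 0 < m := by
    rcases Nat.eq_zero_or_pos m with h0 | h0
    · rw [h0, mul_zero] at hnPm
      omega
    · exact h0
  have hmn : m ∣ n := ⟨P, by rw [hnPm, mul_comm]⟩
  have hnG : n ∣ G := ⟨h, hGn.symm⟩
  obtain ⟨l, hl⟩ := frobenius_count Γ m (hmn.trans hnG)
  -- `l < P`
  have hlP : m * l < P * m := by
    rw [← hl, ← hnPm, ← hcn]
    classical
    have hfΓ := Fintype.ofFinite Γ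
    rw [Nat.card_eq_fintype_card, Nat.card_eq_fintype_card, Fintype.card_subtype,
      Fintype.card_subtype]
    apply Finset.card_lt_card
    rw [Finset.ssubset_iff_of_subset]
    · haveI : Fact q.Prime := ⟨hq⟩
      obtain ⟨g, hg⟩ := exists_prime_orderOf_dvd_card' (G := Γ) q (hqn.trans hnG)
      refine ⟨g, ?_, ?_⟩
      · simp only [Finset.mem_filter, Finset.mem_univ, true_and]
        exact orderOf_dvd_iff_pow_eq_one.1 (hg ▸ hqn)
      · simp only [Finset.mem_filter, Finset.mem_univ, true_and]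
        intro hgm
        exact hqm (hg ▸ orderOf_dvd_of_pow_eq_one hgm)
    · intro g hg
      simp only [Finset.mem_filter, Finset.mem_univ, true_and] at hg ⊢
      exact orderOf_dvd_iff_pow_eq_one.1 ((orderOf_dvd_of_pow_eq_one hg).trans hmn)
  have hl2 : l < P := by
    rw [mul_comm P m] at hlP
    exact Nat.lt_of_mul_lt_mul_left hlP
  have hml : 0 < m * l := by
    rw [← hl]
    have : Nonempty {g : Γ // g ^ m = 1} := ⟨⟨1, one_pow m⟩⟩
    exact Nat.card_pos
  have hl0 : 0 < l := Nat.pos_of_mul_pos_left hml |> fun _ => by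
    rcases Nat.eq_zero_or_pos l with h0 | h0
    · rw [h0, mul_zero] at hml
      omega
    · exact h0
  have hcS : Nat.card {g : Γ // g ^ m = 1 ∧ g ≠ 1} + 1 = m * l := by
    rw [← hl]
    classical
    have hfΓ := Fintype.ofFinite Γ
    rw [Nat.card_eq_fintype_card, Nat.card_eq_fintype_card, Fintype.card_subtype,
      Fintype.card_subtype]
    have e : Finset.univ.filter (fun g : Γ => g ^ m = 1) =
        insert 1 (Finset.univ.filter (fun g : Γ => g ^ m = 1 ∧ g ≠ 1)) := by
      ext g
      simp only [Finset.mem_filter, Finset.mem_univ, true_and, Finset.mem_insert]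
      constructor
      · intro hg
        by_cases hg1 : g = 1
        · exact Or.inl hg1
        · exact Or.inr ⟨hg, hg1⟩
      · rintro (hg | hg)
        · rw [hg, one_pow]
        · exact hg.1
    rw [e, Finset.card_insert_of_notMem (by simp)]
  have hdiv : h ∣ m * l - 1 := by
    letI := BKnd_act H m
    have hs := semireg (Γ := H) (C := {g : Γ // g ^ m = 1 ∧ g ≠ 1}) 0 (fun y hy => by
      have hE : IsEmpty {c : {g : Γ // g ^ m = 1 ∧ g ≠ 1} // y • c = c} := by
        refine ⟨fun c => ?_⟩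
        obtain ⟨⟨g, hg, hg1⟩, hc⟩ := c
        have hc' : y.1 * g * y.1⁻¹ = g := congrArg Subtype.val hc
        have hc2 : y.1 * g = g * y.1 := by
          rw [mul_inv_eq_iff_eq_mul] at hc'
          exact hc'
        have hyp : y.1 • p = p := y.2
        have h7 : y.1 • (g • p) = g • p := by
          rw [smul_smul, hc2, ← smul_smul, hyp]
        have h8 : g • p = p := h1 y.1 (fun hy' => hy (Subtype.ext hy')) _ _ h7 hyp
        exact hg1 (htriv g ((orderOf_dvd_of_pow_eq_one hg).trans hmn) (h2 g p h8))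
      exact Nat.card_of_isEmpty)
    rw [mul_zero, add_zero] at hs
    rw [← hcS, Nat.add_sub_cancel]
    exact hs
  have hnP : h ∣ P * m - 1 := by
    rw [← hnPm]
    exact hH1
  have hcop : Nat.Coprime h m := by
    have hd1 : Nat.gcd h m ∣ P * m - 1 := (Nat.gcd_dvd_left h m).trans hnP
    have hd2 : Nat.gcd h m ∣ P * m := (Nat.gcd_dvd_right h m).trans (dvd_mul_left m P)
    have hd3 := Nat.dvd_sub hd2 hd1
    rw [show P * m - (P * m - 1) = 1 by omega] at hd3
    exact Nat.dvd_one.1 hd3
  have hdP : h ∣ m * (P - l) := by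
    have hd := Nat.dvd_sub hnP hdiv
    have e : P * m - 1 - (m * l - 1) = m * (P - l) := by
      rw [Nat.mul_sub, mul_comm P m]
      omega
    rwa [e] at hd
  have hle : h ≤ P - l := Nat.le_of_dvd (by omega) (hcop.dvd_of_dvd_mul_left hdP)
  have hhP : h < P := by omega
  have h9 : h * h < n := lt_of_lt_of_le (Nat.mul_lt_mul'' hhP hhP) hPP.le
  exact ⟨h, h9, hGn.ge⟩

end Pool.MP_a7cd38_co.AT
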