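import Pool.Agent.H.MP_a7cd38_co.AT.BRw2

/-!
# Module BRw3: the bound if an autotopism of prime order fixes a row without fixing a column
-/

set_option linter.unusedSectionVars false

namespace Pool.MP_a7cd38_co.AT

theorem BRw3_cent {G : Type} [Group G] {x z : G} (h : IsConj x z) :
    Nat.card (Subgroup.centralizer {z}) = Nat.card (Subgroup.centralizer {x}) := by
  obtain ⟨g, hg⟩ := isConj_iff.mp h
  apply Nat.card_congr
  have h1 : ∀ c, c ∈ Subgroup.centralizer {z} → g⁻¹ * c * g ∈ Subgroup.centralizer {x} := by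
    intro c hc
    rw [Subgroup.mem_centralizer_singleton_iff] at hc ⊢
    rw [← hg] at hc
    calc g⁻¹ * c * g * x = g⁻¹ * (c * (g * x * g⁻¹)) * g := by group
      _ = g⁻¹ * (g * x * g⁻¹ * c) * g := by rw [hc]
      _ = x * (g⁻¹ * c * g) := by group
  have h2 : ∀ c, c ∈ Subgroup.centralizer {x} → g * c * g⁻¹ ∈ Subgroup.centralizer {z} := by
    intro c hc
    rw [Subgroup.mem_centralizer_singleton_iff] at hc ⊢
    rw [← hg]
    calc g * c * g⁻¹ * (g * x * g⁻¹) = g * (c * x) * g⁻¹ := by group
      _ = g * (x * c) * g⁻¹ := by rw [hc]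
      _ = g * x * g⁻¹ * (g * c * g⁻¹) := by group
  refine ⟨fun c => ⟨_, h1 c.1 c.2⟩, fun c => ⟨_, h2 c.1 c.2⟩, fun c => Subtype.ext ?_,
    fun c => Subtype.ext ?_⟩
  · change g * (g⁻¹ * c.1 * g) * g⁻¹ = c.1
    group
  · change g⁻¹ * (g * c.1 * g⁻¹) * g = c.1
    group

variable {G R C S : Type} [Group G] [MulAction G R] [MulAction G C] [MulAction G S] [Finite G]
  [Finite R] [Finite C] [Finite S] [Nontrivial C] {s : R → R → Equiv.Perm C} {M : R → C → S}
  {n q : ℕ} [Fact q.Prime]

theorem BRw3_conj {x g : G} {j : ℕ} (h : g * x * g⁻¹ = x ^ j) (i : ℕ) :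
    g ^ i * x * (g ^ i)⁻¹ = x ^ (j ^ i) := by
  induction i with
  | zero => simp
  | succ i ih =>
    have h4 : g ^ (i + 1) * x * (g ^ (i + 1))⁻¹ = g * (g ^ i * x * (g ^ i)⁻¹) * g⁻¹ := by
      rw [pow_succ']
      group
    rw [h4, ih, ← conj_pow, h, ← pow_mul]
    congr 1
    ring

/-- the normalizer of `⟨x⟩` is the centralizer -/
theorem AT3.norm (hA : AT3 G R C S s M n) (hB : Big G R n q) {x : G} (hx : orderOf x = q)
    {r : R} (hr : x • r = r) (hZ : Nat.card (Subgroup.centralizer {x}) = q ^ 2)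
    {g : G} {j : ℕ} (hg : g * x * g⁻¹ = x ^ j) : x ^ j = x := by
  have hq : q.Prime := Fact.out
  have hpow : ∀ {d : ℕ}, d.Prime → d ∣ orderOf g → d = q := by
    intro d hd hdg
    by_contra hne
    have : Fact d.Prime := ⟨hd⟩
    have ho : orderOf (g ^ (orderOf g / d)) = d := orderOf_pow_orderOf_div (orderOf_pos g).ne' hdg
    exact hA.key hB hx hr hZ hne ho (BRw3_conj hg _)
  have h1 := Nat.eq_prime_pow_of_unique_prime_dvd (orderOf_pos g).ne' hpow
  set i := (orderOf g).primeFactorsList.length with hi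
  have h2 := BRw3_conj hg (q ^ i)
  have h3 : g ^ (q ^ i) = 1 := by rw [← h1, pow_orderOf_eq_one]
  rw [h3, one_mul, inv_one, mul_one] at h2
  have h4 : j ^ q ^ i ≡ j [MOD q] := by
    rw [← ZMod.natCast_eq_natCast_iff]
    push_cast
    exact ZMod.pow_card_pow _
  have h5 : x ^ (j ^ q ^ i) = x ^ j := by
    rw [pow_eq_pow_iff_modEq, hx]
    exact h4
  rw [← h5, ← h2]

theorem AT3.row_case (hA : AT3 G R C S s M n) (hB : Big G R n q) {x : G} (hx : orderOf x = q)
    {r : R} (hr : x • r = r) : ∃ m : ℕ, m * m < n ∧ Nat.card G ≤ n * m := by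
  have hq : q.Prime := Fact.out
  obtain ⟨hqn, hfR, -, -⟩ := hA.row_type hB hx hr
  have hn := hB.pos
  have hconj : ∀ z : G, IsConj x z → orderOf z = q := by
    intro z hz
    obtain ⟨g, hg⟩ := isConj_iff.mp hz
    rw [← hg, ← hx]
    exact orderOf_injective (MulAut.conj g).toMonoidHom (MulAut.conj g).injective x
  have hfin : ∀ a : ℕ, Nat.card G * q ≤ n * (a * q) → a ≤ q →
      ∃ m : ℕ, m * m < n ∧ Nat.card G ≤ n * m := by
    intro a h1 h2
    have h3 : Nat.card G * q ≤ (n * a) * q := by
      rw [mul_assoc]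
      exact h1
    exact ⟨a, lt_of_le_of_lt (Nat.mul_le_mul h2 h2) hqn,
      Nat.le_of_mul_le_mul_right h3 hq.pos⟩
  rcases hA.card_cent hB hx hr with hZ | hZ
  · have h1 := class_count (R := R) x q (q - 1) hfR (fun t => by
      by_cases hne : Nonempty {z : G // IsConj x z ∧ z • t = t}
      · obtain ⟨z0, hz0, hz0t⟩ := hne
        have hsub : ∀ z : {z : G // IsConj x z ∧ z • t = t}, z.1 ∈ Subgroup.zpowers z0 ∧
            z.1 ≠ 1 := by
          intro z
          refine ⟨hA.uniq hB (hconj z0 hz0) (hconj z.1 z.2.1) hz0t z.2.2, ?_⟩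
          intro h
          have h2 := hconj z.1 z.2.1
          rw [h, orderOf_one] at h2
          exact hq.one_lt.ne h2
        have h2 : Nat.card {z : G // IsConj x z ∧ z • t = t} ≤
            Nat.card {w : Subgroup.zpowers z0 // w ≠ 1} := by
          refine Nat.card_le_card_of_injective
            (fun z => ⟨⟨z.1, (hsub z).1⟩, fun h => (hsub z).2 (congrArg Subtype.val h)⟩) ?_
          intro z z' h
          exact Subtype.ext (congrArg (fun u => u.1.1) h)
        refine h2.trans ?_
        classical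
        have := Fintype.ofFinite (Subgroup.zpowers z0)
        rw [Nat.card_eq_fintype_card, Fintype.card_subtype_compl, Fintype.card_subtype_eq,
          ← Nat.card_eq_fintype_card, Nat.card_zpowers, hconj z0 hz0]
      · have h2 : Nat.card {z : G // IsConj x z ∧ z • t = t} = 0 := by
          rw [Finite.card_eq_zero_iff]
          exact not_nonempty_iff.mp hne
        rw [h2]
        exact Nat.zero_le _)
    rw [hZ, hA.cR] at h1
    exact hfin (q - 1) h1 (Nat.sub_le _ _)
  · have h1 := class_count (R := R) x q 1 hfR (fun t => by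
      have : Subsingleton {z : G // IsConj x z ∧ z • t = t} := by
        constructor
        rintro ⟨z, hz, hzt⟩ ⟨z', hz', hz't⟩
        apply Subtype.ext
        change z = z'
        have h2 := hA.uniq hB (hconj z hz) (hconj z' hz') hzt hz't
        obtain ⟨j, hj⟩ := BAff_npow h2
        obtain ⟨g, hg⟩ := isConj_iff.mp (hz.symm.trans hz')
        have h3 : Nat.card (Subgroup.centralizer {z}) = q ^ 2 := by rw [BRw3_cent hz, hZ]
        have h4 := hA.norm hB (hconj z hz) hzt h3 (g := g) (j := j) (by rw [hg, hj])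
        rw [← hj, h4]
      exact Finite.card_le_one_iff_subsingleton.mpr this)
    rw [hZ, hA.cR, one_mul, sq] at h1
    exact hfin q h1 (le_refl q)

end Pool.MP_a7cd38_co.AT
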