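import Pool.Agent.H.MP_a7cd38_co.AT.Sq

namespace Pool.MP_a7cd38_co.AT

variable {n : ℕ}

/-- the square with the roles of rows and columns exchanged. -/
noncomputable def colSq (L : Fin n → Equiv.Perm (Fin n))
    (hcol : ∀ c : Fin n, Function.Injective (fun r : Fin n => L r c)) :
    Fin n → Equiv.Perm (Fin n) :=
  fun c => Equiv.ofBijective (fun r => L r c) (Finite.injective_iff_bijective.mp (hcol c))

theorem colSq_apply (L : Fin n → Equiv.Perm (Fin n))
    (hcol : ∀ c : Fin n, Function.Injective (fun r : Fin n => L r c)) (c r : Fin n) :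
    colSq L hcol c r = L r c := rfl

theorem symSq_inj (L : Fin n → Equiv.Perm (Fin n))
    (hcol : ∀ c : Fin n, Function.Injective (fun r : Fin n => L r c)) (s : Fin n) :
    Function.Injective (fun r : Fin n => (L r).symm s) := by
  intro r r' h
  have h1 : L r ((L r).symm s) = L r' ((L r).symm s) := by
    rw [Equiv.apply_symm_apply]
    have h2 : (L r).symm s = (L r').symm s := h
    rw [h2, Equiv.apply_symm_apply]
  exact hcol _ h1

/-- the square whose rows are the symbols, whose columns are the rows and whose symbols are the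
columns. -/
noncomputable def symSq (L : Fin n → Equiv.Perm (Fin n))
    (hcol : ∀ c : Fin n, Function.Injective (fun r : Fin n => L r c)) :
    Fin n → Equiv.Perm (Fin n) :=
  fun s => Equiv.ofBijective (fun r => (L r).symm s)
    (Finite.injective_iff_bijective.mp (symSq_inj L hcol s))

theorem symSq_apply (L : Fin n → Equiv.Perm (Fin n))
    (hcol : ∀ c : Fin n, Function.Injective (fun r : Fin n => L r c)) (s r : Fin n) :
    symSq L hcol s r = (L r).symm s := rfl

theorem isCyc_of_colSq (L : Fin n → Equiv.Perm (Fin n))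
    (hcol : ∀ c : Fin n, Function.Injective (fun r : Fin n => L r c))
    (h : IsCyc (colSq L hcol)) : IsCyc L := by
  obtain ⟨hp, α, β, γ, h⟩ := h
  refine ⟨hp, β, α, γ, fun r c => ?_⟩
  have h1 := h c r
  rw [colSq_apply] at h1
  rw [h1, add_comm]

theorem isCyc_of_symSq (L : Fin n → Equiv.Perm (Fin n))
    (hcol : ∀ c : Fin n, Function.Injective (fun r : Fin n => L r c))
    (h : IsCyc (symSq L hcol)) : IsCyc L := by
  obtain ⟨hp, α, β, γ, h⟩ := h
  -- `γ (column) = α (symbol) + β (row)`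
  refine ⟨hp, β.trans (Equiv.neg _), γ, α, fun r c => ?_⟩
  have h1 := h (L r c) r
  rw [symSq_apply, Equiv.symm_apply_apply] at h1
  rw [h1]
  simp

theorem mem_colSq (L : Fin n → Equiv.Perm (Fin n))
    (hcol : ∀ c : Fin n, Function.Injective (fun r : Fin n => L r c))
    (t : Equiv.Perm (Fin n) × Equiv.Perm (Fin n) × Equiv.Perm (Fin n)) :
    t ∈ Atp (colSq L hcol) ↔ (t.2.1, t.1, t.2.2) ∈ Atp L := by
  constructor
  · intro h r c
    exact h c r
  · intro h c r
    exact h r c

theorem mem_symSq (L : Fin n → Equiv.Perm (Fin n))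
    (hcol : ∀ c : Fin n, Function.Injective (fun r : Fin n => L r c))
    (t : Equiv.Perm (Fin n) × Equiv.Perm (Fin n) × Equiv.Perm (Fin n)) :
    t ∈ Atp (symSq L hcol) ↔ (t.2.1, t.2.2, t.1) ∈ Atp L := by
  constructor
  · intro h r c
    have h1 := h (L r c) r
    rw [symSq_apply, symSq_apply, Equiv.symm_apply_apply] at h1
    rw [Equiv.symm_apply_eq] at h1
    exact h1.symm
  · intro h s r
    rw [symSq_apply, symSq_apply, Equiv.symm_apply_eq]
    have h1 := h r ((L r).symm s)
    simp only [Equiv.apply_symm_apply] at h1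
    exact h1.symm

theorem card_colSq (L : Fin n → Equiv.Perm (Fin n))
    (hcol : ∀ c : Fin n, Function.Injective (fun r : Fin n => L r c)) (c : Fin n) :
    Nat.card {t : Equiv.Perm (Fin n) × Equiv.Perm (Fin n) × Equiv.Perm (Fin n) //
        t ∈ Atp (colSq L hcol) ∧ t.1 c = c} =
      Nat.card {t : Equiv.Perm (Fin n) × Equiv.Perm (Fin n) × Equiv.Perm (Fin n) //
        t ∈ Atp L ∧ t.2.1 c = c} := by
  apply Nat.card_congr
  exact
    { toFun := fun t => ⟨(t.1.2.1, t.1.1, t.1.2.2), (mem_colSq L hcol _).mp t.2.1, t.2.2⟩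
      invFun := fun t => ⟨(t.1.2.1, t.1.1, t.1.2.2), (mem_colSq L hcol _).mpr t.2.1, t.2.2⟩
      left_inv := fun t => rfl
      right_inv := fun t => rfl }

theorem card_symSq (L : Fin n → Equiv.Perm (Fin n))
    (hcol : ∀ c : Fin n, Function.Injective (fun r : Fin n => L r c)) (s : Fin n) :
    Nat.card {t : Equiv.Perm (Fin n) × Equiv.Perm (Fin n) × Equiv.Perm (Fin n) //
        t ∈ Atp (symSq L hcol) ∧ t.1 s = s} =
      Nat.card {t : Equiv.Perm (Fin n) × Equiv.Perm (Fin n) × Equiv.Perm (Fin n) //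
        t ∈ Atp L ∧ t.2.2 s = s} := by
  apply Nat.card_congr
  exact
    { toFun := fun t => ⟨(t.1.2.1, t.1.2.2, t.1.1), (mem_symSq L hcol _).mp t.2.1, t.2.2⟩
      invFun := fun t => ⟨(t.1.2.2, t.1.1, t.1.2.1), (mem_symSq L hcol _).mpr t.2.1, t.2.2⟩
      left_inv := fun t => rfl
      right_inv := fun t => rfl }

/-- the theorem for columns. -/
theorem col_main (hn : 2 ≤ n) (L : Fin n → Equiv.Perm (Fin n))
    (hcol : ∀ c : Fin n, Function.Injective (fun r : Fin n => L r c))
    (hc : ∀ c d : Fin n, c ≠ d → ∃ π : Equiv.Perm (Fin n),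
      (∀ r : Fin n, L (π r) d = L r c) ∧ π.IsCycle ∧ π.support.card = n)
    (hcyc : ¬ IsCyc L) (c : Fin n) :
    Adm n (Nat.card {t : Equiv.Perm (Fin n) × Equiv.Perm (Fin n) × Equiv.Perm (Fin n) //
        t ∈ Atp L ∧ t.2.1 c = c}) := by
  rw [← card_colSq L hcol]
  refine (row_main hn (colSq L hcol) ?_ (fun h => hcyc (isCyc_of_colSq L hcol h))).1 c
  intro i j hij
  obtain ⟨π, hπ, h1, h2⟩ := hc i j hij
  have h3 : (colSq L hcol j)⁻¹ * colSq L hcol i = π := by
    apply Equiv.ext
    intro r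
    rw [Equiv.Perm.mul_apply, Equiv.Perm.inv_eq_iff_eq, colSq_apply, colSq_apply, hπ]
  rw [h3]
  exact ⟨h1, h2⟩

/-- the theorem for symbols. -/
theorem sym_main (hn : 2 ≤ n) (L : Fin n → Equiv.Perm (Fin n))
    (hcol : ∀ c : Fin n, Function.Injective (fun r : Fin n => L r c))
    (hs : ∀ s t : Fin n, s ≠ t → ∃ π : Equiv.Perm (Fin n),
      (∀ r : Fin n, L (π r) ((L r).symm s) = t) ∧ π.IsCycle ∧ π.support.card = n)
    (hcyc : ¬ IsCyc L) (s : Fin n) :
    Adm n (Nat.card {t : Equiv.Perm (Fin n) × Equiv.Perm (Fin n) × Equiv.Perm (Fin n) //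
        t ∈ Atp L ∧ t.2.2 s = s}) := by
  rw [← card_symSq L hcol]
  refine (row_main hn (symSq L hcol) ?_ (fun h => hcyc (isCyc_of_symSq L hcol h))).1 s
  intro i j hij
  obtain ⟨π, hπ, h1, h2⟩ := hs i j hij
  have h3 : (symSq L hcol j)⁻¹ * symSq L hcol i = π := by
    apply Equiv.ext
    intro r
    rw [Equiv.Perm.mul_apply, Equiv.Perm.inv_eq_iff_eq, symSq_apply, symSq_apply,
      Equiv.eq_symm_apply, hπ]
  rw [h3]
  exact ⟨h1, h2⟩

end Pool.MP_a7cd38_co.AT
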