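import Pool.Agent.H.MP_a7cd38_co.AT.Cyc
import Pool.Agent.H.MP_a7cd38_co.AT.Main

/-!
Cycle structure of autotopisms.
-/

namespace Pool.MP_a7cd38_co.AT

/-- `f` has exactly `k` fixed points and all its other cycles have length `m`. -/
def Shape {n : ℕ} (f : Equiv.Perm (Fin n)) (k m : ℕ) : Prop :=
  Nat.card {i : Fin n // f i = i} = k ∧ ∀ i : Fin n, f i ≠ i → Function.minimalPeriod f i = m

section abs

variable {G R C : Type} [Group G] [MulAction G R] [MulAction G C] [Finite G] [Finite R] [Finite C]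
  [Nontrivial C] {s : R → R → Equiv.Perm C}

omit [Finite G] in
theorem period_eq {X : Type} [MulAction G X] (y : G) (t : X)
    (h : ∀ k : ℕ, y ^ k • t = t → y ^ k = 1) : MulAction.period y t = orderOf y := by
  apply Nat.dvd_antisymm
  · rw [← MulAction.pow_smul_eq_iff_period_dvd, pow_orderOf_eq_one, one_smul]
  · apply orderOf_dvd_of_pow_eq_one
    apply h
    rw [MulAction.pow_smul_eq_iff_period_dvd]

theorem exists_npow {y z : G} (hz : z ∈ Subgroup.zpowers y) : ∃ k : ℕ, y ^ k = z := by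
  rw [← mem_powers_iff_mem_zpowers] at hz
  exact hz

/-- the three possibilities for an autotopism, on rows and columns. -/
theorem RH.shape (hL : RH G R C s) (y : G) (hy : y ≠ 1) :
    (orderOf y ∣ Nat.card C - 1 ∧
      Nat.card {t : R // y • t = t} = 1 ∧ (∀ t : R, y • t ≠ t → MulAction.period y t = orderOf y) ∧
      Nat.card {c : C // y • c = c} = 1 ∧
      (∀ c : C, y • c ≠ c → MulAction.period y c = orderOf y)) ∨
    ((orderOf y).Prime ∧ orderOf y ∣ Nat.card C ∧
      (orderOf y * orderOf y ≤ Nat.card C ∨ orderOf y = Nat.card C) ∧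
      Nat.card {t : R // y • t = t} = orderOf y ∧
      (∀ t : R, y • t ≠ t → MulAction.period y t = orderOf y) ∧
      Nat.card {c : C // y • c = c} = 0 ∧
      (∀ c : C, y • c ≠ c → MulAction.period y c = orderOf y)) ∨
    (orderOf y ∣ Nat.card C ∧ Nat.card {t : R // y • t = t} = 0 ∧
      (∀ t : R, y • t ≠ t → MulAction.period y t = orderOf y)) := by
  by_cases hr : ∃ r : R, y • r = r
  · obtain ⟨r, hr⟩ := hr
    by_cases hc : ∃ c : C, y • c = c
    · -- one fixed row, one fixed column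
      left
      obtain ⟨c, hc⟩ := hc
      have hfr : ∀ z ∈ Subgroup.zpowers y, z • r = r := by
        intro z hz
        have : Subgroup.zpowers y ≤ MulAction.stabilizer G r := by
          rw [Subgroup.zpowers_le]
          exact hr
        exact this hz
      have hdvd : orderOf y ∣ Nat.card C - 1 := by
        have h0 : ∀ z : Subgroup.zpowers y, z ≠ 1 → Nat.card {t : R // z • t = t} = 1 := by
          intro z hz
          have hz1 : (z : G) ≠ 1 := fun h => hz (Subtype.ext h)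
          obtain ⟨k, hk⟩ := exists_npow z.2
          rw [Nat.card_eq_one_iff_unique]
          refine ⟨⟨fun a b => ?_⟩, ⟨⟨r, hfr z z.2⟩⟩⟩
          have h1 := (hL.type_one y hy r hr c hc k (by rw [hk]; exact hz1)).1
          apply Subtype.ext
          have ha : (z : G) • a.1 = a.1 := a.2
          have hb : (z : G) • b.1 = b.1 := b.2
          rw [← hk] at ha hb
          rw [h1 a.1 ha, h1 b.1 hb]
        have h1 := semireg (Γ := Subgroup.zpowers y) (C := R) 1 h0
        rw [mul_one, Nat.card_zpowers, hL.card] at h1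
        have h2 : 0 < orderOf y := orderOf_pos y
        have h3 : 1 < Nat.card C := Finite.one_lt_card
        have h4 : Nat.card C + (orderOf y - 1) = (Nat.card C - 1) + orderOf y := by omega
        rw [h4] at h1
        exact (Nat.dvd_add_left (dvd_refl _)).mp h1
      have h1 := hL.type_one y hy r hr c hc
      have h11 := h1 1 (by rw [pow_one]; exact hy)
      rw [pow_one] at h11
      refine ⟨hdvd, ?_, ?_, ?_, ?_⟩
      · rw [Nat.card_eq_one_iff_unique]
        exact ⟨⟨fun a b => Subtype.ext (by rw [h11.1 a.1 a.2, h11.1 b.1 b.2])⟩, ⟨⟨r, hr⟩⟩⟩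
      · intro t ht
        apply period_eq
        intro k hk
        by_contra hne
        apply ht
        rw [(h1 k hne).1 t hk, hr]
      · rw [Nat.card_eq_one_iff_unique]
        exact ⟨⟨fun a b => Subtype.ext (by rw [h11.2 a.1 a.2, h11.2 b.1 b.2])⟩, ⟨⟨c, hc⟩⟩⟩
      · intro t ht
        apply period_eq
        intro k hk
        by_contra hne
        apply ht
        rw [(h1 k hne).2 t hk, hc]
    · -- prime order
      right
      left
      obtain ⟨hp, hd⟩ := hL.order_of_free r y hr hy (fun c h => hc ⟨c, h⟩)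
      have hpf : Fact (orderOf y).Prime := ⟨hp⟩
      have hgen : ∀ k : ℕ, y ^ k ≠ 1 → y ∈ Subgroup.zpowers (y ^ k) := by
        intro k hk
        have hle : Subgroup.zpowers (y ^ k) ≤ Subgroup.zpowers y := by
          rw [Subgroup.zpowers_le]
          exact Subgroup.npow_mem_zpowers _ _
        have h1 : orderOf (y ^ k) = orderOf y := by
          have h2 := Subgroup.orderOf_dvd_natCard _ (hle (Subgroup.mem_zpowers _))
          rw [Nat.card_zpowers] at h2
          exact (Nat.Prime.eq_one_or_self_of_dvd hp _ h2).resolve_left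
            (fun h3 => hk (orderOf_eq_one_iff.mp h3))
        have h2 : Subgroup.zpowers (y ^ k) = Subgroup.zpowers y := by
          apply Subgroup.eq_of_le_of_card_ge hle
          rw [Nat.card_zpowers, Nat.card_zpowers, h1]
        rw [h2]
        exact Subgroup.mem_zpowers y
      have hper : ∀ (X : Type) [MulAction G X] (t : X), y • t ≠ t →
          MulAction.period y t = orderOf y := by
        intro X _ t ht
        apply period_eq
        intro k hk
        by_contra hne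
        apply ht
        have : Subgroup.zpowers (y ^ k) ≤ MulAction.stabilizer G t := by
          rw [Subgroup.zpowers_le]
          exact hk
        exact this (hgen k hne)
      refine ⟨hp, hd, hL.sq_le hd y rfl r hr, (hL.key hd y rfl r hr).1, hper R, ?_, hper C⟩
      rw [Finite.card_eq_zero_iff]
      exact ⟨fun c => hc ⟨c.1, c.2⟩⟩
  · right
    right
    have hfree : ∀ r : R, y • r ≠ r := fun r h => hr ⟨r, h⟩
    have h0 : ∀ z : Subgroup.zpowers y, z ≠ 1 → Nat.card {t : R // z • t = t} = 0 := by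
      intro z hz
      have hz1 : (z : G) ≠ 1 := fun h => hz (Subtype.ext h)
      obtain ⟨k, hk⟩ := exists_npow z.2
      rw [Finite.card_eq_zero_iff]
      constructor
      rintro ⟨t, ht⟩
      have ht' : (z : G) • t = t := ht
      rw [← hk] at ht' hz1
      exact hL.free_row y hfree k hz1 t ht'
    have h1 := semireg (Γ := Subgroup.zpowers y) (C := R) 0 h0
    rw [mul_zero, add_zero, Nat.card_zpowers, hL.card] at h1
    refine ⟨h1, ?_, ?_⟩
    · rw [Finite.card_eq_zero_iff]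
      exact ⟨fun t => hr ⟨t.1, t.2⟩⟩
    · intro t _
      apply period_eq
      intro k hk
      by_contra hne
      exact hL.free_row y hfree k hne t hk

end abs

section conc

variable {n : ℕ}

/-- the three possibilities, for a row-Hamiltonian square. -/
theorem row_shape (hn : 2 ≤ n) (L : Fin n → Equiv.Perm (Fin n))
    (hrow : ∀ i j : Fin n, i ≠ j →
      ((L j)⁻¹ * L i).IsCycle ∧ ((L j)⁻¹ * L i).support.card = n)
    (t : Equiv.Perm (Fin n) × Equiv.Perm (Fin n) × Equiv.Perm (Fin n)) (ht : t ∈ Atp L)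
    (h1 : t ≠ 1) (m : ℕ) (hm : m = orderOf t) :
    (m ∣ n - 1 ∧ Shape t.1 1 m ∧ Shape t.2.1 1 m ∧ Shape t.2.2 1 m) ∨
    (m.Prime ∧ m ∣ n ∧ (m * m ≤ n ∨ m = n) ∧ Shape t.1 m m ∧ Shape t.2.1 0 m ∧
      Shape t.2.2 0 m) ∨
    (m ∣ n ∧ Shape t.1 0 m) := by
  have hL := rh_rel hn L hrow
  have hnt := nontrivial_col hn
  have h := hL.shape (⟨t, ht⟩ : AtpG L) (fun h => h1 (congrArg Subtype.val h))
  have hord : orderOf (⟨t, ht⟩ : AtpG L) = m := by
    rw [hm, ← Subgroup.orderOf_coe]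
  rw [hord, card_col] at h
  -- conjugation of the symbols to the columns
  have hconj : ∀ r : Fin n, t.1 r = r → ∀ k : ℕ, Shape t.2.1 k m → Shape t.2.2 k m := by
    intro r hr k hk
    have h2 : ∀ c, t.2.2 (L r c) = L r (t.2.1 c) := by
      intro c
      rw [← ht r c, hr]
    constructor
    · rw [← hk.1]
      apply Nat.card_congr
      refine ((L r).subtypeEquiv fun c => ?_).symm
      rw [h2, (L r).injective.eq_iff]
    · intro i hi
      obtain ⟨c, rfl⟩ := (L r).surjective i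
      have h3 : t.2.1 c ≠ c := by
        intro h4
        apply hi
        rw [h2, h4]
      have h4 : Function.Semiconj (L r) t.2.1 t.2.2 := fun c => (h2 c).symm
      rw [← hk.2 c h3]
      apply Function.minimalPeriod_eq_minimalPeriod_iff.mpr
      intro N
      rw [Function.IsPeriodicPt, Function.IsFixedPt, Function.IsPeriodicPt, Function.IsFixedPt,
        ← (h4.iterate_right N).eq, (L r).injective.eq_iff]
  have hexr : ∀ k : ℕ, 0 < k → Nat.card {i : Fin n // t.1 i = i} = k → ∃ r, t.1 r = r := by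
    intro k hk h2
    have h3 : 0 < Nat.card {i : Fin n // t.1 i = i} := by omega
    obtain ⟨⟨r, hr⟩⟩ := (Nat.card_pos_iff.mp h3).1
    exact ⟨r, hr⟩
  rcases h with ⟨hd, hr1, hr2, hc1, hc2⟩ | ⟨hp, hd, hsq, hr1, hr2, hc1, hc2⟩ | ⟨hd, hr1, hr2⟩
  · left
    have hsr : Shape t.1 1 m := ⟨hr1, hr2⟩
    have hsc : Shape t.2.1 1 m := ⟨hc1, hc2⟩
    obtain ⟨r, hr⟩ := hexr 1 one_pos hr1
    exact ⟨hd, hsr, hsc, hconj r hr 1 hsc⟩
  · right
    left
    have hsr : Shape t.1 m m := ⟨hr1, hr2⟩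
    have hsc : Shape t.2.1 0 m := ⟨hc1, hc2⟩
    obtain ⟨r, hr⟩ := hexr m hp.pos hr1
    exact ⟨hp, hd, hsq, hsr, hsc, hconj r hr 0 hsc⟩
  · right
    right
    exact ⟨hd, hr1, hr2⟩

theorem orderOf_swap (t : Equiv.Perm (Fin n) × Equiv.Perm (Fin n) × Equiv.Perm (Fin n)) :
    orderOf (t.2.1, t.1, t.2.2) = orderOf t := by
  rw [Prod.orderOf, Prod.orderOf, Prod.orderOf, Prod.orderOf]
  simp only
  rw [← Nat.lcm_assoc, ← Nat.lcm_assoc, Nat.lcm_comm (orderOf t.2.1)]

theorem orderOf_rot (t : Equiv.Perm (Fin n) × Equiv.Perm (Fin n) × Equiv.Perm (Fin n)) :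
    orderOf (t.2.2, t.1, t.2.1) = orderOf t := by
  rw [Prod.orderOf, Prod.orderOf, Prod.orderOf, Prod.orderOf]
  simp only
  rw [Nat.lcm_comm, Nat.lcm_assoc]

/-- the cycle structures of the autotopisms of an atomic latin square. -/
theorem atomic_shape (hn : 2 ≤ n) (L : Fin n → Equiv.Perm (Fin n))
    (hlat : ∀ c : Fin n, Function.Injective (fun r : Fin n => L r c))
    (hrow : ∀ i j : Fin n, i ≠ j →
      ((L j)⁻¹ * L i).IsCycle ∧ ((L j)⁻¹ * L i).support.card = n)
    (hc : ∀ c d : Fin n, c ≠ d → ∃ π : Equiv.Perm (Fin n),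
      (∀ r : Fin n, L (π r) d = L r c) ∧ π.IsCycle ∧ π.support.card = n)
    (hs : ∀ s t : Fin n, s ≠ t → ∃ π : Equiv.Perm (Fin n),
      (∀ r : Fin n, L (π r) ((L r).symm s) = t) ∧ π.IsCycle ∧ π.support.card = n)
    (t : Equiv.Perm (Fin n) × Equiv.Perm (Fin n) × Equiv.Perm (Fin n)) (ht : t ∈ Atp L)
    (h1 : t ≠ 1) (m : ℕ) (hm : m = orderOf t) :
    (m ∣ n - 1 ∧ Shape t.1 1 m ∧ Shape t.2.1 1 m ∧ Shape t.2.2 1 m) ∨
    (m ∣ n ∧ Shape t.1 0 m ∧ Shape t.2.1 0 m ∧ Shape t.2.2 0 m) ∨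
    (m.Prime ∧ m ∣ n ∧ (m * m ≤ n ∨ m = n) ∧
      ((Shape t.1 m m ∧ Shape t.2.1 0 m ∧ Shape t.2.2 0 m) ∨
       (Shape t.1 0 m ∧ Shape t.2.1 m m ∧ Shape t.2.2 0 m) ∨
       (Shape t.1 0 m ∧ Shape t.2.1 0 m ∧ Shape t.2.2 m m))) := by
  have hrowc : ∀ i j : Fin n, i ≠ j → ((colSq L hlat j)⁻¹ * colSq L hlat i).IsCycle ∧
      ((colSq L hlat j)⁻¹ * colSq L hlat i).support.card = n := by
    intro i j hij
    obtain ⟨π, hπ, h1, h2⟩ := hc i j hij
    have h3 : (colSq L hlat j)⁻¹ * colSq L hlat i = π := by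
      apply Equiv.ext
      intro r
      rw [Equiv.Perm.mul_apply, Equiv.Perm.inv_eq_iff_eq, colSq_apply, colSq_apply, hπ]
    rw [h3]
    exact ⟨h1, h2⟩
  have hrows : ∀ i j : Fin n, i ≠ j → ((symSq L hlat j)⁻¹ * symSq L hlat i).IsCycle ∧
      ((symSq L hlat j)⁻¹ * symSq L hlat i).support.card = n := by
    intro i j hij
    obtain ⟨π, hπ, h1, h2⟩ := hs i j hij
    have h3 : (symSq L hlat j)⁻¹ * symSq L hlat i = π := by
      apply Equiv.ext
      intro r
      rw [Equiv.Perm.mul_apply, Equiv.Perm.inv_eq_iff_eq, symSq_apply, symSq_apply,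
        Equiv.eq_symm_apply, hπ]
    rw [h3]
    exact ⟨h1, h2⟩
  have hc1 : ((t.2.1, t.1, t.2.2) :
      Equiv.Perm (Fin n) × Equiv.Perm (Fin n) × Equiv.Perm (Fin n)) ≠ 1 := by
    intro h
    apply h1
    rw [← orderOf_eq_one_iff, ← orderOf_swap, h, orderOf_one]
  have hs1 : ((t.2.2, t.1, t.2.1) :
      Equiv.Perm (Fin n) × Equiv.Perm (Fin n) × Equiv.Perm (Fin n)) ≠ 1 := by
    intro h
    apply h1
    rw [← orderOf_eq_one_iff, ← orderOf_rot, h, orderOf_one]
  have key1 := row_shape hn L hrow t ht h1 m hm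
  have key2 := row_shape hn (colSq L hlat) hrowc (t.2.1, t.1, t.2.2)
    ((mem_colSq L hlat _).mpr ht) hc1 m (by rw [orderOf_swap, hm])
  have key3 := row_shape hn (symSq L hlat) hrows (t.2.2, t.1, t.2.1)
    ((mem_symSq L hlat _).mpr ht) hs1 m (by rw [orderOf_rot, hm])
  simp only at key2 key3
  rcases key1 with h | ⟨hp, hd, hq, ha, hb, hg⟩ | ⟨hd, ha⟩
  · exact Or.inl h
  · exact Or.inr (Or.inr ⟨hp, hd, hq, Or.inl ⟨ha, hb, hg⟩⟩)
  · rcases key2 with ⟨-, -, h2, -⟩ | ⟨hp, hd, hq, hb, -, hg⟩ | ⟨-, hb⟩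
    · exact absurd (ha.1.symm.trans h2.1) (by norm_num)
    · exact Or.inr (Or.inr ⟨hp, hd, hq, Or.inr (Or.inl ⟨ha, hb, hg⟩)⟩)
    · rcases key3 with ⟨-, -, h2, -⟩ | ⟨hp, hd, hq, hg, -, -⟩ | ⟨-, hg⟩
      · exact absurd (ha.1.symm.trans h2.1) (by norm_num)
      · exact Or.inr (Or.inr ⟨hp, hd, hq, Or.inr (Or.inr ⟨ha, hb, hg⟩)⟩)
      · exact Or.inr (Or.inl ⟨hd, ha, hb, hg⟩)

end conc

end Pool.MP_a7cd38_co.AT
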