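import Pool.Agent.H.MP_a7cd38_co.AT.BKnd
import Pool.Agent.H.MP_a7cd38_co.AT.BRw3
import Pool.Agent.H.MP_a7cd38_co.AT.CycM

/-!
# Module BMain: atomic latin squares have at most `n * m` autotopisms for an `m` with `m * m < n`
-/

namespace Pool.MP_a7cd38_co.AT

/-- the symbols, as a type of their own. -/
def SymT (n : ℕ) : Type := Fin n

/-- action on the symbols. -/
instance instSym {n : ℕ} (L : Fin n → Equiv.Perm (Fin n)) : MulAction (AtpG L) (SymT n) where
  smul t c := t.1.2.2 c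
  one_smul _ := rfl
  mul_smul _ _ _ := rfl

instance (n : ℕ) : Finite (SymT n) := inferInstanceAs (Finite (Fin n))

/-- the entries. -/
def entry {n : ℕ} (L : Fin n → Equiv.Perm (Fin n)) (r : RowT n) (c : ColT n) : SymT n :=
  (L r c : Fin n)

theorem at3_rel {n : ℕ} (hn : 2 ≤ n) (hpp : ¬ IsPrimePow n) (L : Fin n → Equiv.Perm (Fin n))
    (hlat : ∀ c : Fin n, Function.Injective (fun r : Fin n => L r c))
    (hrow : ∀ i j : Fin n, i ≠ j →
      ((L j)⁻¹ * L i).IsCycle ∧ ((L j)⁻¹ * L i).support.card = n)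
    (hc : ∀ c d : Fin n, c ≠ d → ∃ π : Equiv.Perm (Fin n),
      (∀ r : Fin n, L (π r) d = L r c) ∧ π.IsCycle ∧ π.support.card = n)
    (hs : ∀ s t : Fin n, s ≠ t → ∃ π : Equiv.Perm (Fin n),
      (∀ r : Fin n, L (π r) ((L r).symm s) = t) ∧ π.IsCycle ∧ π.support.card = n) :
    AT3 (AtpG L) (RowT n) (ColT n) (SymT n) (rel L) (entry L) n where
  rh := rh_rel hn L hrow
  cR := by
    show Nat.card (Fin n) = n
    simp
  cC := card_col n
  cS := by
    show Nat.card (Fin n) = n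
    simp
  eqv := fun g r c => g.2 r c
  inj := fun r c c' h => (L r).injective h
  cmp := fun r t c => perm_apply_inv (L r) (L t c)
  tri := by
    intro g hg
    have hg1 : g.1 ≠ 1 := fun h => hg (Subtype.ext h)
    have ho : orderOf g.1 = orderOf g := Subgroup.orderOf_coe g
    have hlt : ∀ m : ℕ, m.Prime → (m * m ≤ n ∨ m = n) → m * m < n := by
      intro m hm h
      rcases h with h | h
      · refine lt_of_le_of_ne h fun h1 => hpp ?_
        rw [← h1, ← sq]
        exact hm.isPrimePow.pow two_ne_zero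
      · exfalso
        apply hpp
        rw [← h]
        exact hm.isPrimePow
    rcases atomic_shape hn L hlat hrow hc hs g.1 g.2 hg1 (orderOf g) ho.symm with
      ⟨h, h1, h2, h3⟩ | ⟨h, h1, h2, h3⟩ | ⟨hp, hd, hq, h⟩
    · exact Or.inl ⟨h, h1.1, h2.1, h3.1⟩
    · exact Or.inr (Or.inl ⟨h, h1.1, h2.1, h3.1⟩)
    · refine Or.inr (Or.inr ⟨hp, hd, hlt _ hp hq, ?_⟩)
      rcases h with ⟨h1, h2, h3⟩ | ⟨h1, h2, h3⟩ | ⟨h1, h2, h3⟩
      · exact Or.inl ⟨h1.1, h2.1, h3.1⟩
      · exact Or.inr (Or.inl ⟨h1.1, h2.1, h3.1⟩)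
      · exact Or.inr (Or.inr ⟨h1.1, h2.1, h3.1⟩)

theorem AT3.bound {G R C S : Type} [Group G] [MulAction G R] [MulAction G C] [MulAction G S]
    [Finite G] [Finite R] [Finite C] [Finite S] [Nontrivial C] {s : R → R → Equiv.Perm C}
    {M : R → C → S} {n : ℕ} (hn : 2 ≤ n) (hpp : ¬ IsPrimePow n) (hA : AT3 G R C S s M n) :
    ∃ m : ℕ, m * m < n ∧ Nat.card G ≤ n * m := by
  classical
  by_cases hex : ∃ (z : G) (t : R), (orderOf z).Prime ∧ orderOf z ∣ n ∧ z • t = t
  · -- take one of the largest order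
    have hex' : ∃ (q : ℕ), (∃ (z : G) (t : R), orderOf z = q ∧ (orderOf z).Prime ∧
        orderOf z ∣ n ∧ z • t = t) ∧ ∀ (z : G) (t : R), (orderOf z).Prime → orderOf z ∣ n →
        z • t = t → orderOf z ≤ q := by
      let P : ℕ → Prop := fun q => ∃ (z : G) (t : R), orderOf z = q ∧ (orderOf z).Prime ∧
        orderOf z ∣ n ∧ z • t = t
      obtain ⟨z0, t0, h1, h2, h3⟩ := hex
      have hP0 : P (orderOf z0) := ⟨z0, t0, rfl, h1, h2, h3⟩
      have hle0 : orderOf z0 ≤ n := Nat.le_of_dvd (by omega) h2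
      refine ⟨Nat.findGreatest P n, Nat.findGreatest_spec hle0 hP0, ?_⟩
      intro z t k1 k2 k3
      exact Nat.le_findGreatest (Nat.le_of_dvd (by omega) k2) ⟨z, t, rfl, k1, k2, k3⟩
    obtain ⟨q, ⟨x, r, hx, hp, hd, hr⟩, hmax⟩ := hex'
    have : Fact q.Prime := ⟨by rw [← hx]; exact hp⟩
    have hB : Big G R n q := ⟨hn, by rw [← hx]; exact hd, hmax⟩
    exact hA.row_case hB hx hr
  · have hno : ∀ (z : G) (t : R), z • t = t → z ≠ 1 →
        orderOf z ∣ n - 1 ∧ fx R z = 1 := by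
      intro z t ht hz
      have hpos := fx_pos ht
      rcases hA.tri z hz with ⟨h, h1, -⟩ | ⟨-, h1, -⟩ | ⟨h1, h2, -⟩
      · exact ⟨h, h1⟩
      · omega
      · exact absurd ⟨z, t, h1, h2, ht⟩ hex
    refine kind_bound (X := R) n hn hA.cR hpp ?_ ?_ ?_
    · intro g hg p p' hp hp'
      have h1 := (hno g p hp hg).2
      have h2 : Subsingleton {p : R // g • p = p} := (Nat.card_eq_one_iff_unique.mp h1).1
      exact congrArg Subtype.val
        (Subsingleton.elim (⟨p, hp⟩ : {p : R // g • p = p}) ⟨p', hp'⟩)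
    · intro g p hp
      by_cases hg : g = 1
      · rw [hg, orderOf_one]
        exact one_dvd _
      · exact (hno g p hp hg).1
    · intro g hg
      by_cases hg1 : g = 1
      · rw [hg1, orderOf_one]
        exact one_dvd _
      · rcases hA.tri g hg1 with ⟨-, h1, -⟩ | ⟨h, -⟩ | ⟨-, h, -⟩
        · exfalso
          obtain ⟨p, hp⟩ := fx_ex (X := R) (g := g) (by omega)
          exact hg p hp
        · exact h
        · exact h

theorem atomic_bound {n : ℕ} (hn : 2 ≤ n) (hpp : ¬ IsPrimePow n)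
    (L : Fin n → Equiv.Perm (Fin n))
    (hlat : ∀ c : Fin n, Function.Injective (fun r : Fin n => L r c))
    (hrow : ∀ i j : Fin n, i ≠ j →
      ((L j)⁻¹ * L i).IsCycle ∧ ((L j)⁻¹ * L i).support.card = n)
    (hc : ∀ c d : Fin n, c ≠ d → ∃ π : Equiv.Perm (Fin n),
      (∀ r : Fin n, L (π r) d = L r c) ∧ π.IsCycle ∧ π.support.card = n)
    (hs : ∀ s t : Fin n, s ≠ t → ∃ π : Equiv.Perm (Fin n),
      (∀ r : Fin n, L (π r) ((L r).symm s) = t) ∧ π.IsCycle ∧ π.support.card = n) :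
    ∃ m : ℕ, m * m < n ∧ Nat.card (Atp L) ≤ n * m := by
  have hnt := nontrivial_col hn
  obtain ⟨m, h1, h2⟩ := (at3_rel hn hpp L hlat hrow hc hs).bound hn hpp
  exact ⟨m, h1, h2⟩

end Pool.MP_a7cd38_co.AT
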