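import Mathlib

/-!
# Module BOrb: an elementary abelian group of order `q ^ 2` and an element acting on it as a scalar

`Z` is elementary abelian of order `q ^ 2`, `y` (of prime order `l ≠ q`) acts on it by
`a ↦ a ^ k`, the group acts on `X`, every nontrivial element of `Z` with a fixed point has exactly
`q` fixed points, and `Z` fixes no point. `PZ` = the points fixed by a nontrivial element of `Z`.
For `p` in `PZ`, fixed by `u ≠ 1` in `Z`: the stabilizer of `p` in `Z` has order `q` (it is neither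
trivial nor `Z`), the orbit of `p` under `Z` has `q` elements (`PZ_orb`) and lies in the set of the
fixed points of `u` (`Z` is commutative), so it is equal to this set, which has `q` elements. `y`
maps this set to itself: `y` maps the fixed points of `u` to the ones of `y u y⁻¹ = u ^ k`, and
`u` is a power of `u ^ k` (`u ^ k ≠ 1`, prime order). As `q` is not divisible by `l`, the group of
order `l` (or `1`) generated by `y` has a fixed point in it (`PZ_fix`; `IsPGroup.card_modEq_card_fixedPoints`).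
`PZ_mod`: `Z` acts freely on the other points. `PZ_le`: `PZ` is the union of the orbits of the
fixed points of `y` in `PZ`. `PZ_one` is a consequence of these.
-/

namespace Pool.MP_a7cd38_co.AT

/-- the number of fixed points -/
noncomputable def fx (X : Type) {G : Type} [Group G] [MulAction G X] (g : G) : ℕ :=
  Nat.card {p : X // g • p = p}

/-- `y` acts on the elementary abelian group `Z` of order `q ^ 2` as a scalar. -/
structure Scl {G : Type} [Group G] (Z : Subgroup G) (q l k : ℕ) (y : G) : Prop where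
  card : Nat.card Z = q ^ 2
  comm : ∀ a ∈ Z, ∀ b ∈ Z, a * b = b * a
  expo : ∀ a ∈ Z, a ^ q = 1
  conj : ∀ a ∈ Z, y * a * y⁻¹ = a ^ k
  yl : y ^ l = 1
  ne : l ≠ q

/-- the points fixed by a nontrivial element of `Z` -/
def PZ {G : Type} [Group G] (Z : Subgroup G) (X : Type) [MulAction G X] : Set X :=
  {p | ∃ z ∈ Z, z ≠ 1 ∧ z • p = p}

/-- the hypotheses on the action of `Z` -/
structure Act {G : Type} [Group G] (Z : Subgroup G) (q : ℕ) (X : Type) [MulAction G X] : Prop where
  fix : ∀ z ∈ Z, z ≠ 1 → ∀ p : X, z • p = p → fx X z = q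
  nof : ∀ p : X, ∃ z ∈ Z, z • p ≠ p

variable {G : Type} [Group G] [Finite G] {Z : Subgroup G} {q l k : ℕ} [Fact q.Prime]
  [Fact l.Prime] {y : G} {X : Type} [Finite X] [MulAction G X]

omit [Finite G] [Fact q.Prime] [Finite X] in
theorem PZ_smul (hS : Scl Z q l k y) {p : X} (hp : p ∈ PZ Z X) {w : G} (hw : w ∈ Z) :
    w • p ∈ PZ Z X := by
  obtain ⟨z, hz, hz1, hzp⟩ := hp
  refine ⟨z, hz, hz1, ?_⟩
  rw [smul_smul, hS.comm z hz w hw, mul_smul, hzp]

theorem BOrb_orb {H Y : Type} [Group H] [Finite H] [MulAction H Y] (b : Y) :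
    Nat.card (MulAction.orbit H b) * Nat.card (MulAction.stabilizer H b) = Nat.card H := by
  rw [Nat.card_congr (MulAction.orbitEquivQuotientStabilizer H b),
    ← Subgroup.card_eq_card_quotient_mul_card_subgroup]

theorem BOrb_free {H Y : Type} [Group H] [Finite H] [MulAction H Y] [Finite Y]
    (h : ∀ (g : H) (b : Y), g • b = b → g = 1) : Nat.card H ∣ Nat.card Y := by
  classical
  haveI := Fintype.ofFinite (MulAction.orbitRel.Quotient H Y)
  rw [Nat.card_congr (MulAction.selfEquivSigmaOrbits H Y), Nat.card_sigma]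
  refine Finset.dvd_sum fun ω _ => ?_
  have h1 := BOrb_orb (H := H) (Quotient.out ω : Y)
  have h2 : MulAction.stabilizer H (Quotient.out ω : Y) = ⊥ := by
    rw [eq_bot_iff]
    intro g hg
    rw [Subgroup.mem_bot]
    exact h g _ hg
  rw [h2, Subgroup.card_bot, mul_one] at h1
  rw [h1]

theorem PZ_orb (hS : Scl Z q l k y) (hA : Act Z q X) {p : X} (hp : p ∈ PZ Z X) :
    Nat.card {p' : X // ∃ w ∈ Z, w • p = p'} = q := by
  have hq : q.Prime := Fact.out
  have h0 : {p' : X | ∃ w ∈ Z, w • p = p'} = MulAction.orbit Z p := by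
    ext p'
    constructor
    · rintro ⟨w, hw, rfl⟩
      exact ⟨⟨w, hw⟩, rfl⟩
    · rintro ⟨⟨w, hw⟩, rfl⟩
      exact ⟨w, hw, rfl⟩
  have h1 := BOrb_orb (H := Z) p
  change Nat.card {p' : X | ∃ w ∈ Z, w • p = p'} = q
  rw [h0]
  rw [hS.card] at h1
  have hd : Nat.card (MulAction.orbit Z p) ∣ q ^ 2 := Dvd.intro _ h1
  obtain ⟨j, hj, hj2⟩ := (Nat.dvd_prime_pow hq).1 hd
  have hj0 : j ≠ 0 := by
    rintro rfl
    rw [pow_zero] at hj2
    obtain ⟨z, hz, hzp⟩ := hA.nof p
    have h2 : Subsingleton (MulAction.orbit Z p) := (Nat.card_eq_one_iff_unique.1 hj2).1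
    have h3 := h2.elim ⟨z • p, ⟨⟨z, hz⟩, rfl⟩⟩ ⟨p, MulAction.mem_orbit_self p⟩
    exact hzp (congrArg Subtype.val h3)
  have hj3 : j ≠ 2 := by
    rintro rfl
    rw [hj2] at h1
    have h2 : Nat.card (MulAction.stabilizer Z p) = 1 := by
      have h3 : 0 < q ^ 2 := pow_pos hq.pos 2
      exact Nat.eq_of_mul_eq_mul_left h3 (by rw [h1, mul_one])
    obtain ⟨z, hz, hz1, hzp⟩ := hp
    have h3 : Subsingleton (MulAction.stabilizer Z p) := (Nat.card_eq_one_iff_unique.1 h2).1
    have h4 := h3.elim ⟨⟨z, hz⟩, hzp⟩ 1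
    have h5 := congrArg (fun t : MulAction.stabilizer Z p => ((t : Z) : G)) h4
    exact hz1 h5
  have hj4 : j = 1 := by omega
  rw [hj2, hj4, pow_one]

omit [Finite G] [Fact l.Prime] [Finite X] in
theorem BOrb_pow (hS : Scl Z q l k y) {u : G} (hu : u ∈ Z) (hu1 : u ≠ 1) :
    ∃ m, (u ^ k) ^ m = u := by
  have hq : q.Prime := Fact.out
  have h1 : orderOf u = q := orderOf_eq_prime (hS.expo u hu) hu1
  have h2 : u ^ k ≠ 1 := by
    intro h
    rw [← hS.conj u hu] at h
    apply hu1
    have h3 : y * u = y := by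
      have := congrArg (fun t => t * y) h
      simpa using this
    simpa using h3
  have h3 : ¬ q ∣ k := by
    intro h
    apply h2
    rw [← h1] at h
    exact orderOf_dvd_iff_pow_eq_one.1 h
  have h4 : (orderOf u).Coprime k := by
    rw [h1]
    exact (Nat.Prime.coprime_iff_not_dvd hq).2 h3
  obtain ⟨m, hm⟩ := exists_pow_eq_self_of_coprime h4.symm
  exact ⟨m, hm⟩

theorem PZ_fix (hS : Scl Z q l k y) (hA : Act Z q X) {p : X} (hp : p ∈ PZ Z X) :
    ∃ w ∈ Z, y • w • p = w • p := by
  classical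
  have hq : q.Prime := Fact.out
  have hl : l.Prime := Fact.out
  have ho := PZ_orb hS hA hp
  obtain ⟨u, hu, hu1, hup⟩ := hp
  have hf : fx X u = q := hA.fix u hu hu1 p hup
  have hsub : {p' : X | ∃ w ∈ Z, w • p = p'} ⊆ {p' : X | u • p' = p'} := by
    rintro p' ⟨w, hw, rfl⟩
    show u • w • p = w • p
    rw [smul_smul, hS.comm u hu w hw, mul_smul, hup]
  have heq : {p' : X | ∃ w ∈ Z, w • p = p'} = {p' : X | u • p' = p'} := by
    refine Set.eq_of_subset_of_ncard_le hsub ?_ (Set.toFinite _)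
    rw [← Nat.card_coe_set_eq, ← Nat.card_coe_set_eq]
    change Nat.card {p' : X // u • p' = p'} ≤ Nat.card {p' : X // ∃ w ∈ Z, w • p = p'}
    rw [ho]
    exact hf.le
  have hy : ∀ p' : X, u • p' = p' → u • y • p' = y • p' := by
    intro p' hp'
    obtain ⟨m, hm⟩ := BOrb_pow hS hu hu1
    have h1 : u ^ k • y • p' = y • p' := by
      rw [← hS.conj u hu, mul_smul, mul_smul, inv_smul_smul, hp']
    have h2 : ∀ n : ℕ, (u ^ k) ^ n • y • p' = y • p' := by
      intro n
      induction n with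
      | zero => rw [pow_zero, one_smul]
      | succ n ih => rw [pow_succ, mul_smul, h1, ih]
    have h3 := h2 m
    rwa [hm] at h3
  have hy' : ∀ (n : ℕ) (p' : X), u • p' = p' → u • y ^ n • p' = y ^ n • p' := by
    intro n
    induction n with
    | zero => intro p' h; rwa [pow_zero, one_smul]
    | succ n ih =>
      intro p' h
      rw [pow_succ, mul_smul]
      exact ih _ (hy p' h)
  have hyi : ∀ p' : X, u • p' = p' → u • y⁻¹ • p' = y⁻¹ • p' := by
    intro p' h
    have h1 : y⁻¹ = y ^ (l - 1) := by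
      rw [inv_eq_iff_mul_eq_one, ← pow_succ']
      have : l - 1 + 1 = l := Nat.sub_add_cancel hl.one_le
      rw [this, hS.yl]
    rw [h1]
    exact hy' _ p' h
  haveI := Fintype.ofFinite {p' : X // u • p' = p'}
  let σ : Equiv.Perm {p' : X // u • p' = p'} :=
    { toFun := fun a => ⟨y • a.1, hy a.1 a.2⟩
      invFun := fun a => ⟨y⁻¹ • a.1, hyi a.1 a.2⟩
      left_inv := fun a => Subtype.ext (inv_smul_smul y a.1)
      right_inv := fun a => Subtype.ext (smul_inv_smul y a.1) }
  have hσ : ∀ (n : ℕ) (a : {p' : X // u • p' = p'}), ((σ ^ n) a).1 = y ^ n • a.1 := by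
    intro n
    induction n with
    | zero => intro a; rw [pow_zero, pow_zero, one_smul]; rfl
    | succ n ih =>
      intro a
      rw [pow_succ, Equiv.Perm.mul_apply, ih, pow_succ, mul_smul]
      rfl
  have hσl : σ ^ l ^ 1 = 1 := by
    ext a
    rw [hσ, pow_one, hS.yl, one_smul]
    rfl
  have hcard : ¬ l ∣ Fintype.card {p' : X // u • p' = p'} := by
    rw [← Nat.card_eq_fintype_card]
    change ¬ l ∣ fx X u
    rw [hf]
    intro h
    exact hS.ne ((Nat.prime_dvd_prime_iff_eq hl hq).1 h)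
  obtain ⟨a, ha⟩ := Equiv.Perm.exists_fixed_point_of_prime hcard hσl
  have ha1 : y • a.1 = a.1 := congrArg Subtype.val ha
  have ha2 : a.1 ∈ {p' : X | ∃ w ∈ Z, w • p = p'} := by
    rw [heq]
    exact a.2
  obtain ⟨w, hw, hwp⟩ := ha2
  exact ⟨w, hw, by rw [hwp, ha1]⟩

theorem PZ_mod (hS : Scl Z q l k y) :
    q ^ 2 ∣ Nat.card {p : X // p ∉ PZ Z X} ∧
      Nat.card (PZ Z X) + Nat.card {p : X // p ∉ PZ Z X} = Nat.card X := by
  classical
  constructor
  · have hinv : ∀ (z : Z) (p : X), p ∉ PZ Z X → (z : G) • p ∉ PZ Z X := by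
      intro z p hp h
      apply hp
      have h1 := PZ_smul hS h (Z.inv_mem z.2)
      rwa [inv_smul_smul] at h1
    letI : MulAction Z {p : X // p ∉ PZ Z X} :=
      { smul := fun z p => ⟨(z : G) • p.1, hinv z p.1 p.2⟩
        one_smul := fun p => Subtype.ext (one_smul G p.1)
        mul_smul := fun a b p => Subtype.ext (mul_smul (a : G) (b : G) p.1) }
    rw [← hS.card]
    apply BOrb_free
    intro g b hgb
    by_contra hg
    apply b.2
    refine ⟨g, g.2, fun h => hg (Subtype.ext h), ?_⟩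
    exact congrArg Subtype.val hgb
  · have h := Nat.card_congr (Equiv.Set.sumCompl (PZ Z X))
    rw [Nat.card_sum] at h
    exact h

theorem PZ_le (hS : Scl Z q l k y) (hA : Act Z q X) : Nat.card (PZ Z X) ≤ q * fx X y := by
  classical
  haveI := Fintype.ofFinite X
  have hc : ∀ p : X, ∃ w : G, p ∈ PZ Z X → w ∈ Z ∧ y • w • p = w • p := by
    intro p
    by_cases hp : p ∈ PZ Z X
    · obtain ⟨w, hw, h⟩ := PZ_fix hS hA hp
      exact ⟨w, fun _ => ⟨hw, h⟩⟩
    · exact ⟨1, fun h => absurd h hp⟩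
  choose w hw using hc
  have h1 : Nat.card (PZ Z X) = ((Finset.univ : Finset X).filter fun p => p ∈ PZ Z X).card := by
    rw [Nat.card_eq_fintype_card, ← Set.toFinset_card]
    congr 1
    ext p
    simp
  have h2 : fx X y = ((Finset.univ : Finset X).filter fun p => y • p = p).card := by
    unfold fx
    rw [Nat.card_eq_fintype_card, Fintype.card_subtype]
  rw [h1, h2]
  refine Finset.card_le_mul_card_image_of_maps_to (f := fun p => w p • p) ?_ q ?_
  · intro p hp
    rw [Finset.mem_filter] at hp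
    exact Finset.mem_filter.2 ⟨Finset.mem_univ _, (hw p hp.2).2⟩
  · intro b _
    by_cases hb : b ∈ PZ Z X
    · have h3 := PZ_orb hS hA hb
      rw [← h3, Nat.card_eq_fintype_card, Fintype.card_subtype]
      apply Finset.card_le_card
      intro p hp
      rw [Finset.mem_filter, Finset.mem_filter] at hp
      refine Finset.mem_filter.2 ⟨Finset.mem_univ _, (w p)⁻¹, Z.inv_mem (hw p hp.1.2).1, ?_⟩
      rw [← hp.2, inv_smul_smul]
    · have h3 : (({p ∈ (Finset.univ : Finset X).filter fun p => p ∈ PZ Z X | w p • p = b})) = ∅ := by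
        rw [Finset.eq_empty_iff_forall_notMem]
        intro p hp
        rw [Finset.mem_filter, Finset.mem_filter] at hp
        apply hb
        rw [← hp.2]
        exact PZ_smul hS hp.1.2 (hw p hp.1.2).1
      rw [h3, Finset.card_empty]
      exact Nat.zero_le _

theorem PZ_one (hS : Scl Z q l k y) (hA : Act Z q X) (h1 : fx X y = 1) {p : X}
    (hp : p ∈ PZ Z X) : Nat.card (PZ Z X) = q ∧
      ∃ p0 ∈ PZ Z X, y • p0 = p0 ∧ ∀ p' ∈ PZ Z X, ∃ w ∈ Z, w • p0 = p' := by
  refine ⟨le_antisymm ?_ ?_, ?_⟩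
  · have h2 := PZ_le hS hA
    rwa [h1, mul_one] at h2
  · rw [← PZ_orb hS hA hp]
    refine Nat.card_mono (Set.toFinite (PZ Z X)) ?_
    rintro p' ⟨w, hw, rfl⟩
    exact PZ_smul hS hp hw
  · obtain ⟨w, hw, hwp⟩ := PZ_fix hS hA hp
    refine ⟨w • p, PZ_smul hS hp hw, hwp, ?_⟩
    intro p' hp'
    obtain ⟨w', hw', hwp'⟩ := PZ_fix hS hA hp'
    have h2 : Subsingleton {p : X // y • p = p} := (Nat.card_eq_one_iff_unique.1 h1).1
    have h3 := congrArg Subtype.val (h2.elim ⟨w • p, hwp⟩ ⟨w' • p', hwp'⟩)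
    refine ⟨w'⁻¹, Z.inv_mem hw', ?_⟩
    change w • p = w' • p' at h3
    rw [h3, inv_smul_smul]

end Pool.MP_a7cd38_co.AT
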