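import Pool.Agent.H.MP_a7cd38_co.AT.BSca
import Pool.Agent.H.MP_a7cd38_co.AT.BCnt

/-!
# Module BRw1: a largest prime order of an autotopism with a fixed row, the centralizer
-/

set_option linter.unusedSectionVars false

namespace Pool.MP_a7cd38_co.AT

/-- an atomic latin square of order `n`, not a prime power, with a group of autotopisms -/
structure AT3 (G R C S : Type) [Group G] [MulAction G R] [MulAction G C] [MulAction G S]
    (s : R → R → Equiv.Perm C) (M : R → C → S) (n : ℕ) : Prop where
  rh : RH G R C s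
  cR : Nat.card R = n
  cC : Nat.card C = n
  cS : Nat.card S = n
  eqv : ∀ (g : G) (r : R) (c : C), M (g • r) (g • c) = g • M r c
  inj : ∀ (r : R) (c c' : C), M r c = M r c' → c = c'
  cmp : ∀ (r t : R) (c : C), M r (s r t c) = M t c
  tri : ∀ g : G, g ≠ 1 →
    (orderOf g ∣ n - 1 ∧ fx R g = 1 ∧ fx C g = 1 ∧ fx S g = 1) ∨
    (orderOf g ∣ n ∧ fx R g = 0 ∧ fx C g = 0 ∧ fx S g = 0) ∨
    ((orderOf g).Prime ∧ orderOf g ∣ n ∧ orderOf g * orderOf g < n ∧
      ((fx R g = orderOf g ∧ fx C g = 0 ∧ fx S g = 0) ∨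
       (fx R g = 0 ∧ fx C g = orderOf g ∧ fx S g = 0) ∨
       (fx R g = 0 ∧ fx C g = 0 ∧ fx S g = orderOf g)))

/-- `q` is the largest prime order, dividing `n`, of an element with a fixed row. -/
structure Big (G R : Type) [Group G] [MulAction G R] (n q : ℕ) : Prop where
  pos : 2 ≤ n
  dvd : q ∣ n
  max : ∀ (z : G) (t : R), (orderOf z).Prime → orderOf z ∣ n → z • t = t → orderOf z ≤ q

theorem fx_pos {G X : Type} [Group G] [MulAction G X] [Finite X] {g : G} {p : X}
    (h : g • p = p) : 0 < fx X g := by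
  have : Nonempty {p : X // g • p = p} := ⟨⟨p, h⟩⟩
  exact Nat.card_pos

theorem fx_zero {G X : Type} [Group G] [MulAction G X] [Finite X] {g : G} (h : fx X g = 0)
    (p : X) : g • p ≠ p := by
  intro hp
  have := fx_pos hp
  omega

theorem fx_ex {G X : Type} [Group G] [MulAction G X] {g : G} (h : 0 < fx X g) :
    ∃ p : X, g • p = p := by
  obtain ⟨⟨p, hp⟩⟩ := (Nat.card_pos_iff.mp h).1
  exact ⟨p, hp⟩

theorem not_dvd_pred {n q : ℕ} [Fact q.Prime] (hn : 2 ≤ n) (h : q ∣ n) : ¬ q ∣ n - 1 := by
  intro h1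
  have h2 := Nat.dvd_sub h h1
  have h3 : n - (n - 1) = 1 := by omega
  rw [h3] at h2
  have h4 : q.Prime := Fact.out
  exact h4.one_lt.ne' (Nat.dvd_one.mp h2)

variable {G R C S : Type} [Group G] [MulAction G R] [MulAction G C] [MulAction G S] [Finite G]
  [Finite R] [Finite C] [Finite S] [Nontrivial C] {s : R → R → Equiv.Perm C} {M : R → C → S}
  {n q : ℕ} [Fact q.Prime]

/-- an element of order `q` with a fixed row -/
theorem AT3.row_type (hA : AT3 G R C S s M n) (hB : Big G R n q) {x : G} (hx : orderOf x = q)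
    {t : R} (ht : x • t = t) : q * q < n ∧ fx R x = q ∧ fx C x = 0 ∧ fx S x = 0 := by
  have hq : q.Prime := Fact.out
  have hx1 : x ≠ 1 := by
    rintro rfl
    rw [orderOf_one] at hx
    exact hq.one_lt.ne hx
  have hpos : 0 < fx R x := fx_pos ht
  rcases hA.tri x hx1 with ⟨h, -⟩ | ⟨-, h, -⟩ | ⟨-, -, h, ⟨h1, h2, h3⟩ | ⟨h1, -⟩ | ⟨h1, -⟩⟩
  · rw [hx] at h
    exact absurd h (not_dvd_pred hB.pos hB.dvd)
  · omega
  · rw [hx] at h h1
    exact ⟨h, h1, h2, h3⟩
  · omega
  · omega

/-- the stabilizer of a row fixed by an element of order `q` is small -/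
theorem AT3.stab_lt (hA : AT3 G R C S s M n) (hB : Big G R n q) {x : G} (hx : orderOf x = q)
    {t : R} (ht : x • t = t) : Nat.card (MulAction.stabilizer G t) < q * q := by
  have hq : q.Prime := Fact.out
  obtain ⟨hqn, -⟩ := hA.row_type hB hx ht
  have hqd : q ∣ Nat.card (MulAction.stabilizer G t) := by
    rw [← hx]
    exact Subgroup.orderOf_dvd_natCard _ ht
  rcases hA.rh.card_stabilizer t with ⟨x', hp, hc, -⟩ | h | ⟨p, e, hp, hd, hqq, hqe, he, -⟩
  · exfalso
    rw [hA.cC] at hc
    rw [hc] at hp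
    have h1 := (Nat.prime_dvd_prime_iff_eq hq hp).mp hB.dvd
    rw [h1] at hqn
    have := hB.pos
    nlinarith
  · exfalso
    rw [hA.cC] at h
    exact not_dvd_pred hB.pos hB.dvd (hqd.trans h)
  · have hpq : p = q := by
      by_contra hne
      rw [hqe] at hqd
      rcases (Nat.Prime.dvd_mul hq).mp hqd with h1 | h1
      · exact hne ((Nat.prime_dvd_prime_iff_eq hq hp).mp h1).symm
      · have h2 : q ∣ p - 1 := h1.trans he
        have h3 : q ≤ p - 1 := Nat.le_of_dvd (by have := hp.two_le; omega) h2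
        have : Fact p.Prime := ⟨hp⟩
        have h4 : p ∣ Nat.card (MulAction.stabilizer G t) := by
          rw [hqe]
          exact dvd_mul_right p e
        obtain ⟨z, hz⟩ := exists_prime_orderOf_dvd_card' p h4
        have hz' : orderOf (z : G) = p := by rw [Subgroup.orderOf_coe, hz]
        have h5 := hB.max (z : G) t (by rw [hz']; exact hp)
          (by rw [hz', ← hA.cC]; exact hd) z.2
        rw [hz'] at h5
        have := hp.two_le
        omega
    subst hpq
    rw [hqe]
    have h1 : e ≤ p - 1 := Nat.le_of_dvd (by have := hp.two_le; omega) he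
    have h2 := hp.two_le
    exact Nat.mul_lt_mul_of_pos_left (by omega) hp.pos

/-- only one subgroup of order `q` fixes a given row -/
theorem AT3.uniq (hA : AT3 G R C S s M n) (hB : Big G R n q) {x z : G} (hx : orderOf x = q)
    (hz : orderOf z = q) {t : R} (ht : x • t = t) (hzt : z • t = t) :
    z ∈ Subgroup.zpowers x := by
  have hq : q.Prime := Fact.out
  by_contra hnot
  have hxle : Subgroup.zpowers x ≤ MulAction.stabilizer G t := by
    rw [Subgroup.zpowers_le]
    exact ht
  have hzle : Subgroup.zpowers z ≤ MulAction.stabilizer G t := by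
    rw [Subgroup.zpowers_le]
    exact hzt
  have hdis : Disjoint (Subgroup.zpowers x) (Subgroup.zpowers z) := by
    rw [Subgroup.disjoint_def]
    intro w hw hw'
    by_contra hw1
    apply hnot
    have h1 : orderOf w = q := by
      have h2 := Subgroup.orderOf_dvd_natCard _ hw
      rw [Nat.card_zpowers, hx] at h2
      exact (Nat.Prime.eq_one_or_self_of_dvd hq _ h2).resolve_left
        (fun h3 => hw1 (orderOf_eq_one_iff.mp h3))
    have h2 : Subgroup.zpowers w = Subgroup.zpowers z := by
      apply Subgroup.eq_of_le_of_card_ge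
      · rw [Subgroup.zpowers_le]
        exact hw'
      · rw [Nat.card_zpowers, Nat.card_zpowers, h1, hz]
    have h3 : Subgroup.zpowers w ≤ Subgroup.zpowers x := by
      rw [Subgroup.zpowers_le]
      exact hw
    rw [h2] at h3
    exact h3 (Subgroup.mem_zpowers z)
  have hinj := Subgroup.mul_injective_of_disjoint hdis
  have h1 : Nat.card (Subgroup.zpowers x × Subgroup.zpowers z) ≤
      Nat.card (MulAction.stabilizer G t) := by
    refine Nat.card_le_card_of_injective
      (fun g : Subgroup.zpowers x × Subgroup.zpowers z =>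
        (⟨g.1 * g.2, Subgroup.mul_mem _ (hxle g.1.2) (hzle g.2.2)⟩ :
          MulAction.stabilizer G t)) ?_
    intro g g' h
    exact hinj (congrArg Subtype.val h)
  rw [Nat.card_prod, Nat.card_zpowers, Nat.card_zpowers, hx, hz] at h1
  have h2 := hA.stab_lt hB hx ht
  omega

/-- the potential on the centralizer -/
theorem AT3.tau (hA : AT3 G R C S s M n) (hB : Big G R n q) {x : G} (hx : orderOf x = q)
    {r : R} (hr : x • r = r) : ∃ τ : G → ZMod q,
      (∀ z ∈ Subgroup.centralizer {x}, ∀ z' ∈ Subgroup.centralizer {x},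
        τ (z * z') = τ z + τ z') ∧
      (∀ z ∈ Subgroup.centralizer {x}, τ z = 0 → z ∈ Subgroup.zpowers x) ∧
      (∀ z ∈ Subgroup.zpowers x, τ z = 0) ∧
      (∀ (y : G) (k : ℕ), y * x * y⁻¹ = x ^ k → y • r = r →
        ∀ z ∈ Subgroup.centralizer {x}, τ (y * z * y⁻¹) = k * τ z) := by
  have hqC : q ∣ Nat.card C := by rw [hA.cC]; exact hB.dvd
  obtain ⟨a, ha1, ha2⟩ := hA.rh.affine hqC x hx r hr
  have hmem : ∀ z, z ∈ Subgroup.centralizer {x} ↔ Commute x z := fun z =>
    Subgroup.mem_centralizer_singleton_iff.trans eq_comm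
  have hone : ∀ z, Commute x z → z * x * z⁻¹ = x ^ 1 := by
    intro z hz
    rw [pow_one, ← hz.eq, mul_inv_cancel_right]
  have hfix : ∀ z, Commute x z → x • z • r = z • r := fun z hz => BAff_fix (hone z hz) hr
  refine ⟨fun z => a (z • r) - a r, ?_, ?_, ?_, ?_⟩
  · intro z hz z' hz'
    rw [hmem] at hz hz'
    have h1 := ha2 z 1 (hone z hz) r (z' • r) hr (hfix z' hz')
    rw [Nat.cast_one, one_mul, ← mul_smul] at h1
    change a ((z * z') • r) - a r = (a (z • r) - a r) + (a (z' • r) - a r)
    rw [← h1]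
    ring
  · intro z hz h
    rw [hmem] at hz
    change a (z • r) - a r = 0 at h
    have h1 := ha1 _ _ (hfix z hz) hr (sub_eq_zero.mp h)
    exact hA.rh.cent hqC x hx r hr z h1 hz
  · intro z hz
    have h1 : z • r = r := by
      have : Subgroup.zpowers x ≤ MulAction.stabilizer G r := by
        rw [Subgroup.zpowers_le]
        exact hr
      exact this hz
    change a (z • r) - a r = 0
    rw [h1, sub_self]
  · intro y k hy hyr z hz
    rw [hmem] at hz
    have h1 := ha2 y k hy r (z • r) hr (hfix z hz)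
    rw [hyr] at h1
    change a ((y * z * y⁻¹) • r) - a r = k * (a (z • r) - a r)
    rw [← h1, mul_smul, mul_smul]
    have h2 : y⁻¹ • r = r := by rw [inv_smul_eq_iff, hyr]
    rw [h2]

/-- the order of the centralizer -/
theorem AT3.card_cent (hA : AT3 G R C S s M n) (hB : Big G R n q) {x : G} (hx : orderOf x = q)
    {r : R} (hr : x • r = r) :
    Nat.card (Subgroup.centralizer {x}) = q ∨ Nat.card (Subgroup.centralizer {x}) = q ^ 2 := by
  have hq : q.Prime := Fact.out
  obtain ⟨τ, h1, h2, h3, -⟩ := hA.tau hB hx hr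
  set Z : Subgroup G := Subgroup.centralizer {x} with hZ
  have hxle : Subgroup.zpowers x ≤ Z := by
    rw [Subgroup.zpowers_le, hZ, Subgroup.mem_centralizer_singleton_iff]
  let f : Z →* Multiplicative (ZMod q) :=
    { toFun := fun z => Multiplicative.ofAdd (τ z)
      map_one' := by
        change Multiplicative.ofAdd (τ ((1 : Z) : G)) = 1
        rw [Subgroup.coe_one, h3 1 (Subgroup.one_mem _)]
        rfl
      map_mul' := fun z z' => by
        change Multiplicative.ofAdd (τ ((z * z' : Z) : G)) = _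
        rw [Subgroup.coe_mul, h1 _ z.2 _ z'.2]
        rfl }
  have hker : Nat.card f.ker = q := by
    have hc : Nat.card (Subgroup.zpowers x) = q := by rw [Nat.card_zpowers, hx]
    refine Eq.trans (Nat.card_congr ?_) hc
    refine ⟨fun z => ⟨z.1.1, h2 _ z.1.2 ?_⟩, fun z => ⟨⟨z.1, hxle z.2⟩, ?_⟩, fun _ => rfl,
      fun _ => rfl⟩
    · have h4 := z.2
      rw [MonoidHom.mem_ker] at h4
      exact Multiplicative.ofAdd.injective h4
    · rw [MonoidHom.mem_ker]
      change Multiplicative.ofAdd (τ z.1) = 1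
      rw [h3 _ z.2]
      rfl
  have hcard := Subgroup.card_mul_index f.ker
  rw [hker, Subgroup.index_ker] at hcard
  have hdvd : Nat.card f.range ∣ q := by
    have h4 := Subgroup.card_subgroup_dvd_card f.range
    have h5 : Nat.card (Multiplicative (ZMod q)) = q := by
      rw [Nat.card_congr Multiplicative.toAdd, Nat.card_zmod]
    rwa [h5] at h4
  rcases (Nat.dvd_prime hq).mp hdvd with h | h
  · left
    rw [h, mul_one] at hcard
    exact hcard.symm
  · right
    rw [h] at hcard
    rw [sq]
    exact hcard.symm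

end Pool.MP_a7cd38_co.AT
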