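import Pool.Agent.H.MP_a7cd38_co.AT.BRw1

/-!
# Module BRw2: a centralizer of order `q ^ 2` is the whole normalizer

`x` of order `q` has a fixed row and a centralizer `Z` of order `q ^ 2`, `y` of prime order
`l ≠ q` normalizes `⟨x⟩`: contradiction.
-/

set_option linter.unusedSectionVars false

namespace Pool.MP_a7cd38_co.AT

section fix

variable {G X : Type} [Group G] [Finite X] [MulAction G X]

/-- an element of prime order `l` has a fixed point in an invariant set of order prime to `l`. -/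
theorem BRw2_fix {l : ℕ} [Fact l.Prime] {y : G} (hy : y ^ l = 1) (P : X → Prop)
    (hP : ∀ p, P p → P (y • p)) (hl : ¬ l ∣ Nat.card {p : X // P p}) :
    ∃ p, P p ∧ y • p = p := by
  classical
  have := Fintype.ofFinite X
  let f : Function.End {p : X // P p} := fun p => ⟨y • p.1, hP p.1 p.2⟩
  have hf : ∀ (k : ℕ) (p : {p : X // P p}), ((f ^ k) p).1 = y ^ k • p.1 := by
    intro k
    induction k with
    | zero =>
      intro p
      rw [pow_zero, pow_zero, one_smul]
      rfl
    | succ k ih =>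
      intro p
      rw [pow_succ', pow_succ', mul_smul]
      change (f ((f ^ k) p)).1 = _
      change y • ((f ^ k) p).1 = _
      rw [ih]
  have hf1 : f ^ l ^ 1 = 1 := by
    funext p
    apply Subtype.ext
    rw [pow_one, hf, hy, one_smul]
    rfl
  have h1 := Equiv.Perm.card_fixedPoints_modEq hf1
  by_contra hno
  apply hl
  rw [Nat.card_eq_fintype_card]
  have h2 : Fintype.card (Function.fixedPoints f) = 0 := by
    rw [Fintype.card_eq_zero_iff]
    constructor
    rintro ⟨p, hp⟩
    apply hno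
    exact ⟨p.1, p.2, congrArg Subtype.val hp⟩
  rw [h2] at h1
  exact (Nat.modEq_zero_iff_dvd).mp h1

end fix

variable {G R C S : Type} [Group G] [MulAction G R] [MulAction G C] [MulAction G S] [Finite G]
  [Finite R] [Finite C] [Finite S] [Nontrivial C] {s : R → R → Equiv.Perm C} {M : R → C → S}
  {n q : ℕ} [Fact q.Prime]

/-- the centralizer has exponent `q` -/
theorem AT3.expo (hA : AT3 G R C S s M n) (hB : Big G R n q) {x : G} (hx : orderOf x = q)
    {r : R} (hr : x • r = r) : ∀ z ∈ Subgroup.centralizer {x}, z ^ q = 1 := by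
  have hq : q.Prime := Fact.out
  have hqC : q ∣ Nat.card C := by rw [hA.cC]; exact hB.dvd
  intro z hz
  have hxz : Commute x z := (Subgroup.mem_centralizer_singleton_iff.mp hz).symm
  have h1 : z ^ q • r = r := hA.rh.pow_fix_row hqC x hx r hr z hxz
  have h2 : z ^ q ∈ Subgroup.zpowers x :=
    hA.rh.cent hqC x hx r hr (z ^ q) h1 (hxz.pow_right q)
  by_contra hne
  -- `z` has a fixed row
  have h3 : ∃ t : R, z • t = t := by
    by_contra hno
    exact hA.rh.free_row z (fun t ht => hno ⟨t, ht⟩) q hne r h1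
  obtain ⟨t, ht⟩ := h3
  have hoz : orderOf (z ^ q) = q := by
    have h4 := Subgroup.orderOf_dvd_natCard _ h2
    rw [Nat.card_zpowers, hx] at h4
    exact (Nat.Prime.eq_one_or_self_of_dvd hq _ h4).resolve_left
      (fun h5 => hne (orderOf_eq_one_iff.mp h5))
  have heq : Subgroup.zpowers (z ^ q) = Subgroup.zpowers x := by
    apply Subgroup.eq_of_le_of_card_ge
    · rw [Subgroup.zpowers_le]
      exact h2
    · rw [Nat.card_zpowers, Nat.card_zpowers, hoz, hx]
  have hxt : x • t = t := by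
    have h5 : Subgroup.zpowers z ≤ MulAction.stabilizer G t := by
      rw [Subgroup.zpowers_le]
      exact ht
    have h6 : x ∈ Subgroup.zpowers (z ^ q) := by
      rw [heq]
      exact Subgroup.mem_zpowers x
    have h7 : Subgroup.zpowers (z ^ q) ≤ Subgroup.zpowers z := by
      rw [Subgroup.zpowers_le]
      exact Subgroup.npow_mem_zpowers z q
    exact h5 (h7 h6)
  have h8 := hA.rh.cent hqC x hx t hxt z ht hxz
  apply hne
  have h9 := Subgroup.orderOf_dvd_natCard _ h8
  rw [Nat.card_zpowers, hx] at h9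
  exact orderOf_dvd_iff_pow_eq_one.mp h9

/-- the number of fixed points of an element of order `q` -/
theorem AT3.fx_eq (hA : AT3 G R C S s M n) (hB : Big G R n q) {z : G} (hz : z ^ q = 1)
    (hz1 : z ≠ 1) :
    (fx R z = 0 ∨ fx R z = q) ∧ (fx C z = 0 ∨ fx C z = q) ∧ (fx S z = 0 ∨ fx S z = q) ∧
      (fx R z = 0 ∨ fx C z = 0) := by
  have hq : q.Prime := Fact.out
  have ho : orderOf z = q := orderOf_eq_prime hz hz1
  rcases hA.tri z hz1 with ⟨h, -⟩ | ⟨-, h1, h2, h3⟩ | ⟨-, -, -, ⟨h1, h2, h3⟩ | ⟨h1, h2, h3⟩ |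
    ⟨h1, h2, h3⟩⟩
  · rw [ho] at h
    exact absurd h (not_dvd_pred hB.pos hB.dvd)
  · exact ⟨Or.inl h1, Or.inl h2, Or.inl h3, Or.inl h1⟩
  · rw [ho] at h1
    exact ⟨Or.inr h1, Or.inl h2, Or.inl h3, Or.inr h2⟩
  · rw [ho] at h2
    exact ⟨Or.inl h1, Or.inr h2, Or.inl h3, Or.inl h1⟩
  · rw [ho] at h3
    exact ⟨Or.inl h1, Or.inl h2, Or.inr h3, Or.inl h1⟩

/-- no element of prime order `l ≠ q` normalizes `⟨x⟩`. -/
theorem AT3.key (hA : AT3 G R C S s M n) (hB : Big G R n q) {x : G} (hx : orderOf x = q)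
    {r : R} (hr : x • r = r) (hZ : Nat.card (Subgroup.centralizer {x}) = q ^ 2)
    {l : ℕ} [Fact l.Prime] (hne : l ≠ q) {y : G} (hy : orderOf y = l) {k : ℕ}
    (hyx : y * x * y⁻¹ = x ^ k) : False := by
  have hq : q.Prime := Fact.out
  have hl : l.Prime := Fact.out
  have hyl : y ^ l = 1 := by rw [← hy, pow_orderOf_eq_one]
  have hy1 : y ≠ 1 := by
    rintro rfl
    rw [orderOf_one] at hy
    exact hl.one_lt.ne hy
  obtain ⟨hqn, hfR, hfC, hfS⟩ := hA.row_type hB hx hr
  have hlq : ¬ l ∣ q := fun h => hne ((Nat.prime_dvd_prime_iff_eq hl hq).mp h)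
  -- a row fixed by `x` and `y`
  obtain ⟨r0, hr0, hyr0⟩ : ∃ p : R, x • p = p ∧ y • p = p := by
    refine BRw2_fix hyl (fun p => x • p = p) (fun p hp => BAff_fix hyx hp) ?_
    change ¬ l ∣ fx R x
    rw [hfR]
    exact hlq
  set Z : Subgroup G := Subgroup.centralizer {x} with hZd
  have hexp := hA.expo hB hx hr
  obtain ⟨τ, h1, h2, -, h4⟩ := hA.tau hB hx hr0
  have hS : Scl Z q l k y :=
    scl_of hne hx hZ hexp hyx hyl τ h1 h2 (h4 y k hyx hyr0)
  have hxZ : x ∈ Z := by
    rw [hZd, Subgroup.mem_centralizer_singleton_iff]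
  have hx1 : x ≠ 1 := by
    rintro rfl
    rw [orderOf_one] at hx
    exact hq.one_lt.ne hx
  have hqC : q ∣ Nat.card C := by rw [hA.cC]; exact hB.dvd
  -- the three actions
  have hAR : Act Z q R := by
    constructor
    · intro z hz hz1 p hp
      have h5 := (hA.fx_eq hB (hexp z hz) hz1).1
      have h6 := fx_pos hp
      omega
    · intro p
      by_contra hno
      have hno' : ∀ z ∈ Z, z • p = p := by
        intro z hz
        by_contra h
        exact hno ⟨z, hz, h⟩
      have hxp := hno' x hxZ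
      have hle : Z ≤ Subgroup.zpowers x := by
        intro z hz
        exact hA.rh.cent hqC x hx p hxp z (hno' z hz)
          (Subgroup.mem_centralizer_singleton_iff.mp hz).symm
      have h5 := Subgroup.card_dvd_of_le hle
      rw [hZ, Nat.card_zpowers, hx] at h5
      have h6 := Nat.le_of_dvd hq.pos h5
      have h7 := hq.two_le
      nlinarith
  have hAC : Act Z q C := by
    constructor
    · intro z hz hz1 p hp
      have h5 := (hA.fx_eq hB (hexp z hz) hz1).2.1
      have h6 := fx_pos hp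
      omega
    · intro p
      exact ⟨x, hxZ, fx_zero hfC p⟩
  have hAS : Act Z q S := by
    constructor
    · intro z hz hz1 p hp
      have h5 := (hA.fx_eq hB (hexp z hz) hz1).2.2.1
      have h6 := fx_pos hp
      omega
    · intro p
      exact ⟨x, hxZ, fx_zero hfS p⟩
  have hPR : r0 ∈ PZ Z R := ⟨x, hxZ, hx1, hr0⟩
  have hmR := PZ_mod (X := R) hS
  have hmC := PZ_mod (X := C) hS
  have hmS := PZ_mod (X := S) hS
  rw [hA.cR] at hmR
  rw [hA.cC] at hmC
  rw [hA.cS] at hmS
  have hq2 : q < q ^ 2 := by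
    have := hq.two_le
    nlinarith
  have hempty : ∀ (X : Type) [Finite X] [MulAction G X],
      (q ^ 2 ∣ Nat.card {p : X // p ∉ PZ Z X} ∧
        Nat.card (PZ Z X) + Nat.card {p : X // p ∉ PZ Z X} = n) →
      (∀ p : X, p ∉ PZ Z X) → q ^ 2 ∣ n := by
    intro X _ _ h hno
    have h5 : Nat.card (PZ Z X) = 0 := by
      rw [Finite.card_eq_zero_iff]
      exact ⟨fun p => hno p.1 p.2⟩
    rw [h5, zero_add] at h
    rw [← h.2]
    exact h.1
  have hdvdR : q ^ 2 ∣ n → q ^ 2 ∣ Nat.card (PZ Z R) := by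
    intro h
    rw [← hmR.2] at h
    exact (Nat.dvd_add_left hmR.1).mp h
  have hposR : 0 < Nat.card (PZ Z R) := by
    have : Nonempty (PZ Z R) := ⟨⟨r0, hPR⟩⟩
    exact Nat.card_pos
  rcases hA.tri y hy1 with ⟨-, hR1, hC1, hS1⟩ | ⟨-, h0, -⟩ | ⟨-, hdn, -, ⟨hRl, hC0, -⟩ | ⟨h0, -⟩ |
    ⟨h0, -⟩⟩
  · -- `y` has one fixed row, column, symbol
    obtain ⟨hcR, p0, hp0, hyp0, htr0⟩ := PZ_one hS hAR hR1 hPR
    have hnd : ¬ q ^ 2 ∣ n := by
      intro h
      have h5 := Nat.le_of_dvd hposR (hdvdR h)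
      omega
    obtain ⟨c1, hc1⟩ : ∃ p : C, p ∈ PZ Z C := by
      by_contra hno
      exact hnd (hempty C hmC fun p hp => hno ⟨p, hp⟩)
    obtain ⟨s1, hs1⟩ : ∃ p : S, p ∈ PZ Z S := by
      by_contra hno
      exact hnd (hempty S hmS fun p hp => hno ⟨p, hp⟩)
    obtain ⟨hcC, c0, hc0, hyc0, -⟩ := PZ_one hS hAC hC1 hc1
    obtain ⟨hcS, s0, hs0, hys0, -⟩ := PZ_one hS hAS hS1 hs1
    have hM0 : M p0 c0 = s0 := by
      have h5 : y • M p0 c0 = M p0 c0 := by
        rw [← hA.eqv, hyp0, hyc0]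
      have h6 : Subsingleton {p : S // y • p = p} := by
        have h7 := (Nat.card_eq_one_iff_unique.mp hS1).1
        exact h7
      exact congrArg Subtype.val (Subsingleton.elim (⟨_, h5⟩ : {p : S // y • p = p}) ⟨s0, hys0⟩)
    -- `Z` is transitive on the cells
    let F : Z → PZ Z R × PZ Z C := fun w =>
      (⟨(w : G) • p0, PZ_smul hS hp0 w.2⟩, ⟨(w : G) • c0, PZ_smul hS hc0 w.2⟩)
    have hF : Function.Injective F := by
      intro w w' h
      have e1 : (w : G) • p0 = (w' : G) • p0 := congrArg (fun u => (u.1 : PZ Z R).1) h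
      have e2 : (w : G) • c0 = (w' : G) • c0 := congrArg (fun u => (u.2 : PZ Z C).1) h
      have hv : (w' : G)⁻¹ * (w : G) ∈ Z := Z.mul_mem (Z.inv_mem w'.2) w.2
      have f1 : ((w' : G)⁻¹ * (w : G)) • p0 = p0 := by rw [mul_smul, e1, inv_smul_smul]
      have f2 : ((w' : G)⁻¹ * (w : G)) • c0 = c0 := by rw [mul_smul, e2, inv_smul_smul]
      by_contra hww
      have hv1 : (w' : G)⁻¹ * (w : G) ≠ 1 := by
        intro h5
        apply hww
        apply Subtype.ext
        exact (inv_mul_eq_one.mp h5).symm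
      have h5 := (hA.fx_eq hB (hexp _ hv) hv1).2.2.2
      have h6 := fx_pos f1
      have h7 := fx_pos f2
      omega
    have hFs : Function.Surjective F := by
      have h5 : Nat.card Z = Nat.card (PZ Z R × PZ Z C) := by
        rw [Nat.card_prod, hcR, hcC, hZ, sq]
      exact ((Nat.bijective_iff_injective_and_card F).mpr ⟨hF, h5⟩).2
    have hcell : ∀ p ∈ PZ Z R, ∀ c ∈ PZ Z C, M p c ∈ PZ Z S := by
      intro p hp c hc
      obtain ⟨w, hw⟩ := hFs (⟨p, hp⟩, ⟨c, hc⟩)
      have e1 : (w : G) • p0 = p := congrArg (fun u => (u.1 : PZ Z R).1) hw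
      have e2 : (w : G) • c0 = c := congrArg (fun u => (u.2 : PZ Z C).1) hw
      rw [← e1, ← e2, hA.eqv, hM0]
      exact PZ_smul hS hs0 w.2
    -- a second row
    obtain ⟨p1, hp1, hp01⟩ : ∃ p, p ∈ PZ Z R ∧ p0 ≠ p := by
      by_contra hno
      have h5 : Nat.card (PZ Z R) ≤ 1 := by
        have : Subsingleton (PZ Z R) := by
          constructor
          intro a b
          apply Subtype.ext
          by_contra hab
          apply hno
          by_cases h6 : p0 = a.1
          · exact ⟨b.1, b.2, fun h7 => hab (h6.symm.trans h7)⟩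
          · exact ⟨a.1, a.2, h6⟩
        exact Finite.card_le_one_iff_subsingleton.mpr this
      have := hq.two_le
      omega
    have hσ : ∀ c ∈ PZ Z C, s p0 p1 c ∈ PZ Z C := by
      intro c hc
      let g : PZ Z C → PZ Z S := fun c' => ⟨M p0 c'.1, hcell p0 hp0 c'.1 c'.2⟩
      have hg : Function.Injective g := fun a b hab =>
        Subtype.ext (hA.inj p0 _ _ (congrArg Subtype.val hab))
      have hgs : Function.Surjective g :=
        ((Nat.bijective_iff_injective_and_card g).mpr ⟨hg, by rw [hcC, hcS]⟩).2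
      obtain ⟨c', hc'⟩ := hgs ⟨M p1 c, hcell p1 hp1 c hc⟩
      have h5 : M p0 c'.1 = M p1 c := congrArg Subtype.val hc'
      have h6 : M p0 c'.1 = M p0 (s p0 p1 c) := by rw [h5, hA.cmp]
      rw [← hA.inj p0 _ _ h6]
      exact c'.2
    have hσn : ∀ (i : ℕ) (c : C), c ∈ PZ Z C → ((s p0 p1) ^ i) c ∈ PZ Z C := by
      intro i
      induction i with
      | zero =>
        intro c hc
        rw [pow_zero]
        exact hc
      | succ i ih =>
        intro c hc
        rw [pow_succ', Equiv.Perm.mul_apply]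
        exact hσ _ (ih c hc)
    have hall : ∀ c : C, c ∈ PZ Z C := by
      intro c
      obtain ⟨k', hk'⟩ := hA.rh.full p0 p1 hp01 c0 c
      have h5 : (s p0 p1) ^ k' ∈ Subgroup.zpowers (s p0 p1) := Subgroup.zpow_mem_zpowers _ _
      rw [← mem_powers_iff_mem_zpowers] at h5
      obtain ⟨i, hi⟩ := h5
      have hi' : (s p0 p1) ^ i = (s p0 p1) ^ k' := hi
      rw [← hk', ← hi']
      exact hσn i c0 hc0
    have h5 : Nat.card C ≤ Nat.card (PZ Z C) :=
      Nat.card_le_card_of_injective (fun c : C => (⟨c, hall c⟩ : PZ Z C))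
        (fun a b hab => congrArg Subtype.val hab)
    rw [hA.cC, hcC] at h5
    have := hq.two_le
    nlinarith
  · have := fx_pos hyr0
    omega
  · -- `y` fixes `l` rows and no column
    rw [hy] at hRl hdn
    have hlle : l ≤ q := by
      have h5 := hB.max y r0 (by rw [hy]; exact hl) (by rw [hy]; exact hdn) hyr0
      rwa [hy] at h5
    have hq2n : q ^ 2 ∣ n := by
      refine hempty C hmC fun p hp => ?_
      obtain ⟨w, -, hw⟩ := PZ_fix hS hAC hp
      exact fx_zero hC0 _ hw
    have h5 := Nat.le_of_dvd hposR (hdvdR hq2n)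
    have h6 := PZ_le (X := R) hS hAR
    rw [hRl] at h6
    have h7 : l < q := lt_of_le_of_ne hlle hne
    have h8 : q * l < q * q := Nat.mul_lt_mul_of_pos_left h7 hq.pos
    rw [sq] at h5
    omega
  · have := fx_pos hyr0
    omega
  · have := fx_pos hyr0
    omega

end Pool.MP_a7cd38_co.AT
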