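import Pool.Agent.H.MP_a7cd38_co.AT.BAff
import Pool.Agent.H.MP_a7cd38_co.AT.BOrb

/-!
# Module BSca: `y` acts on the centralizer of `x` as a scalar

`y z y⁻¹ = x ^ μ * z ^ k`; iterate `l` times, `y ^ l = 1`.
-/

namespace Pool.MP_a7cd38_co.AT

variable {G : Type} [Group G] [Finite G]

omit [Finite G] in
theorem BSca_comm {q : ℕ} [Fact q.Prime] {Z : Subgroup G} (h : Nat.card Z = q ^ 2) :
    ∀ a ∈ Z, ∀ b ∈ Z, a * b = b * a := by
  intro a ha b hb
  have h1 := (IsPGroup.isMulCommutative_of_card_eq_prime_sq h).is_comm.comm (⟨a, ha⟩ : Z) ⟨b, hb⟩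
  exact congrArg Subtype.val h1

theorem scl_of {q l k : ℕ} [Fact q.Prime] [Fact l.Prime] (hne : l ≠ q) {x y : G}
    (hx : orderOf x = q) (hZ : Nat.card (Subgroup.centralizer {x}) = q ^ 2)
    (hexp : ∀ z ∈ Subgroup.centralizer {x}, z ^ q = 1) (hy : y * x * y⁻¹ = x ^ k)
    (hyl : y ^ l = 1) (τ : G → ZMod q)
    (h1 : ∀ z ∈ Subgroup.centralizer {x}, ∀ z' ∈ Subgroup.centralizer {x}, τ (z * z') = τ z + τ z')
    (h2 : ∀ z ∈ Subgroup.centralizer {x}, τ z = 0 → z ∈ Subgroup.zpowers x)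
    (h3 : ∀ z ∈ Subgroup.centralizer {x}, τ (y * z * y⁻¹) = k * τ z) :
    Scl (Subgroup.centralizer {x}) q l k y := by
  have hq : q.Prime := Fact.out
  have hl : l.Prime := Fact.out
  set Z : Subgroup G := Subgroup.centralizer {x} with hZd
  have hmem : ∀ z, z ∈ Z ↔ x * z = z * x := fun z =>
    Subgroup.mem_centralizer_singleton_iff.trans eq_comm
  have hxZ : x ∈ Z := (hmem x).2 rfl
  have hcomm := BSca_comm hZ
  have hpow : ∀ z ∈ Z, ∀ i : ℕ, τ (z ^ i) = i * τ z := by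
    intro z hz i
    induction i with
    | zero =>
      have h4 := h1 1 Z.one_mem 1 Z.one_mem
      rw [mul_one] at h4
      have h5 : τ 1 = 0 := by simpa using h4
      rw [pow_zero, h5, Nat.cast_zero, zero_mul]
    | succ i ih =>
      rw [pow_succ, h1 _ (Z.pow_mem hz i) _ hz, ih]
      push_cast
      ring
  refine ⟨hZ, hcomm, hexp, ?_, hyl, hne⟩
  intro z hz
  -- y z y⁻¹ is in Z
  have hyz : y * z * y⁻¹ ∈ Z := by
    obtain ⟨j, hj⟩ := BAff_inv hy
    rw [hmem]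
    have h4 : y⁻¹ * x * y ∈ Z := by
      rw [hj]
      exact Z.pow_mem hxZ j
    have h5 := hcomm _ h4 _ hz
    calc x * (y * z * y⁻¹) = y * ((y⁻¹ * x * y) * z) * y⁻¹ := by group
      _ = y * (z * (y⁻¹ * x * y)) * y⁻¹ := by rw [h5]
      _ = y * z * y⁻¹ * x := by group
  have hw : y * z * y⁻¹ * (z ^ k)⁻¹ ∈ Z := Z.mul_mem hyz (Z.inv_mem (Z.pow_mem hz k))
  have hτ : τ (y * z * y⁻¹ * (z ^ k)⁻¹) = 0 := by
    have h4 := h1 _ hw _ (Z.pow_mem hz k)
    rw [inv_mul_cancel_right, h3 z hz, hpow z hz] at h4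
    have h5 : τ (y * z * y⁻¹ * (z ^ k)⁻¹) + (k : ZMod q) * τ z = 0 + (k : ZMod q) * τ z := by
      rw [← h4, zero_add]
    exact add_right_cancel h5
  obtain ⟨μ, hμ⟩ := BAff_npow (h2 _ hw hτ)
  have hyz' : y * z * y⁻¹ = x ^ μ * z ^ k := by
    rw [hμ, inv_mul_cancel_right]
  have hxz : Commute x z := (hmem z).1 hz
  have hit : ∀ i : ℕ, y ^ i * z * (y ^ i)⁻¹ = x ^ (μ * (i * k ^ (i - 1))) * z ^ (k ^ i) := by
    intro i
    induction i with
    | zero => simp
    | succ i ih =>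
      have h4 : y ^ (i + 1) * z * (y ^ (i + 1))⁻¹ = y * (y ^ i * z * (y ^ i)⁻¹) * y⁻¹ := by
        rw [pow_succ']
        group
      have h5 : y * (x ^ (μ * (i * k ^ (i - 1))) * z ^ (k ^ i)) * y⁻¹ =
          (y * x * y⁻¹) ^ (μ * (i * k ^ (i - 1))) * (y * z * y⁻¹) ^ (k ^ i) := by
        rw [conj_pow, conj_pow]
        group
      have h6 : ((i + 1 : ℕ) * k ^ (i + 1 - 1)) = k * (i * k ^ (i - 1)) + k ^ i := by
        rcases Nat.eq_zero_or_pos i with h | h
        · rw [h]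
          simp
        · obtain ⟨j, rfl⟩ : ∃ j, i = j + 1 := ⟨i - 1, by omega⟩
          simp only [Nat.add_sub_cancel]
          rw [pow_succ]
          ring
      rw [h4, ih, h5, hy, hyz', (hxz.pow_pow μ k).mul_pow, ← pow_mul, ← pow_mul, ← pow_mul,
        ← mul_assoc, ← pow_add, h6]
      congr 2
      · ring
      · ring
  have hitx : ∀ i : ℕ, y ^ i * x * (y ^ i)⁻¹ = x ^ (k ^ i) := by
    intro i
    induction i with
    | zero => simp
    | succ i ih =>
      have h4 : y ^ (i + 1) * x * (y ^ (i + 1))⁻¹ = y * (y ^ i * x * (y ^ i)⁻¹) * y⁻¹ := by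
        rw [pow_succ']
        group
      rw [h4, ih, ← conj_pow, hy, ← pow_mul]
      congr 1
      ring
  have hkl : k ^ l ≡ 1 [MOD q] := by
    have h4 := hitx l
    rw [hyl, one_mul, inv_one, mul_one] at h4
    have h5 : x ^ (k ^ l) = x ^ 1 := by rw [pow_one]; exact h4.symm
    rw [pow_eq_pow_iff_modEq, hx] at h5
    exact h5
  have hzk : z ^ (k ^ l) = z := by
    have h4 : orderOf z ∣ q := orderOf_dvd_of_pow_eq_one (hexp z hz)
    have h5 : z ^ (k ^ l) = z ^ 1 := pow_eq_pow_iff_modEq.mpr (hkl.of_dvd h4)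
    rw [h5, pow_one]
  have hk0 : ¬ q ∣ k := by
    intro h
    have h4 : x ^ k = 1 := orderOf_dvd_iff_pow_eq_one.mp (by rw [hx]; exact h)
    rw [h4] at hy
    have h5 : x = 1 := by
      have h6 : y⁻¹ * (y * x * y⁻¹) * y = x := by group
      rw [hy] at h6
      rw [← h6]
      group
    rw [h5, orderOf_one] at hx
    exact hq.one_lt.ne hx
  have hfin : q ∣ μ := by
    have h4 := hit l
    rw [hyl, one_mul, inv_one, mul_one, hzk] at h4
    have h5 : x ^ (μ * (l * k ^ (l - 1))) = 1 := by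
      have h6 : 1 * z = x ^ (μ * (l * k ^ (l - 1))) * z := by rw [one_mul]; exact h4
      exact (mul_right_cancel h6).symm
    have h6 := orderOf_dvd_of_pow_eq_one h5
    rw [hx] at h6
    rcases (Nat.Prime.dvd_mul hq).mp h6 with h7 | h7
    · exact h7
    · exfalso
      rcases (Nat.Prime.dvd_mul hq).mp h7 with h8 | h8
      · exact hne ((Nat.prime_dvd_prime_iff_eq hq hl).mp h8).symm
      · exact hk0 (hq.dvd_of_dvd_pow h8)
  have hx1 : x ^ μ = 1 := orderOf_dvd_iff_pow_eq_one.mp (by rw [hx]; exact hfin)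
  rw [hyz', hx1, one_mul]

end Pool.MP_a7cd38_co.AT
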