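import Pool.Agent.H.MP_a7cd38_co.AT.Grp

namespace Pool.MP_a7cd38_co.AT

variable {G R C : Type} [Group G] [MulAction G R] [MulAction G C] [Finite G] [Finite R] [Finite C]
  [Nontrivial C] {s : R → R → Equiv.Perm C}

/-- elements of a row stabilizer commuting with `x` of order `q ∣ n` are powers of `x`. -/
theorem RH.cent (hL : RH G R C s) {q : ℕ} [Fact q.Prime] (hq : q ∣ Nat.card C)
    (x : G) (hx : orderOf x = q) (r : R) (hr : x • r = r) (y : G) (hy : y • r = r)
    (hxy : Commute x y) : y ∈ Subgroup.zpowers x := by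
  have hq2 : 2 ≤ q := (Fact.out : q.Prime).two_le
  obtain ⟨t, ht, hrt⟩ := exists_other (hq2.trans (hL.two_le_fix hq x hx r hr)) r
  set D : Subgroup G := MulAction.stabilizer G r ⊓ MulAction.stabilizer G t with hD
  have hDr : ∀ z ∈ D, z • r = r := fun z hz => hz.1
  have hDt : ∀ z ∈ D, z • t = t := fun z hz => hz.2
  have hxD : x ∈ D := ⟨hr, ht⟩
  have hyD : y ∈ D := ⟨hy, (hL.key hq x hx r hr).2 y hy hxy t ht⟩
  have hDC : Nat.card D ∣ Nat.card C := by
    have h0 : ∀ z : D, z ≠ 1 → Nat.card {c : C // z • c = c} = 0 := by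
      intro z hz
      rw [Finite.card_eq_zero_iff]
      constructor
      rintro ⟨c, hc⟩
      exact hz (Subtype.ext (hL.eq_one hrt (hDr z z.2) (hDt z z.2) hc))
    have := semireg (Γ := D) (C := C) 0 h0
    rwa [mul_zero, add_zero] at this
  have hpr : ∀ {l : ℕ}, l.Prime → l ∣ Nat.card D → l = q := by
    intro l hl hld
    have : Fact l.Prime := ⟨hl⟩
    obtain ⟨z, hz⟩ := exists_prime_orderOf_dvd_card' l hld
    have hz' : orderOf (z : G) = l := by rw [Subgroup.orderOf_coe, hz]
    have hln : l ∣ Nat.card C := hld.trans hDC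
    have hcom : Commute x z := hL.comm_of_two hrt hr ht (hDr z z.2) (hDt z z.2)
    have k1 := hL.key hq x hx r hr
    have k2 := hL.key hln z hz' r (hDr z z.2)
    have : ∀ u : R, x • u = u ↔ (z : G) • u = u := fun u =>
      ⟨k1.2 z (hDr z z.2) hcom u, k2.2 x hr hcom.symm u⟩
    rw [← k1.1, ← k2.1]
    exact (Nat.card_congr (Equiv.subtypeEquivRight this)).symm
  have hDp : IsPGroup q D := by
    have h1 := Nat.eq_prime_pow_of_unique_prime_dvd (n := Nat.card D) (p := q)
      Nat.card_pos.ne' hpr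
    exact IsPGroup.of_card h1
  have hDq := hL.pgroup hq D hDp r hDr
  have hle : Subgroup.zpowers x ≤ D := by
    rw [Subgroup.zpowers_le]
    exact hxD
  have heq : Subgroup.zpowers x = D := by
    apply Subgroup.eq_of_le_of_card_ge hle
    rw [Nat.card_zpowers, hx]
    exact Nat.le_of_dvd (by omega) hDq
  rw [heq]
  exact hyD

/-- a power of `x` with a fixed column is trivial. -/
theorem RH.pow_fix (hL : RH G R C s) {q : ℕ} [Fact q.Prime] (hq : q ∣ Nat.card C)
    (x : G) (hx : orderOf x = q) (r : R) (hr : x • r = r) :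
    ∀ i : ℤ, ∀ d : C, (x ^ i) • d = d → (q : ℤ) ∣ i := by
  have hnf := hL.nofix_col hq x hx r hr
  intro i d hd
  by_contra hnd
  have hcop : IsCoprime i (q : ℤ) := by
    rw [Int.isCoprime_iff_gcd_eq_one, Int.gcd_comm]
    exact Int.isCoprime_iff_gcd_eq_one.mp
      ((Nat.prime_iff_prime_int.mp (Fact.out : q.Prime)).coprime_iff_not_dvd.mpr hnd)
  obtain ⟨a, b, hab⟩ := hcop
  apply hnf d
  have h1 : x = (x ^ i) ^ a := by
    rw [← zpow_mul]
    have h2 : x ^ ((q : ℤ)) = 1 := by rw [zpow_natCast, ← hx, pow_orderOf_eq_one]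
    calc x = x ^ (a * i + b * q) := by rw [hab, zpow_one]
      _ = x ^ (i * a) * (x ^ (q : ℤ)) ^ b := by
          rw [zpow_add, mul_comm a i, mul_comm b, zpow_mul x (q : ℤ) b]
      _ = x ^ (i * a) := by rw [h2, one_zpow, mul_one]
  rw [h1]
  have : Subgroup.zpowers (x ^ i) ≤ MulAction.stabilizer G d := by
    rw [Subgroup.zpowers_le]
    exact hd
  exact this (Subgroup.zpow_mem_zpowers _ _)

/-- if `x` of prime order `q ∣ n` fixes a row then `q = n` or `q² ≤ n`. -/
theorem RH.sq_le (hL : RH G R C s) {q : ℕ} [Fact q.Prime] (hq : q ∣ Nat.card C)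
    (x : G) (hx : orderOf x = q) (r : R) (hr : x • r = r) :
    q * q ≤ Nat.card C ∨ q = Nat.card C := by
  by_cases hqn : q = Nat.card C
  · exact Or.inr hqn
  left
  obtain ⟨c, -⟩ := exists_pair_ne C
  have hqlt : q < Nat.card C := lt_of_le_of_ne (Nat.le_of_dvd Nat.card_pos hq) hqn
  have hnf := hL.nofix_col hq x hx r hr
  have hq0 : 0 < q := (Fact.out : q.Prime).pos
  have hpow := hL.pow_fix hq x hx r hr
  have hfixz : ∀ (i : ℤ) (t : R), x • t = t → (x ^ i) • t = t := by
    intro i t ht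
    have : Subgroup.zpowers x ≤ MulAction.stabilizer G t := by
      rw [Subgroup.zpowers_le]
      exact ht
    exact this (Subgroup.zpow_mem_zpowers _ _)
  have hinj : Function.Injective
      (fun p : {t : R // x • t = t} × Fin q => (x ^ (p.2 : ℕ)) • s r p.1.1 c) := by
    rintro ⟨t, j⟩ ⟨t', j'⟩ h
    simp only at h
    -- x^(j - j') s r t c = s r t' c
    set i : ℤ := (j : ℤ) - (j' : ℤ) with hi
    have h1 : (x ^ i) • s r t.1 c = s r t'.1 c := by
      rw [hi, zpow_sub, mul_smul, ]
      have h2 : x ^ ((j : ℕ) : ℤ) * (x ^ ((j' : ℕ) : ℤ))⁻¹ = (x ^ ((j' : ℕ) : ℤ))⁻¹ * x ^ ((j : ℕ) : ℤ) := by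
        rw [← zpow_neg, ← zpow_add, ← zpow_add, add_comm]
      rw [← mul_smul, h2, mul_smul, inv_smul_eq_iff, zpow_natCast, zpow_natCast]
      exact h
    have h3 : s t.1 t'.1 c = (x ^ i) • c := by
      apply (s r t.1).injective
      rw [← Equiv.Perm.mul_apply, hL.mul]
      rw [hL.comm (hfixz i r hr) (hfixz i t.1 t.2), h1]
    have htt : t = t' := by
      by_contra hne
      have hne' : t.1 ≠ t'.1 := fun h => hne (Subtype.ext h)
      -- s t t' = x^i on C
      have h4 : s t.1 t'.1 = (MulAction.toPermHom G C (x ^ i)) := by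
        apply Equiv.ext
        intro d
        obtain ⟨k, rfl⟩ := hL.full t.1 t'.1 hne' c d
        have h5 : s t.1 t'.1 ((s t.1 t'.1 ^ k) c) = (s t.1 t'.1 ^ k) (s t.1 t'.1 c) := by
          rw [← Equiv.Perm.mul_apply, ← Equiv.Perm.mul_apply,
            ((Commute.refl (s t.1 t'.1)).zpow_right k).eq]
        rw [h5, h3, hL.comm_zpow (hfixz i t.1 t.2) (hfixz i t'.1 t'.2) k c]
        rfl
      have hsur : Function.Surjective (fun g : Subgroup.zpowers x => (g : G) • c) := by
        intro d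
        obtain ⟨k, hk⟩ := hL.full t.1 t'.1 hne' c d
        rw [h4, ← map_zpow] at hk
        exact ⟨⟨(x ^ i) ^ k, by
          rw [← zpow_mul]
          exact Subgroup.zpow_mem_zpowers _ _⟩, hk⟩
      have h6 := Nat.card_le_card_of_surjective _ hsur
      rw [Nat.card_zpowers, hx] at h6
      omega
    subst htt
    rw [hL.one] at h3
    have h7 := hpow i c h3.symm
    have hj := j.2
    have hj' := j'.2
    have h8 : i = 0 := by
      apply Int.eq_zero_of_abs_lt_dvd h7
      rw [abs_lt]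
      constructor <;> omega
    have h9 : (j : ℕ) = (j' : ℕ) := by omega
    exact Prod.ext rfl (Fin.ext h9)
  have := Nat.card_le_card_of_injective _ hinj
  rw [Nat.card_prod, (hL.key hq x hx r hr).1, Nat.card_fin] at this
  exact this

end Pool.MP_a7cd38_co.AT
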