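import Pool.Agent.H.MP_a7cd38_co.AT.Syl
import Pool.Agent.H.MP_a7cd38_co.AT.Orb
import Pool.Agent.H.MP_a7cd38_co.AT.Ari
import Pool.Agent.H.MP_a7cd38_co.AT.OrbB

/-!
The order of a row stabilizer.  `S` = set of the primes `q ∣ n` dividing `card Γ`.
If `S` is empty, every `y ≠ 1` has a fixed point (P2 and `orderOf_dvd_natCard`), and `all_fixed`
applies.  Otherwise take `a, h` from `one_orbit` and `k q, e q` from `sylow_count` for `q ∈ S`.
The elements `y ≠ 1` without fixed points are those with `orderOf y ∈ S` (P2, P3), so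
`a - 1 = sum over q in S of card {y | orderOf y = q} = sum of k q * (q - 1)`.  The `y` with
`e q ∣ orderOf y`: if `y = 1`, `e q = 1 ∣ h`; if `y` has a fixed point, `orderOf y ∣ h`; otherwise
`orderOf y = l ∈ S`, so `e q = 1 ∣ h` or `e q = l ∈ S`, and `e q ≤ q - 1 < q`.  `arith` gives a
`q ∈ S` with `k q = 1`, so `card Γ = q * e q` and `e q ∣ q - 1`.
-/

namespace Pool.MP_a7cd38_co.AT

theorem card_stab {Γ C : Type} [Group Γ] [Finite Γ] [Finite C] [Nonempty C] [MulAction Γ C]
    (n : ℕ) (hn : Nat.card C = n)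
    (P1 : ∀ y : Γ, y ≠ 1 → ∀ c c' : C, y • c = c → y • c' = c' → c = c')
    (P2 : ∀ y : Γ, y ≠ 1 → (∀ c : C, y • c ≠ c) → (orderOf y).Prime ∧ orderOf y ∣ n)
    (P3 : ∀ y : Γ, (orderOf y).Prime → orderOf y ∣ n → ∀ c : C, y • c ≠ c)
    (P4 : ∀ x y : Γ, (orderOf x).Prime → orderOf x ∣ n → Commute x y →
      y ∈ Subgroup.zpowers x)
    (P5 : ∀ (q : ℕ) (Q : Subgroup Γ), q.Prime → q ∣ n → IsPGroup q Q → Nat.card Q ∣ q) :
    Nat.card Γ ∣ n - 1 ∨
      ∃ q e, q.Prime ∧ q ∣ n ∧ Nat.card Γ = q * e ∧ e ∣ q - 1 ∧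
        (Nat.card Γ ∣ n - q ∨ Nat.card Γ ∣ n) := by
  classical
  have hfΓ := Fintype.ofFinite Γ
  have hcard : Nat.card Γ ≠ 0 := Nat.card_pos.ne'
  obtain ⟨S, hSmem⟩ : ∃ S : Finset ℕ, ∀ q, q ∈ S ↔ (q.Prime ∧ q ∣ Nat.card Γ ∧ q ∣ n) := by
    refine ⟨(Nat.card Γ).primeFactors.filter (fun q => q ∣ n), fun q => ?_⟩
    rw [Finset.mem_filter, Nat.mem_primeFactors]
    tauto
  rcases S.eq_empty_or_nonempty with hemp | hne
  · left
    rw [← hn]
    apply all_fixed P1
    intro y hy
    by_contra hcon
    have hcon' : ∀ c : C, y • c ≠ c := fun c hc => hcon ⟨c, hc⟩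
    obtain ⟨hp, hd⟩ := P2 y hy hcon'
    have : orderOf y ∈ S := (hSmem _).mpr ⟨hp, orderOf_dvd_natCard y, hd⟩
    rw [hemp] at this
    simp at this
  · right
    obtain ⟨a, h, ha, hh, hah, hcount, hord⟩ := one_orbit P1
    have hsyl : ∀ q, ∃ ke : ℕ × ℕ, q ∈ S → (ke.1 * q * ke.2 = Nat.card Γ ∧ 0 < ke.2 ∧
        ke.2 ∣ q - 1 ∧ (∃ y : Γ, ke.2 ∣ orderOf y) ∧
        Nat.card {y : Γ // orderOf y = q} = ke.1 * (q - 1)) := by
      intro q
      by_cases hq : q ∈ S
      · obtain ⟨hp, hG, hd⟩ := (hSmem q).mp hq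
        have : Fact q.Prime := ⟨hp⟩
        obtain ⟨k, e, h1⟩ := sylow_count q hG
          (fun x y hx hxy => P4 x y (by rw [hx]; exact hp) (by rw [hx]; exact hd) hxy)
          (fun Q hQ => P5 q Q hp hd hQ)
        exact ⟨(k, e), fun _ => h1⟩
      · exact ⟨(0, 0), fun h => absurd h hq⟩
    choose ke hke using hsyl
    have hle : ∀ q ∈ S, (ke q).2 ≤ q - 1 := fun q hq =>
      Nat.le_of_dvd (by have := ((hSmem q).mp hq).1.two_le; omega) (hke q hq).2.2.1
    have hdd : ∀ q ∈ S, (ke q).2 ∣ h ∨ ((ke q).2 ∈ S ∧ (ke q).2 < q) :=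
      (fun q hq => by
        obtain ⟨y, hy⟩ := (hke q hq).2.2.2.1
        by_cases hy1 : y = 1
        · left
          rw [hy1, orderOf_one] at hy
          rw [Nat.dvd_one.mp hy]
          exact one_dvd h
        by_cases hyc : ∃ c : C, y • c = c
        · left
          exact hy.trans (hord y hy1 hyc)
        · obtain ⟨hp, hd⟩ := P2 y hy1 (fun c hc => hyc ⟨c, hc⟩)
          rcases (Nat.dvd_prime hp).mp hy with h1 | h1
          · left
            rw [h1]
            exact one_dvd h
          · right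
            refine ⟨?_, ?_⟩
            · rw [h1]
              exact (hSmem _).mpr ⟨hp, orderOf_dvd_natCard y, hd⟩
            · have := hle q hq
              have := ((hSmem q).mp hq).1.two_le
              omega)
    obtain ⟨q, hq, hkq⟩ := arith S hne (fun q hq => ((hSmem q).mp hq).1) a h ha hh
      (fun q => (ke q).1) (fun q => (ke q).2)
      (fun q hq => by rw [hah]; exact (hke q hq).1)
      (fun q hq => ⟨(hke q hq).2.1, hle q hq⟩) hdd
      (by
        rw [← hcount, Finset.sum_congr rfl (fun q hq => ((hke q hq).2.2.2.2).symm)]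
        rw [Nat.card_eq_fintype_card, Fintype.card_subtype]
        rw [Finset.card_eq_sum_card_fiberwise (f := fun y : Γ => orderOf y) (t := S)]
        · apply Finset.sum_congr rfl
          intro q hq
          obtain ⟨hp, hG, hd⟩ := (hSmem q).mp hq
          rw [Nat.card_eq_fintype_card, Fintype.card_subtype]
          congr 1
          ext y
          simp only [Finset.mem_filter, Finset.mem_univ, true_and]
          constructor
          · intro hy
            refine ⟨⟨?_, ?_⟩, hy⟩
            · intro h1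
              rw [h1, orderOf_one] at hy
              exact hp.one_lt.ne hy
            · exact P3 y (by rw [hy]; exact hp) (by rw [hy]; exact hd)
          · exact fun hy => hy.2
        · intro y hy
          have hy' : y ≠ 1 ∧ ∀ c : C, y • c ≠ c := by simpa using hy
          obtain ⟨hp, hd⟩ := P2 y hy'.1 hy'.2
          exact Finset.mem_coe.mpr ((hSmem _).mpr ⟨hp, orderOf_dvd_natCard y, hd⟩))
    obtain ⟨hp, hG, hd⟩ := (hSmem q).mp hq
    have h1 := (hke q hq).1
    rw [hkq, one_mul] at h1
    refine ⟨q, (ke q).2, hp, hd, h1.symm, (hke q hq).2.2.1, ?_⟩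
    have hB := burnside_gen P1
    have hs := card_split (Γ := Γ) (C := C)
    rw [hcount] at hs
    rw [hn] at hB
    have hfix : Nat.card {y : Γ // y ≠ 1 ∧ ∃ c : C, y • c = c} = Nat.card Γ - a := by omega
    rw [hfix] at hB
    -- `q` elements: `q - 1 ≤ a - 1`
    have hqa : q ≤ a := by
      have h2 : (ke q).1 * (q - 1) ≤ a - 1 := by
        rw [← (hke q hq).2.2.2.2, ← hcount]
        exact Nat.card_le_card_of_injective
          (fun y : {y : Γ // orderOf y = q} =>
            (⟨y.1, by
              refine ⟨?_, P3 y.1 (by rw [y.2]; exact hp) (by rw [y.2]; exact hd)⟩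
              intro h3
              have := y.2
              rw [h3, orderOf_one] at this
              exact hp.one_lt.ne this⟩ : {y : Γ // y ≠ 1 ∧ ∀ c : C, y • c ≠ c}))
          (fun y z hyz => Subtype.ext (congrArg (fun u => u.1) hyz))
      rw [hkq, one_mul] at h2
      have := hp.two_le
      omega
    have hqdvd : q ∣ a := by
      have h2 : q ∣ a * h := by
        rw [hah, ← h1]
        exact Dvd.intro _ rfl
      rcases (hp.dvd_mul).mp h2 with h3 | h3
      · exact h3
      · exfalso
        obtain ⟨h', rfl⟩ := h3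
        have h4 : a * h' = (ke q).2 := by
          have : q * (a * h') = q * (ke q).2 := by
            rw [h1, ← hah]
            ring
          exact Nat.eq_of_mul_eq_mul_left hp.pos this
        have h5 := hle q hq
        have h6 : 0 < h' := Nat.pos_of_ne_zero (by
          rintro rfl
          simp at hh)
        have h7 : a ≤ a * h' := Nat.le_mul_of_pos_right a h6
        have := hp.two_le
        omega
    obtain ⟨a', rfl⟩ := hqdvd
    have h4 : a' * h = (ke q).2 := by
      have : q * (a' * h) = q * (ke q).2 := by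
        rw [h1, ← hah]
        ring
      exact Nat.eq_of_mul_eq_mul_left hp.pos this
    have hqn : q ≤ n := Nat.le_of_dvd (by
      rw [← hn]
      exact Nat.card_pos) hd
    have case1 : a' = 1 → Nat.card Γ ∣ n - q ∨ Nat.card Γ ∣ n := by
      intro h5
      left
      rw [h5, mul_one] at hB
      have hqG : q ≤ Nat.card Γ := Nat.le_of_dvd Nat.card_pos hG
      have h6 : n + (Nat.card Γ - q) = (n - q) + Nat.card Γ := by omega
      rw [h6] at hB
      exact (Nat.dvd_add_left (dvd_refl _)).mp hB
    have case2 : h = 1 → Nat.card Γ ∣ n - q ∨ Nat.card Γ ∣ n := by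
      intro h5
      right
      rw [h5, mul_one] at hah
      rw [hah, Nat.sub_self, add_zero] at hB
      exact hB
    rcases hdd q hq with h5 | ⟨h5, -⟩
    · apply case1
      rw [← h4] at h5
      have h6 : a' * h ≤ h := Nat.le_of_dvd hh h5
      have h7 : 0 < a' := Nat.pos_of_ne_zero (by
        rintro rfl
        simp at ha)
      nlinarith
    · have h6 : ((ke q).2).Prime := ((hSmem _).mp h5).1
      rw [← h4] at h6
      rcases Nat.prime_mul_iff.mp h6 with ⟨-, h7⟩ | ⟨-, h7⟩
      · exact case2 h7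
      · exact case1 h7

end Pool.MP_a7cd38_co.AT
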