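import Mathlib

namespace Pool.MP_a7cd38_co.AT

/-- Abstract data of a group of autotopisms of a row-Hamiltonian latin square: the group `G` acts
on the rows `R` and on the columns `C`, and `s r t` is the permutation of the columns comparing
the rows `r` and `t` (it sends `c` to the column in which row `r` has the symbol that row `t` has
in column `c`). -/
structure RH (G R C : Type) [Group G] [MulAction G R] [MulAction G C]
    (s : R → R → Equiv.Perm C) : Prop where
  mul : ∀ r t u, s r t * s t u = s r u
  conj : ∀ (g : G) (r t : R) (c : C), s (g • r) (g • t) (g • c) = g • s r t c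
  full : ∀ r t, r ≠ t → ∀ c c', ∃ k : ℤ, (s r t ^ k) c = c'
  faith : ∀ g : G, (∀ r : R, g • r = r) → (∀ c : C, g • c = c) → g = 1
  card : Nat.card R = Nat.card C

end Pool.MP_a7cd38_co.AT
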