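import Mathlib

/-!
The homomorphism `T`.  `x` is a fixed point free permutation of prime order `q` of the finite
set `C`.  Choose `u : C → ZMod q` with `u (x c) = u c + 1` (a representative in every orbit of
`x`; `c = x^i rep` gives `u c = i`, well defined because `x^j c = c` iff `q ∣ j`).
Let `Ω` be the quotient of `C` by the orbits of `x`.  For `g` commuting with `x` the value
`d_g (c) = u (g c) - u c` depends only on the orbit of `c`.  Put `T g = sum over ω in Ω of d_g`
(for arbitrary `g` use the representatives `Quotient.out`).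
 * `T (g * h) = T g + T h` for `g`, `h` commuting with `x`:
   `u (g h c) - u c = d_g [h c] + d_h [c]`, and `[c] ↦ [h c]` is a permutation of `Ω`.
 * `T g ≠ 0` if `g` commutes with `x` and its powers are transitive on `C`.  Let `n = card C`,
   `m = card Ω`, `n = m * q` (`C ≃ Ω × ZMod q` by `c ↦ ([c], u c)`), the order of `g` is `n`.
   Fix `c`.  The map `Fin m → Ω`, `j ↦ [g^j c]` is injective: if `g^d c = x^i c` with `0 < d < m`
   then `g^d = x^i` (both commute with the transitive `g` and agree at `c`), so `g^(d q) = 1`, and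
   `n ∣ d q < m q = n`, contradiction; so it is bijective (`card Ω = m`).  Hence
   `T g = sum over j < m of (u (g^(j+1) c) - u (g^j c)) = u (g^m c) - u c`.  The orbit `[g^m c]` is
   `[g^j c]` for some `j < m`, and `j > 0` is impossible by injectivity (`[g^(m-j) c] = [c]`), so
   `g^m c = x^i c` and `u (g^m c) - u c = i` in `ZMod q`; if it were `0` then `g^m c = c`,
   so `g^m = 1`, contradiction with the order `n > m` of `g`.
-/

namespace Pool.MP_a7cd38_co.AT

private theorem Pot_stab {C : Type} {x : Equiv.Perm C} {q : ℕ} [Fact q.Prime]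
    (hx : ∀ c, x c ≠ c) (hq : x ^ q = 1) {k : ℤ} {a : C} (h : (x ^ k) a = a) :
    (k : ZMod q) = 0 := by
  by_contra hk
  have hp : Prime (q : ℤ) := Nat.prime_iff_prime_int.1 Fact.out
  have hd : ¬ (q : ℤ) ∣ k := by
    intro hd
    exact hk ((ZMod.intCast_zmod_eq_zero_iff_dvd k q).2 hd)
  obtain ⟨a', b', hab⟩ := hp.coprime_iff_not_dvd.2 hd
  have h1 : x = (x ^ k) ^ b' := by
    calc x = x ^ (a' * (q : ℤ) + b' * k) := by rw [hab, zpow_one]
      _ = (x ^ k) ^ b' := by
        rw [zpow_add, mul_comm a', zpow_mul, zpow_natCast, hq, one_zpow, one_mul, mul_comm b',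
          zpow_mul]
  have h2 := Equiv.Perm.zpow_apply_eq_self_of_apply_eq_self h b'
  rw [← h1] at h2
  exact hx a h2

private theorem Pot_one {C : Type} {x : Equiv.Perm C} {q : ℕ} [Fact q.Prime] (hq : x ^ q = 1)
    {k : ℤ} (h : (k : ZMod q) = 0) : x ^ k = 1 := by
  obtain ⟨t, rfl⟩ := (ZMod.intCast_zmod_eq_zero_iff_dvd k q).1 h
  rw [zpow_mul, zpow_natCast, hq, one_zpow]

private theorem Pot_u {C : Type} (x : Equiv.Perm C) (q : ℕ) [Fact q.Prime] (hx : ∀ c, x c ≠ c)
    (hq : x ^ q = 1) : ∃ u : C → ZMod q, ∀ (k : ℤ) (c : C), u ((x ^ k) c) = u c + (k : ZMod q) := by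
  let s : Setoid C := Equiv.Perm.SameCycle.setoid x
  have hrep : ∀ c, ∃ i : ℤ, (x ^ i) (Quotient.out (Quotient.mk s c)) = c :=
    fun c => Quotient.mk_out (s := s) c
  choose i hi using hrep
  refine ⟨fun c => (i c : ZMod q), fun k c => ?_⟩
  have h1 : Quotient.mk s ((x ^ k) c) = Quotient.mk s c := by
    apply Quotient.sound
    change Equiv.Perm.SameCycle x ((x ^ k) c) c
    exact ⟨-k, by rw [← Equiv.Perm.mul_apply, ← zpow_add, neg_add_cancel, zpow_zero]; rfl⟩
  have h2 := hi ((x ^ k) c)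
  rw [h1] at h2
  obtain ⟨a, ha⟩ : ∃ a, a = Quotient.out (Quotient.mk s c) := ⟨_, rfl⟩
  have h3 := hi c
  rw [← ha] at h2 h3
  have h4 : (x ^ (i ((x ^ k) c) - (k + i c))) a = a := by
    have h5 : (x ^ (k + i c)) a = (x ^ k) c := by
      rw [zpow_add, Equiv.Perm.mul_apply, h3]
    have h6 : (x ^ (i ((x ^ k) c))) a = (x ^ (k + i c)) a := by rw [h2, h5]
    rw [sub_eq_neg_add, zpow_add, Equiv.Perm.mul_apply, h6, ← Equiv.Perm.mul_apply, ← zpow_add,
      neg_add_cancel, zpow_zero]
    rfl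
  have h7 := Pot_stab hx hq h4
  push_cast at h7
  beta_reduce
  linear_combination h7

theorem exists_T {C : Type} [Finite C] [Nonempty C] (x : Equiv.Perm C) (q : ℕ) [Fact q.Prime]
    (hx : ∀ c, x c ≠ c) (hq : x ^ q = 1) :
    ∃ T : Equiv.Perm C → ZMod q,
      (∀ g h, Commute g x → Commute h x → T (g * h) = T g + T h) ∧
      (∀ g, Commute g x → (∀ c c', ∃ k : ℤ, (g ^ k) c = c') → T g ≠ 0) := by
  classical
  have : Fintype C := Fintype.ofFinite C
  obtain ⟨u, hu⟩ := Pot_u x q hx hq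
  have hu0 : ∀ (k : ℤ) (c : C), u ((x ^ k) c) = u c → (x ^ k) c = c := by
    intro k c h
    rw [hu, add_eq_left] at h
    rw [Pot_one hq h]
    rfl
  have hr0 : ∀ c : C, u ((x ^ (-((u c).val : ℤ))) c) = 0 := by
    intro c
    rw [hu]
    push_cast
    rw [ZMod.natCast_zmod_val, add_neg_cancel]
  obtain ⟨r, hr⟩ : ∃ r : C → {c : C // u c = 0}, ∀ c, ∃ k : ℤ, (r c : C) = (x ^ k) c :=
    ⟨fun c => ⟨_, hr0 c⟩, fun c => ⟨_, rfl⟩⟩
  have hrel : ∀ c c', r c = r c' → ∃ k : ℤ, c' = (x ^ k) c := by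
    intro c c' h
    obtain ⟨k, hk⟩ := hr c
    obtain ⟨l, hl⟩ := hr c'
    refine ⟨-l + k, ?_⟩
    rw [zpow_add, Equiv.Perm.mul_apply, ← hk, h, hl, ← Equiv.Perm.mul_apply, ← zpow_add,
      neg_add_cancel, zpow_zero]
    rfl
  have hcomm : ∀ g : Equiv.Perm C, Commute g x → ∀ (k : ℤ) (c : C),
      g ((x ^ k) c) = (x ^ k) (g c) := by
    intro g hg k c
    have h1 : g * x ^ k = x ^ k * g := (hg.zpow_right k).eq
    exact DFunLike.congr_fun h1 c
  have hd : ∀ g : Equiv.Perm C, Commute g x → ∀ c : C,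
      u (g (r c)) - u (r c) = u (g c) - u c := by
    intro g hg c
    obtain ⟨k, hk⟩ := hr c
    rw [hk, hcomm g hg, hu, hu]
    ring
  refine ⟨fun g => ∑ c : {c : C // u c = 0}, (u (g c) - u c), ?_, ?_⟩
  · intro g h hg hh
    have hinj : Function.Injective (fun c : {c : C // u c = 0} => r (h c)) := by
      intro c c' hcc
      obtain ⟨k, hk⟩ := hrel _ _ hcc
      rw [← hcomm h hh] at hk
      have h1 : (c' : C) = (x ^ k) c := h.injective hk
      have h2 := hu0 k c (by rw [← h1, c'.2, c.2])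
      exact Subtype.ext (by rw [h1, h2])
    have hbij : Function.Bijective (fun c : {c : C // u c = 0} => r (h c)) :=
      Finite.injective_iff_bijective.1 hinj
    beta_reduce
    rw [← hbij.sum_comp (fun c : {c : C // u c = 0} => u (g c) - u c), ← Finset.sum_add_distrib]
    apply Finset.sum_congr rfl
    intro c _
    rw [hd g hg, Equiv.Perm.mul_apply]
    ring
  · intro g hg htr
    obtain ⟨c⟩ := ‹Nonempty C›
    have hex : ∃ k : ℕ, 0 < k ∧ ∃ i : ℤ, (g ^ k) c = (x ^ i) c := by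
      refine ⟨orderOf g, orderOf_pos g, 0, ?_⟩
      rw [pow_orderOf_eq_one, zpow_zero]
    obtain ⟨m, ⟨hm0, i, hi⟩, hmin⟩ : ∃ m : ℕ, (0 < m ∧ ∃ i : ℤ, (g ^ m) c = (x ^ i) c) ∧
        ∀ k < m, 0 < k → ∀ i : ℤ, (g ^ k) c ≠ (x ^ i) c := by
      refine ⟨Nat.find hex, Nat.find_spec hex, ?_⟩
      intro k hk hk0 j hj
      exact Nat.find_min hex hk ⟨hk0, j, hj⟩
    have hgm : g ^ m = x ^ i := by
      ext c'
      obtain ⟨k, rfl⟩ := htr c c'
      have h1 : (g ^ m) ((g ^ k) c) = (g ^ k) ((g ^ m) c) := by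
        rw [← Equiv.Perm.mul_apply, ← Equiv.Perm.mul_apply, ← zpow_natCast, ← zpow_add,
          ← zpow_add, add_comm]
      rw [h1, hi, hcomm (g ^ k) (hg.zpow_left k)]
    have hinj : Function.Injective (fun j : Fin m => r ((g ^ (j : ℕ)) c)) := by
      have key : ∀ j j' : Fin m, (j : ℕ) < j' → r ((g ^ (j : ℕ)) c) ≠ r ((g ^ (j' : ℕ)) c) := by
        intro j j' hjj h
        obtain ⟨k, hk⟩ := hrel _ _ h
        refine hmin (j' - j) (by omega) (by omega) k ?_
        have h1 : (j' : ℕ) = j + (j' - j) := by omega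
        rw [← hcomm (g ^ (j : ℕ)) (hg.pow_left _), h1, pow_add, Equiv.Perm.mul_apply] at hk
        exact (g ^ (j : ℕ)).injective hk
      intro j j' h
      rcases lt_trichotomy (j : ℕ) j' with h1 | h1 | h1
      · exact absurd h (key j j' h1)
      · exact Fin.ext h1
      · exact absurd h.symm (key j' j h1)
    have hsurj : Function.Surjective (fun j : Fin m => r ((g ^ (j : ℕ)) c)) := by
      rintro ⟨c', hc'⟩
      obtain ⟨k, hk⟩ := htr c c'
      have hm1 : (m : ℤ) ≠ 0 := by exact_mod_cast hm0.ne'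
      have h1 : 0 ≤ k % (m : ℤ) := Int.emod_nonneg k hm1
      have h2 : k % (m : ℤ) < m := Int.emod_lt_of_pos k (by exact_mod_cast hm0)
      obtain ⟨j, hj⟩ := Int.eq_ofNat_of_zero_le h1
      have h3 : j < m := by
        rw [hj] at h2
        exact_mod_cast h2
      refine ⟨⟨j, h3⟩, ?_⟩
      apply Subtype.ext
      beta_reduce
      obtain ⟨l, hl⟩ := hr ((g ^ j) c)
      have h4 : g ^ k = (x ^ (i * (k / m))) * g ^ j := by
        have h5 : k = (m : ℤ) * (k / m) + (j : ℤ) := by
          have h6 := Int.mul_ediv_add_emod k m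
          rw [hj] at h6
          exact h6.symm
        nth_rewrite 1 [h5]
        rw [zpow_add, zpow_mul, zpow_natCast, zpow_natCast, hgm, zpow_mul]
      have h7 : c' = (x ^ (i * (k / m))) ((g ^ j) c) := by
        rw [← hk, h4]
        rfl
      have h8 : (r ((g ^ j) c) : C) = (x ^ (l - i * (k / m))) c' := by
        rw [h7, ← Equiv.Perm.mul_apply, ← zpow_add, sub_add_cancel]
        exact hl
      have h9 := hu0 (l - i * (k / m)) c' (by rw [← h8, (r ((g ^ j) c)).2, hc'])
      change (r ((g ^ j) c) : C) = c'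
      rw [h8, h9]
    have hsum : ∑ c : {c : C // u c = 0}, (u (g c) - u c) = (i : ZMod q) := by
      have hbij : Function.Bijective (fun j : Fin m => r ((g ^ (j : ℕ)) c)) := ⟨hinj, hsurj⟩
      rw [← hbij.sum_comp (fun c : {c : C // u c = 0} => u (g c) - u c)]
      have h1 : ∀ j : Fin m, u (g (r ((g ^ (j : ℕ)) c))) - u (r ((g ^ (j : ℕ)) c)) =
          (fun j : ℕ => u ((g ^ (j + 1)) c) - u ((g ^ j) c)) j := by
        intro j
        rw [hd g hg]
        beta_reduce
        rw [pow_succ' g, Equiv.Perm.mul_apply]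
      rw [Finset.sum_congr rfl (fun j _ => h1 j), Fin.sum_univ_eq_sum_range
        (fun j : ℕ => u ((g ^ (j + 1)) c) - u ((g ^ j) c)) m,
        Finset.sum_range_sub (fun j : ℕ => u ((g ^ j) c)) m, hgm, hu, pow_zero]
      simp
    beta_reduce
    rw [hsum]
    intro h0
    have hx1 : g ^ m = 1 := by rw [hgm, Pot_one hq h0]
    obtain ⟨k, hk⟩ := htr c (x c)
    have hm1 : (m : ℤ) ≠ 0 := by exact_mod_cast hm0.ne'
    have h1 : 0 ≤ k % (m : ℤ) := Int.emod_nonneg k hm1
    have h2 : k % (m : ℤ) < m := Int.emod_lt_of_pos k (by exact_mod_cast hm0)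
    obtain ⟨j, hj⟩ := Int.eq_ofNat_of_zero_le h1
    have h3 : j < m := by
      rw [hj] at h2
      exact_mod_cast h2
    have h4 : g ^ k = g ^ j := by
      have h5 : k = (m : ℤ) * (k / m) + (j : ℤ) := by
        have h6 := Int.mul_ediv_add_emod k m
        rw [hj] at h6
        exact h6.symm
      rw [h5, zpow_add, zpow_mul, zpow_natCast, zpow_natCast, hx1, one_zpow, one_mul]
    rw [h4] at hk
    rcases Nat.eq_zero_or_pos j with h6 | h6
    · rw [h6, pow_zero] at hk
      exact hx c hk.symm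
    · exact hmin j h3 h6 1 (by rw [zpow_one]; exact hk)

end Pool.MP_a7cd38_co.AT
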