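import Pool.Agent.H.MP_a7cd38_co.AT.Defs
import Pool.Agent.H.MP_a7cd38_co.AT.Pot
import Pool.Agent.H.MP_a7cd38_co.AT.Orb

namespace Pool.MP_a7cd38_co.AT

section basic

variable {G R C : Type} [Group G] [MulAction G R] [MulAction G C] {s : R → R → Equiv.Perm C}

theorem RH.one (hL : RH G R C s) (r : R) : s r r = 1 :=
  mul_eq_left.mp (hL.mul r r r)

theorem RH.inv (hL : RH G R C s) (r t : R) : s t r = (s r t)⁻¹ := by
  have h := hL.mul t r t
  rw [hL.one] at h
  exact eq_inv_of_mul_eq_one_left h

theorem RH.nofix [Nontrivial C] (hL : RH G R C s) {r t : R} (hrt : r ≠ t) (c : C) :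
    s r t c ≠ c := by
  intro hc
  obtain ⟨d, hd⟩ := exists_ne c
  obtain ⟨k, hk⟩ := hL.full r t hrt c d
  have : ((s r t) ^ k) c = c := Equiv.Perm.zpow_apply_eq_self_of_apply_eq_self hc k
  exact hd (hk.symm.trans this)

theorem RH.inj [Nontrivial C] (hL : RH G R C s) {r t t' : R} {c : C}
    (h : s r t c = s r t' c) : t = t' := by
  by_contra hne
  apply hL.nofix hne c
  have h1 := hL.mul r t t'
  have : s r t (s t t' c) = s r t c := by
    rw [← Equiv.Perm.mul_apply, h1]; exact h.symm
  exact (s r t).injective this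

theorem RH.surj [Nontrivial C] [Finite R] [Finite C] (hL : RH G R C s) (r : R) (c c' : C) :
    ∃ t, s r t c = c' := by
  have hinj : Function.Injective (fun t => s r t c) := fun t t' h => hL.inj h
  have := hinj.bijective_of_nat_card_le (by rw [hL.card])
  exact this.2 c'

theorem RH.comm (hL : RH G R C s) {g : G} {r t : R} (hr : g • r = r) (ht : g • t = t) (c : C) :
    s r t (g • c) = g • s r t c := by
  have := hL.conj g r t c
  rwa [hr, ht] at this

theorem RH.commute_perm (hL : RH G R C s) {g : G} {r t : R} (hr : g • r = r) (ht : g • t = t) :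
    Commute (s r t) (MulAction.toPerm g : Equiv.Perm C) := by
  apply Equiv.ext
  intro c
  simp only [Equiv.Perm.mul_apply, MulAction.toPerm_apply]
  exact hL.comm hr ht c

theorem RH.comm_zpow (hL : RH G R C s) {g : G} {r t : R} (hr : g • r = r) (ht : g • t = t)
    (k : ℤ) (c : C) : (s r t ^ k) (g • c) = g • (s r t ^ k) c := by
  have h := (hL.commute_perm hr ht).zpow_left k
  have := congrArg (fun f : Equiv.Perm C => f c) h
  simpa [Equiv.Perm.mul_apply, MulAction.toPerm_apply] using this

theorem RH.eq_one [Nontrivial C] (hL : RH G R C s) {g : G} {r t : R} {c : C} (hrt : r ≠ t)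
    (hr : g • r = r) (ht : g • t = t) (hc : g • c = c) : g = 1 := by
  have hC : ∀ c' : C, g • c' = c' := fun c' => by
    obtain ⟨k, rfl⟩ := hL.full r t hrt c c'
    rw [← hL.comm_zpow hr ht, hc]
  refine hL.faith g (fun u => ?_) hC
  have h1 := hL.conj g r u c
  rw [hr, hc, hC] at h1
  exact hL.inj h1

theorem RH.unique_col [Nontrivial C] [Finite R] [Finite C] (hL : RH G R C s) {g : G} {r : R}
    {c c' : C} (hg : g ≠ 1) (hr : g • r = r) (hc : g • c = c) (hc' : g • c' = c') : c = c' := by
  by_contra hne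
  obtain ⟨t, ht⟩ := hL.surj r c c'
  have htr : r ≠ t := by
    rintro rfl
    rw [hL.one] at ht
    exact hne ht
  have hgt : g • t = t := by
    have h1 := hL.conj g r t c
    rw [hr, hc, ht, hc'] at h1
    exact hL.inj (h1.trans ht.symm)
  exact hg (hL.eq_one htr hr hgt hc)

theorem RH.comm_of_two [Nontrivial C] (hL : RH G R C s) {g g' : G} {r t : R} (hrt : r ≠ t)
    (hr : g • r = r) (ht : g • t = t) (hr' : g' • r = r) (ht' : g' • t = t) : Commute g g' := by
  obtain ⟨c, -⟩ := exists_pair_ne C
  obtain ⟨k, hk⟩ := hL.full r t hrt c (g • c)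
  obtain ⟨l, hl⟩ := hL.full r t hrt c (g' • c)
  have h1 : g • g' • c = g' • g • c := by
    rw [← hl, ← hL.comm_zpow hr ht, ← hk, ← hL.comm_zpow hr' ht', ← hl,
      ← Equiv.Perm.mul_apply, ← Equiv.Perm.mul_apply, ← zpow_add, ← zpow_add, add_comm]
  have h2 : (g' * g)⁻¹ * (g * g') = 1 := by
    apply hL.eq_one (c := c) hrt
    · rw [mul_smul, mul_smul g g', hr', hr, inv_smul_eq_iff, mul_smul, hr, hr']
    · rw [mul_smul, mul_smul g g', ht', ht, inv_smul_eq_iff, mul_smul, ht, ht']
    · rw [mul_smul, inv_smul_eq_iff, mul_smul, mul_smul, h1]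
  exact (inv_mul_eq_one.mp h2).symm

end basic

section cards

variable {G R C : Type} [Group G] [MulAction G R] [MulAction G C] [Finite G] [Finite R] [Finite C]
  [Nontrivial C] {s : R → R → Equiv.Perm C}

/-- a `q`-group fixing a row fixes at least `q` rows. -/
theorem RH.card_fix_ge (hL : RH G R C s) {q : ℕ} [Fact q.Prime] (hq : q ∣ Nat.card C)
    (Q : Subgroup G) (hQ : IsPGroup q Q) (r : R) (hr : ∀ g ∈ Q, g • r = r) :
    q ≤ Nat.card {t : R // ∀ g ∈ Q, g • t = t} := by
  have h1 := hQ.card_modEq_card_fixedPoints R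
  have h2 : q ∣ Nat.card (MulAction.fixedPoints Q R) := by
    rw [hL.card] at h1
    exact (Nat.modEq_zero_iff_dvd.mp (h1.symm.trans (Nat.modEq_zero_iff_dvd.mpr hq)))
  have h3 : Nat.card (MulAction.fixedPoints Q R) = Nat.card {t : R // ∀ g ∈ Q, g • t = t} := by
    apply Nat.card_congr
    refine Equiv.subtypeEquivRight fun t => ?_
    constructor
    · intro h g hg
      exact h ⟨g, hg⟩
    · intro h g
      exact h g.1 g.2
  rw [h3] at h2
  have : Nonempty {t : R // ∀ g ∈ Q, g • t = t} := ⟨⟨r, hr⟩⟩
  exact Nat.le_of_dvd Nat.card_pos h2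

theorem RH.two_le_fix (hL : RH G R C s) {q : ℕ} [Fact q.Prime] (hq : q ∣ Nat.card C)
    (x : G) (hx : orderOf x = q) (r : R) (hr : x • r = r) :
    q ≤ Nat.card {t : R // x • t = t} := by
  have hQ : IsPGroup q (Subgroup.zpowers x) := by
    apply IsPGroup.of_card (n := 1)
    rw [Nat.card_zpowers, hx, pow_one]
  have hz : ∀ t : R, (∀ g ∈ Subgroup.zpowers x, g • t = t) ↔ x • t = t := by
    intro t
    constructor
    · intro h
      exact h x (Subgroup.mem_zpowers x)
    · intro h g hg
      have : Subgroup.zpowers x ≤ MulAction.stabilizer G t := by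
        rw [Subgroup.zpowers_le]
        exact h
      exact this hg
  have h1 := hL.card_fix_ge hq (Subgroup.zpowers x) hQ r ((hz r).mpr hr)
  rwa [Nat.card_congr (Equiv.subtypeEquivRight hz)] at h1

/-- if at least two rows are fixed there is another fixed row. -/
theorem exists_other {P : R → Prop} (h : 2 ≤ Nat.card {t : R // P t}) (r : R) :
    ∃ t, P t ∧ r ≠ t := by
  by_contra hcon
  simp only [not_exists, not_and, not_not, ne_eq] at hcon
  have : Nat.card {t : R // P t} ≤ 1 := by
    have : Subsingleton {t : R // P t} :=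
      ⟨fun a b => Subtype.ext ((hcon a.1 a.2).symm.trans (hcon b.1 b.2))⟩
    exact Finite.card_le_one_iff_subsingleton.mpr this
  omega

theorem RH.nofix_col (hL : RH G R C s) {q : ℕ} [Fact q.Prime] (hq : q ∣ Nat.card C)
    (x : G) (hx : orderOf x = q) (r : R) (hr : x • r = r) (c : C) : x • c ≠ c := by
  intro hc
  have h1 := hL.two_le_fix hq x hx r hr
  have hq2 : 2 ≤ q := (Fact.out : q.Prime).two_le
  obtain ⟨t, ht, hrt⟩ := exists_other (hq2.trans h1) r
  have := hL.eq_one hrt hr ht hc
  rw [this, orderOf_one] at hx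
  omega

/-- the key step: `x` of prime order `q ∣ n` fixing a row fixes exactly `q` rows, and every
element fixing that row and commuting with `x` fixes all of them. -/
theorem RH.key (hL : RH G R C s) {q : ℕ} [Fact q.Prime] (hq : q ∣ Nat.card C)
    (x : G) (hx : orderOf x = q) (r : R) (hr : x • r = r) :
    Nat.card {t : R // x • t = t} = q ∧
      ∀ y : G, y • r = r → Commute x y → ∀ t : R, x • t = t → y • t = t := by
  set X : Equiv.Perm C := MulAction.toPerm x with hX
  have hXc : ∀ c, X c ≠ c := hL.nofix_col hq x hx r hr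
  have hXq : X ^ q = 1 := by
    have : X = MulAction.toPermHom G C x := rfl
    rw [this, ← map_pow, ← hx, pow_orderOf_eq_one, map_one]
  obtain ⟨T, hT, hT0⟩ := exists_T X q hXc hXq
  have hcs : ∀ t t' : R, x • t = t → x • t' = t' → Commute (s t t') X :=
    fun t t' h h' => hL.commute_perm h h'
  have hinj : ∀ t t' : R, x • t = t → x • t' = t' → T (s r t) = T (s r t') → t = t' := by
    intro t t' ht ht' h
    by_contra hne
    apply hT0 (s t t') (hcs t t' ht ht') (hL.full t t' hne)
    have h2 := hT (s r t) (s t t') (hcs r t hr ht) (hcs t t' ht ht')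
    rw [hL.mul, h] at h2
    simpa using h2
  constructor
  · apply le_antisymm
    · have : Function.Injective (fun t : {t : R // x • t = t} => T (s r t.1)) :=
        fun a b hab => Subtype.ext (hinj a.1 b.1 a.2 b.2 hab)
      have h3 := Nat.card_le_card_of_injective _ this
      rwa [Nat.card_zmod] at h3
    · exact hL.two_le_fix hq x hx r hr
  · intro y hy hxy t ht
    have hyt : x • y • t = y • t := by
      rw [← mul_smul, hxy.eq, mul_smul, ht]
    set Y : Equiv.Perm C := MulAction.toPerm y with hY
    have hYX : Commute Y X := by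
      have h1 : Y = MulAction.toPermHom G C y := rfl
      have h2 : X = MulAction.toPermHom G C x := rfl
      rw [h1, h2]
      exact (hxy.symm).map _
    have hs : s r (y • t) = Y * s r t * Y⁻¹ := by
      rw [eq_mul_inv_iff_mul_eq]
      apply Equiv.ext
      intro c
      have := hL.conj y r t c
      rw [hy] at this
      simpa [Equiv.Perm.mul_apply, hY] using this
    apply hinj _ _ hyt ht
    have h1 : T 1 = 0 := by
      have := hT 1 1 (Commute.one_left X) (Commute.one_left X)
      rw [mul_one] at this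
      simpa using this
    have h2 : T Y + T Y⁻¹ = 0 := by
      rw [← hT Y Y⁻¹ hYX hYX.inv_left, mul_inv_cancel, h1]
    rw [hs, hT _ _ (hYX.mul_left (hcs r t hr ht)) hYX.inv_left,
      hT _ _ hYX (hcs r t hr ht)]
    linear_combination h2

/-- a `q`-group of autotopisms fixing a row has order at most `q`. -/
theorem RH.pgroup (hL : RH G R C s) {q : ℕ} [Fact q.Prime] (hq : q ∣ Nat.card C)
    (Q : Subgroup G) (hQ : IsPGroup q Q) (r : R) (hr : ∀ g ∈ Q, g • r = r) :
    Nat.card Q ∣ q := by
  have hq2 : 2 ≤ q := (Fact.out : q.Prime).two_le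
  have h0 := hL.card_fix_ge hq Q hQ r hr
  have hrow : ∀ z : Q, z ≠ 1 → Nat.card {t : R // z • t = t} = q := by
    intro z hz
    have hz1 : (z : G) ≠ 1 := fun h => hz (Subtype.ext h)
    have hdvd : q ∣ orderOf (z : G) := by
      obtain ⟨k, hk⟩ := (IsPGroup.iff_orderOf.mp hQ) z
      rw [Subgroup.orderOf_coe, hk]
      rcases Nat.eq_zero_or_pos k with h | h
      · rw [h, pow_zero] at hk
        exact absurd (orderOf_eq_one_iff.mp hk) hz
      · exact dvd_pow_self q h.ne'
    set z' : G := (z : G) ^ (orderOf (z : G) / q) with hz'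
    have hoz : orderOf z' = q := orderOf_pow_orderOf_div (orderOf_pos _).ne' hdvd
    have hz'fix : ∀ t : R, (z : G) • t = t → z' • t = t := by
      intro t ht
      have : Subgroup.zpowers (z : G) ≤ MulAction.stabilizer G t := by
        rw [Subgroup.zpowers_le]
        exact ht
      exact this (Subgroup.npow_mem_zpowers _ _)
    have h1 := (hL.key hq z' hoz r (hz'fix r (hr z z.2))).1
    apply le_antisymm
    · rw [← h1]
      exact Nat.card_le_card_of_injective
        (fun t : {t : R // z • t = t} => (⟨t.1, hz'fix t.1 t.2⟩ : {t : R // z' • t = t}))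
        (fun a b hab => Subtype.ext (congrArg (fun u => u.1) hab))
    · refine h0.trans ?_
      exact Nat.card_le_card_of_injective
        (fun t : {t : R // ∀ g ∈ Q, g • t = t} => (⟨t.1, t.2 z z.2⟩ : {t : R // z • t = t}))
        (fun a b hab => Subtype.ext (congrArg (fun u => u.1) hab))
  have hcol : ∀ z : Q, z ≠ 1 → Nat.card {c : C // z • c = c} = 0 := by
    intro z hz
    have hz1 : (z : G) ≠ 1 := fun h => hz (Subtype.ext h)
    rw [Finite.card_eq_zero_iff]
    constructor
    rintro ⟨c, hc⟩
    obtain ⟨t, ht, hrt⟩ := exists_other (P := fun t => z • t = t)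
      (by rw [hrow z hz]; exact hq2) r
    exact hz1 (hL.eq_one hrt (hr z z.2) ht hc)
  have hR := semireg (Γ := Q) (C := R) q hrow
  have hC := semireg (Γ := Q) (C := C) 0 hcol
  rw [mul_zero, add_zero] at hC
  rw [hL.card] at hR
  have h2 : Nat.card Q ∣ (Nat.card Q - 1) * q := (Nat.dvd_add_right hC).mp hR
  have hpos : 0 < Nat.card Q := Nat.card_pos
  have hcop : Nat.Coprime (Nat.card Q) (Nat.card Q - 1) := by
    have : Nat.card Q = (Nat.card Q - 1) + 1 := by omega
    rw [this]
    simp
  exact hcop.dvd_of_dvd_mul_left h2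

end cards

end Pool.MP_a7cd38_co.AT
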