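import Pool.Agent.H.MP_a7cd38_co.AT.Stb

namespace Pool.MP_a7cd38_co.AT

variable {G R C : Type} [Group G] [MulAction G R] [MulAction G C] [Finite G] [Finite R] [Finite C]
  [Nontrivial C] {s : R → R → Equiv.Perm C}

/-- the order is two or odd. -/
theorem RH.odd_card (hL : RH G R C s) (h2 : 2 < Nat.card C) : Odd (Nat.card C) := by
  classical
  have hfC := Fintype.ofFinite C
  have hfR := Fintype.ofFinite R
  by_contra hev
  rw [Nat.not_odd_iff_even] at hev
  have hsign : ∀ r t : R, r ≠ t → Equiv.Perm.sign (s r t) = -1 := by
    intro r t hrt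
    obtain ⟨c, -⟩ := exists_pair_ne C
    have hc : (s r t).IsCycle := ⟨c, hL.nofix hrt c, fun d _ => hL.full r t hrt c d⟩
    rw [hc.sign]
    have hsup : (s r t).support = Finset.univ := by
      ext d
      simp [hL.nofix hrt d]
    rw [hsup, Finset.card_univ, ← Nat.card_eq_fintype_card, hev.neg_one_pow]
  have hR : 2 < Fintype.card R := by
    rw [← Nat.card_eq_fintype_card, hL.card]
    exact h2
  obtain ⟨r, t, u, hrt, hru, htu⟩ := Fintype.two_lt_card_iff.mp hR
  have h := congrArg Equiv.Perm.sign (hL.mul r t u)
  rw [map_mul, hsign r t hrt, hsign t u htu, hsign r u hru] at h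
  exact absurd h (by decide)

/-- an element whose order is coprime to `n` and which fixes a row fixes no other row. -/
theorem RH.unique_row_of (hL : RH G R C s) {y : G} (hy : y ≠ 1) {r t : R} (hr : y • r = r)
    (ht : y • t = t) (hcop : orderOf y ∣ Nat.card C - 1) : r = t := by
  by_contra hrt
  have hfree : ∀ c : C, y • c ≠ c := fun c hc => hy (hL.eq_one hrt hr ht hc)
  obtain ⟨hp, hd⟩ := hL.order_of_free r y hr hy hfree
  have hC : 1 < Nat.card C := Finite.one_lt_card
  have h1 : orderOf y ∣ 1 := by
    have h2 := (Nat.dvd_sub hd hcop)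
    have h3 : Nat.card C - (Nat.card C - 1) = 1 := by omega
    rwa [h3] at h2
  have := hp.one_lt
  have := Nat.le_of_dvd one_pos h1
  omega

/-- if a row stabilizer has order `n - 1` and the row is not fixed by the group, `n` is a prime
power (the group is sharply two-transitive on the rows). -/
theorem RH.sharp (hL : RH G R C s) (r : R)
    (h1 : Nat.card (MulAction.stabilizer G r) = Nat.card C - 1) (g : G) (hg : g • r ≠ r) :
    IsPrimePow (Nat.card C) := by
  classical
  have hfG := Fintype.ofFinite G
  have hfR := Fintype.ofFinite R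
  have hC : 1 < Nat.card C := Finite.one_lt_card
  -- every row is in the orbit of r
  have hall : ∀ u : R, ∃ g' : G, g' • r = u := by
    have hinj : Function.Injective
        (fun y : MulAction.stabilizer G r => (⟨(y : G) • g • r, by
          intro h
          apply hg
          have h2 : (y : G)⁻¹ • r = r := by
            rw [inv_smul_eq_iff]
            exact y.2.symm
          have h3 : g • r = (y : G)⁻¹ • r := eq_inv_smul_iff.mpr h
          rw [h3, h2]⟩ : {u : R // u ≠ r})) := by
      intro y y' h
      have h2 : (y : G) • g • r = (y' : G) • g • r := congrArg Subtype.val h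
      by_contra hne
      have h3 : y'⁻¹ * y ≠ 1 := fun h4 => hne (inv_mul_eq_one.mp h4).symm
      have h4 : ((y'⁻¹ * y : MulAction.stabilizer G r) : G) ≠ 1 :=
        fun h5 => h3 (Subtype.ext h5)
      apply hg
      refine (hL.unique_row_of h4 (r := r) (t := g • r) (y'⁻¹ * y).2 ?_ ?_).symm
      · rw [Subgroup.coe_mul, Subgroup.coe_inv, mul_smul, inv_smul_eq_iff, h2]
      · rw [← h1]
        exact Subgroup.orderOf_dvd_natCard _ (y'⁻¹ * y).2
    have hcard : Nat.card {u : R // u ≠ r} = Nat.card C - 1 := by
      rw [← hL.card, Nat.card_eq_fintype_card, Nat.card_eq_fintype_card, Fintype.card_subtype,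
        Finset.filter_ne', Finset.card_erase_of_mem (Finset.mem_univ _), Finset.card_univ]
    have hbij := hinj.bijective_of_nat_card_le (by rw [h1, hcard])
    intro u
    by_cases hu : u = r
    · exact ⟨1, by rw [one_smul, hu]⟩
    · obtain ⟨y, hy⟩ := hbij.2 ⟨u, hu⟩
      refine ⟨(y : G) * g, ?_⟩
      rw [mul_smul]
      exact congrArg Subtype.val hy
  have hstab : ∀ u : R, Nat.card (MulAction.stabilizer G u) = Nat.card C - 1 := by
    intro u
    obtain ⟨g', rfl⟩ := hall u
    rw [MulAction.stabilizer_smul_eq_stabilizer_map_conj,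
      Subgroup.card_map_of_injective (MulAut.conj g').injective, h1]
  have hG : Nat.card G = Nat.card C * (Nat.card C - 1) := by
    rw [← Subgroup.card_mul_index (MulAction.stabilizer G r), MulAction.index_stabilizer, h1,
      mul_comm]
    congr 1
    have : MulAction.orbit G r = Set.univ := by
      ext u
      simp only [Set.mem_univ, iff_true]
      exact hall u
    rw [this, Set.ncard_univ, hL.card]
  have hrow : ∀ y : G, y ≠ 1 → ∀ u u' : R, y • u = u → y • u' = u' → u = u' := by
    intro y hy u u' hu hu'
    refine hL.unique_row_of hy hu hu' ?_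
    rw [← hstab u]
    exact Subgroup.orderOf_dvd_natCard _ hu
  -- the number of elements without fixed rows
  have hB := burnside_gen hrow
  have hs := card_split (Γ := G) (C := R)
  set N := Nat.card {y : G // y ≠ 1 ∧ ∃ c : R, y • c = c} with hN
  set N' := Nat.card {y : G // y ≠ 1 ∧ ∀ c : R, y • c ≠ c} with hN'
  have hnG : Nat.card C ≤ Nat.card G := by
    rw [hG]
    exact Nat.le_mul_of_pos_right _ (by omega)
  have hN'' : N' = Nat.card C - 1 := by
    rw [hL.card] at hB
    obtain ⟨k, hk⟩ := hB
    have hk1 : k = 1 := by
      have hk0 : k ≠ 0 := by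
        rintro rfl
        rw [mul_zero] at hk
        omega
      by_contra hk1
      have : Nat.card G * 2 ≤ Nat.card G * k := Nat.mul_le_mul_left _ (by omega)
      omega
    rw [hk1, mul_one] at hk
    omega
  -- an element of prime order dividing n
  have hprime : ∀ p : ℕ, p.Prime → p ∣ Nat.card C → ∀ z : G, orderOf z = p →
      ∀ u : R, z • u ≠ u := by
    intro p hp hd z hz u hu
    have h2 : p ∣ Nat.card C - 1 := by
      rw [← hstab u, ← hz]
      exact Subgroup.orderOf_dvd_natCard _ hu
    have h3 := (Nat.dvd_sub hd h2)
    have h4 : Nat.card C - (Nat.card C - 1) = 1 := by omega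
    rw [h4] at h3
    have := hp.one_lt
    have := Nat.le_of_dvd one_pos h3
    omega
  obtain ⟨p, hp, hpn⟩ := Nat.exists_prime_and_dvd hC.ne'
  have hpf : Fact p.Prime := ⟨hp⟩
  obtain ⟨z, hz⟩ := exists_prime_orderOf_dvd_card' (G := G) p
    (by rw [hG]; exact hpn.mul_right _)
  have hz1 : z ≠ 1 := by
    intro h
    rw [h, orderOf_one] at hz
    exact hp.one_lt.ne hz
  have hzfree := hprime p hp hpn z hz
  have hcent : Nat.card (Subgroup.centralizer ({z} : Set G)) ≤ Nat.card C := by
    have h0 : ∀ y : Subgroup.centralizer ({z} : Set G), y ≠ 1 →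
        Nat.card {u : R // y • u = u} = 0 := by
      intro y hy
      rw [Finite.card_eq_zero_iff]
      constructor
      rintro ⟨u, hu⟩
      have hy1 : (y : G) ≠ 1 := fun h => hy (Subtype.ext h)
      have hyz : (y : G) * z = z * y := by
        have := Subgroup.mem_centralizer_iff.mp y.2 z (Set.mem_singleton z)
        exact this.symm
      have hu' : (y : G) • u = u := hu
      apply hzfree u
      apply hrow y hy1 _ _ _ hu'
      rw [← mul_smul, hyz, mul_smul, hu']
    have := semireg (Γ := Subgroup.centralizer ({z} : Set G)) (C := R) 0 h0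
    rw [mul_zero, add_zero, hL.card] at this
    exact Nat.le_of_dvd (by omega) this
  -- every element without fixed rows is conjugate to z
  have hconj : ∀ z' : G, z' ≠ 1 → (∀ u : R, z' • u ≠ u) → ∃ g : G, g * z * g⁻¹ = z' := by
    intro z' hz' hfree'
    by_contra hcon
    have himg : ((Finset.univ : Finset G).image (fun g => g * z * g⁻¹)).card ≤
        Nat.card C - 2 := by
      have hsub : (Finset.univ : Finset G).image (fun g => g * z * g⁻¹) ⊆
          (Finset.univ.filter (fun y : G => y ≠ 1 ∧ ∀ c : R, y • c ≠ c)).erase z' := by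
        intro y hy
        obtain ⟨g', -, rfl⟩ := Finset.mem_image.mp hy
        rw [Finset.mem_erase, Finset.mem_filter]
        refine ⟨fun h => hcon ⟨g', h⟩, Finset.mem_univ _, ?_, ?_⟩
        · intro h
          apply hz1
          have := mul_inv_eq_one.mp h
          exact mul_eq_left.mp this
        · intro u hu
          apply hzfree (g'⁻¹ • u)
          rw [mul_smul, mul_smul] at hu
          rw [eq_inv_smul_iff]
          exact hu
      refine (Finset.card_le_card hsub).trans ?_
      rw [Finset.card_erase_of_mem (by
        rw [Finset.mem_filter]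
        exact ⟨Finset.mem_univ _, hz', hfree'⟩)]
      have : (Finset.univ.filter (fun y : G => y ≠ 1 ∧ ∀ c : R, y • c ≠ c)).card = N' := by
        rw [hN', Nat.card_eq_fintype_card, Fintype.card_subtype]
      rw [this, hN'']
      omega
    have hle := Finset.card_le_mul_card_image (f := fun g => g * z * g⁻¹)
      (Finset.univ : Finset G) (Nat.card C) (by
        intro a ha
        obtain ⟨g₀, -, rfl⟩ := Finset.mem_image.mp ha
        refine le_trans ?_ hcent
        rw [Nat.card_eq_fintype_card, ← Finset.card_univ]
        apply Finset.card_le_card_of_injOn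
          (fun g => if h : g₀⁻¹ * g ∈ Subgroup.centralizer ({z} : Set G) then
            (⟨g₀⁻¹ * g, h⟩ : Subgroup.centralizer ({z} : Set G)) else 1)
        · intro g _
          exact Finset.mem_coe.mpr (Finset.mem_univ _)
        · intro a ha b hb hab
          have hmem : ∀ g : G, g ∈ (↑(Finset.univ.filter
              (fun x : G => x * z * x⁻¹ = g₀ * z * g₀⁻¹)) : Set G) →
              g₀⁻¹ * g ∈ Subgroup.centralizer ({z} : Set G) := by
            intro g hg
            have hg' : g * z * g⁻¹ = g₀ * z * g₀⁻¹ := by simpa using hg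
            rw [Subgroup.mem_centralizer_iff]
            intro w hw
            rw [Set.mem_singleton_iff.mp hw]
            have : g * z = g₀ * z * g₀⁻¹ * g := by
              rw [← hg']
              group
            calc z * (g₀⁻¹ * g) = g₀⁻¹ * (g₀ * z * g₀⁻¹ * g) := by group
              _ = g₀⁻¹ * (g * z) := by rw [this]
              _ = g₀⁻¹ * g * z := by group
          simp only [hmem a ha, hmem b hb, dif_pos, Subtype.mk.injEq] at hab
          exact mul_left_cancel hab)
    rw [Finset.card_univ, ← Nat.card_eq_fintype_card, hG] at hle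
    have h5 : Nat.card C * (Nat.card C - 1) ≤ Nat.card C * (Nat.card C - 2) :=
      hle.trans (Nat.mul_le_mul_left _ himg)
    have h6 := Nat.le_of_mul_le_mul_left h5 (by omega)
    omega
  have huniq : ∀ {d : ℕ}, d.Prime → d ∣ Nat.card C → d = p := by
    intro d hd hdn
    have hdf : Fact d.Prime := ⟨hd⟩
    obtain ⟨z', hz'⟩ := exists_prime_orderOf_dvd_card' (G := G) d
      (by rw [hG]; exact hdn.mul_right _)
    have hz'1 : z' ≠ 1 := by
      intro h
      rw [h, orderOf_one] at hz'
      exact hd.one_lt.ne hz'
    obtain ⟨g', hg'⟩ := hconj z' hz'1 (hprime d hd hdn z' hz')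
    rw [← hz', ← hg', ← hz]
    have : g' * z * g'⁻¹ = MulAut.conj g' z := by simp
    rw [this]
    exact orderOf_injective (MulAut.conj g').toMonoidHom (MulAut.conj g').injective z
  have hpow := Nat.eq_prime_pow_of_unique_prime_dvd (n := Nat.card C) (p := p) (by omega) huniq
  rw [hpow]
  apply hp.isPrimePow.pow
  intro h0
  rw [h0, pow_zero] at hpow
  omega

/-- the order of a row stabilizer is `n - 1` or at most `(n - 1) / 2`. -/
theorem RH.half_or (hL : RH G R C s)
    (hno : ¬ ∃ x : G, (orderOf x).Prime ∧ orderOf x = Nat.card C ∧ ∀ t : R, x • t = t)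
    (hpp : ¬ IsPrimePow (Nat.card C)) (r : R) :
    Nat.card (MulAction.stabilizer G r) = Nat.card C - 1 ∨
      2 * Nat.card (MulAction.stabilizer G r) ≤ Nat.card C - 1 := by
  have hC : 1 < Nat.card C := Finite.one_lt_card
  have hC2 : 2 < Nat.card C := by
    rcases Nat.lt_or_ge 2 (Nat.card C) with h | h
    · exact h
    · exfalso
      apply hpp
      have : Nat.card C = 2 := by omega
      rw [this]
      exact Nat.prime_two.isPrimePow
  have hodd := hL.odd_card hC2
  rcases hL.card_stabilizer r with h | h | ⟨q, e, hp, hd, hqq, hqe, he, h⟩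
  · exact absurd h hno
  · obtain ⟨k, hk⟩ := h
    rcases Nat.lt_or_ge k 2 with hk2 | hk2
    · left
      have hk1 : k = 1 := by
        have : k ≠ 0 := by
          rintro rfl
          rw [mul_zero] at hk
          omega
        omega
      rw [hk1, mul_one] at hk
      exact hk.symm
    · right
      rw [hk, mul_comm 2]
      exact Nat.mul_le_mul_left _ hk2
  · right
    have hq2 := hp.two_le
    have heq : e ≤ q - 1 := Nat.le_of_dvd (by omega) he
    have hne : Nat.card C ≠ q := by
      intro h1
      exact hpp (by rw [h1]; exact hp.isPrimePow)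
    have hqn : q ≤ Nat.card C := Nat.le_of_dvd (by omega) hd
    have hqlt : q * e < q * q := Nat.mul_lt_mul_of_pos_left (by omega) hp.pos
    rcases h with ⟨k, hk⟩ | ⟨k, hk⟩
    · have hk0 : k ≠ 0 := by
        rintro rfl
        rw [mul_zero] at hk
        omega
      rcases Nat.lt_or_ge k 2 with hk2 | hk2
      · exfalso
        have hk1 : k = 1 := by omega
        rw [hk1, mul_one, hqe] at hk
        -- n = q e + q
        have h1 : Nat.card C = q * (e + 1) := by
          rw [Nat.mul_succ, ← hk]
          omega
        have h2 : q ≤ e + 1 := by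
          rw [h1] at hqq
          exact Nat.le_of_mul_le_mul_left hqq hp.pos
        have h3 : e + 1 = q := by omega
        apply hpp
        rw [h1, h3, ← sq]
        exact hp.isPrimePow.pow (by norm_num)
      · have h1 : Nat.card (MulAction.stabilizer G r) * 2 ≤
            Nat.card (MulAction.stabilizer G r) * k := Nat.mul_le_mul_left _ hk2
        omega
    · have hk0 : k ≠ 0 := by
        rintro rfl
        rw [mul_zero] at hk
        omega
      have hk1 : k ≠ 1 := by
        rintro rfl
        rw [mul_one, hqe] at hk
        omega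
      have hk2 : k ≠ 2 := by
        rintro rfl
        rw [hk] at hodd
        rw [Nat.odd_mul] at hodd
        exact absurd hodd.2 (by decide)
      have h1 : Nat.card (MulAction.stabilizer G r) * 3 ≤
          Nat.card (MulAction.stabilizer G r) * k := Nat.mul_le_mul_left _ (by omega)
      have h2 : 0 < Nat.card (MulAction.stabilizer G r) := Nat.card_pos
      omega

/-- the bound for orders that are not prime powers. -/
theorem RH.card_le_half (hL : RH G R C s)
    (hno : ¬ ∃ x : G, (orderOf x).Prime ∧ orderOf x = Nat.card C ∧ ∀ t : R, x • t = t)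
    (hpp : ¬ IsPrimePow (Nat.card C)) :
    2 * Nat.card G ≤ Nat.card C * (Nat.card C - 1) := by
  have hC : 1 < Nat.card C := Finite.one_lt_card
  have hR : 0 < Nat.card R := by rw [hL.card]; omega
  have hRn : Nonempty R := (Nat.card_pos_iff.mp hR).1
  obtain ⟨r⟩ := hRn
  have hcard := Subgroup.card_mul_index (MulAction.stabilizer G r)
  rw [MulAction.index_stabilizer] at hcard
  rcases hL.half_or hno hpp r with h | h
  · by_cases hfix : ∀ g : G, g • r = r
    · have h1 : (MulAction.orbit G r).ncard = 1 := by
        rw [Set.ncard_eq_one]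
        refine ⟨r, ?_⟩
        ext u
        simp only [Set.mem_singleton_iff]
        constructor
        · rintro ⟨g, rfl⟩
          exact hfix g
        · rintro rfl
          exact MulAction.mem_orbit_self _
      rw [h1, mul_one, h] at hcard
      rw [← hcard]
      exact Nat.mul_le_mul_right _ (by omega)
    · simp only [not_forall] at hfix
      obtain ⟨g, hg⟩ := hfix
      exact absurd (hL.sharp r h g hg) hpp
  · have h1 : (MulAction.orbit G r).ncard ≤ Nat.card C := by
      rw [← hL.card]
      exact Set.ncard_le_card _
    calc 2 * Nat.card G = (MulAction.orbit G r).ncard *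
          (2 * Nat.card (MulAction.stabilizer G r)) := by rw [← hcard]; ring
      _ ≤ Nat.card C * (Nat.card C - 1) := Nat.mul_le_mul h1 h

end Pool.MP_a7cd38_co.AT
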