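import Pool.Agent.H.MP_a7cd38_co.AT.Cen

namespace Pool.MP_a7cd38_co.AT

variable {G R C : Type} [Group G] [MulAction G R] [MulAction G C] [Finite G] [Finite R] [Finite C]
  [Nontrivial C] {s : R → R → Equiv.Perm C}

/-- the prime case: the square is the addition table of the integers modulo `n`. -/
theorem RH.cyclic (hL : RH G R C s) (x : G) (hp : (orderOf x).Prime)
    (hx : orderOf x = Nat.card C) (hfix : ∀ t : R, x • t = t) (r₀ : R) :
    ∃ (u : C ≃ ZMod (Nat.card C)) (a : R ≃ ZMod (Nat.card C)),
      ∀ t c, u (s r₀ t c) = u c + a t := by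
  have hpos : 0 < Nat.card C := Nat.card_pos
  have hne : NeZero (Nat.card C) := ⟨hpos.ne'⟩
  have hpr : Fact (Nat.card C).Prime := ⟨by rw [← hx]; exact hp⟩
  obtain ⟨c₀, -⟩ := exists_pair_ne C
  set f : ZMod (Nat.card C) → C := fun i => x ^ i.val • c₀ with hf
  have hmod : ∀ m : ℕ, x ^ m = x ^ (m % Nat.card C) := by
    intro m
    rw [← hx]
    exact (pow_mod_orderOf x m).symm
  have hadd : ∀ i j, x ^ i.val • f j = f (i + j) := by
    intro i j
    rw [hf]
    simp only
    rw [← mul_smul, ← pow_add, ZMod.val_add]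
    congr 1
    exact hmod _
  have hinj : Function.Injective f := by
    intro i j hij
    have h1 : (x ^ ((i.val : ℤ) - (j.val : ℤ))) • c₀ = c₀ := by
      have h2 : x ^ ((i.val : ℤ) - (j.val : ℤ)) = (x ^ ((j.val : ℕ)))⁻¹ * x ^ (i.val : ℕ) := by
        rw [sub_eq_neg_add, zpow_add, zpow_neg, zpow_natCast, zpow_natCast]
      rw [h2, mul_smul, inv_smul_eq_iff]
      exact hij
    have h3 := hL.pow_fix (dvd_refl _) x hx r₀ (hfix r₀) _ _ h1
    have hi := ZMod.val_lt i
    have hj := ZMod.val_lt j
    have h4 : (i.val : ℤ) - (j.val : ℤ) = 0 := by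
      apply Int.eq_zero_of_abs_lt_dvd h3
      rw [abs_lt]
      constructor <;> omega
    apply ZMod.val_injective
    omega
  have hbij : Function.Bijective f := by
    apply hinj.bijective_of_nat_card_le
    rw [Nat.card_zmod]
  set F : ZMod (Nat.card C) ≃ C := Equiv.ofBijective f hbij with hF
  have hFf : ∀ i, F i = f i := fun i => rfl
  have hainj : Function.Injective (fun t : R => F.symm (s r₀ t c₀)) := by
    intro t t' h
    exact hL.inj (F.symm.injective h)
  have habij : Function.Bijective (fun t : R => F.symm (s r₀ t c₀)) := by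
    apply hainj.bijective_of_nat_card_le
    rw [Nat.card_zmod, hL.card]
  refine ⟨F.symm, Equiv.ofBijective _ habij, fun t c => ?_⟩
  rw [Equiv.symm_apply_eq]
  show s r₀ t c = f (F.symm c + F.symm (s r₀ t c₀))
  rw [← hadd, ← hFf (F.symm (s r₀ t c₀)), Equiv.apply_symm_apply]
  have h5 : ∀ k : ℕ, (x ^ k) • r₀ = r₀ ∧ (x ^ k) • t = t := by
    intro k
    constructor
    · have : Subgroup.zpowers x ≤ MulAction.stabilizer G r₀ := by
        rw [Subgroup.zpowers_le]
        exact hfix r₀
      exact this (Subgroup.npow_mem_zpowers _ _)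
    · have : Subgroup.zpowers x ≤ MulAction.stabilizer G t := by
        rw [Subgroup.zpowers_le]
        exact hfix t
      exact this (Subgroup.npow_mem_zpowers _ _)
  rw [← hL.comm (h5 _).1 (h5 _).2]
  congr 1
  have h6 : c = F (F.symm c) := (F.apply_symm_apply c).symm
  conv_lhs => rw [h6]
  rfl

end Pool.MP_a7cd38_co.AT
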