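import Pool.Agent.H.MP_a7cd38_co.AT.Half
import Pool.Agent.H.MP_a7cd38_co.AT.Prm

namespace Pool.MP_a7cd38_co.AT

/-- The autotopisms of the square `L` of order `n` (the entry in row `r` and column `c` is
`L r c`): the triples of permutations of the rows, the columns and the symbols that map the square
to itself. -/
def Atp {n : ℕ} (L : Fin n → Equiv.Perm (Fin n)) :
    Set (Equiv.Perm (Fin n) × Equiv.Perm (Fin n) × Equiv.Perm (Fin n)) :=
  {t | ∀ r c : Fin n, L (t.1 r) (t.2.1 c) = t.2.2 (L r c)}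

/-- The numbers that remain possible as orders of the stabilizer of a line: the `m ≤ n - 1` that
divide `n - 1`, or are of the form `q * e` with `q` a prime divisor of `n`, `q * q ≤ n` and
`e ∣ q - 1`, and divide `n - q` or `n`. -/
def Adm (n m : ℕ) : Prop :=
  m ≤ n - 1 ∧ (m ∣ n - 1 ∨ ∃ q e : ℕ, q.Prime ∧ q ∣ n ∧ q * q ≤ n ∧ m = q * e ∧ e ∣ q - 1 ∧
    (m ∣ n - q ∨ m ∣ n))

/-- `n` is prime and the square is isotopic to the addition table of the integers modulo `n`. -/
def IsCyc {n : ℕ} (L : Fin n → Equiv.Perm (Fin n)) : Prop :=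
  n.Prime ∧ ∃ α β γ : Fin n ≃ ZMod n, ∀ r c : Fin n, γ (L r c) = α r + β c

theorem perm_apply_inv {α : Type} (f : Equiv.Perm α) (x : α) : f (f⁻¹ x) = x :=
  f.apply_symm_apply x

/-- the autotopisms as a group. -/
def AtpG {n : ℕ} (L : Fin n → Equiv.Perm (Fin n)) :
    Subgroup (Equiv.Perm (Fin n) × Equiv.Perm (Fin n) × Equiv.Perm (Fin n)) where
  carrier := Atp L
  one_mem' := fun r c => rfl
  mul_mem' := by
    intro a b ha hb r c
    show L (a.1 (b.1 r)) (a.2.1 (b.2.1 c)) = a.2.2 (b.2.2 (L r c))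
    rw [ha, hb]
  inv_mem' := by
    intro a ha r c
    show L (a.1⁻¹ r) (a.2.1⁻¹ c) = a.2.2⁻¹ (L r c)
    rw [Equiv.Perm.eq_inv_iff_eq, ← ha, perm_apply_inv, perm_apply_inv]

/-- the rows, as a type of their own. -/
def RowT (n : ℕ) : Type := Fin n

/-- the columns, as a type of their own. -/
def ColT (n : ℕ) : Type := Fin n

/-- action on the rows. -/
instance instRow {n : ℕ} (L : Fin n → Equiv.Perm (Fin n)) : MulAction (AtpG L) (RowT n) where
  smul t r := t.1.1 r
  one_smul _ := rfl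
  mul_smul _ _ _ := rfl

/-- action on the columns. -/
instance instCol {n : ℕ} (L : Fin n → Equiv.Perm (Fin n)) : MulAction (AtpG L) (ColT n) where
  smul t c := t.1.2.1 c
  one_smul _ := rfl
  mul_smul _ _ _ := rfl

instance (n : ℕ) : Finite (RowT n) := inferInstanceAs (Finite (Fin n))

instance (n : ℕ) : Finite (ColT n) := inferInstanceAs (Finite (Fin n))

/-- the relative permutations. -/
def rel {n : ℕ} (L : Fin n → Equiv.Perm (Fin n)) (r t : RowT n) : Equiv.Perm (ColT n) :=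
  ((L r)⁻¹ * L t : Equiv.Perm (Fin n))

theorem rh_rel {n : ℕ} (hn : 2 ≤ n) (L : Fin n → Equiv.Perm (Fin n))
    (hrow : ∀ i j : Fin n, i ≠ j →
      ((L j)⁻¹ * L i).IsCycle ∧ ((L j)⁻¹ * L i).support.card = n) :
    RH (AtpG L) (RowT n) (ColT n) (rel L) where
  mul := by
    intro r t u
    show ((L r)⁻¹ * L t) * ((L t)⁻¹ * L u) = (L r)⁻¹ * L u
    group
  conj := by
    intro g r t c
    show (L (g.1.1 r))⁻¹ (L (g.1.1 t) (g.1.2.1 c)) = g.1.2.1 ((L r)⁻¹ (L t c))
    rw [Equiv.Perm.inv_eq_iff_eq, g.2, g.2]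
    congr 1
    exact (perm_apply_inv (L r) (L t c)).symm
  full := by
    intro r t hrt c c'
    obtain ⟨h1, h2⟩ := hrow t r (Ne.symm hrt)
    have h3 : ((L r)⁻¹ * L t).support = Finset.univ := by
      rw [← Finset.card_eq_iff_eq_univ, h2, Fintype.card_fin]
    have h4 : ∀ d : Fin n, ((L r)⁻¹ * L t) d ≠ d := by
      intro d
      rw [← Equiv.Perm.mem_support, h3]
      exact Finset.mem_univ d
    exact h1.sameCycle (h4 c) (h4 c')
  faith := by
    intro g hr hc
    apply Subtype.ext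
    have h1 : g.1.1 = 1 := Equiv.ext hr
    have h2 : g.1.2.1 = 1 := Equiv.ext hc
    have h3 : g.1.2.2 = 1 := by
      apply Equiv.ext
      intro s
      have r₀ : Fin n := ⟨0, by omega⟩
      have h4 := g.2 r₀ ((L r₀)⁻¹ s)
      rw [h1, h2, Equiv.Perm.one_apply, Equiv.Perm.one_apply, perm_apply_inv] at h4
      rw [Equiv.Perm.one_apply]
      exact h4.symm
    exact Prod.ext h1 (Prod.ext h2 h3)
  card := rfl

theorem nontrivial_col {n : ℕ} (hn : 2 ≤ n) : Nontrivial (ColT n) := by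
  have : Nontrivial (Fin n) := Fin.nontrivial_iff_two_le.mpr hn
  exact this

theorem card_col (n : ℕ) : Nat.card (ColT n) = n := by
  show Nat.card (Fin n) = n
  simp

theorem card_stab_eq {n : ℕ} (L : Fin n → Equiv.Perm (Fin n)) (r : Fin n) :
    Nat.card (MulAction.stabilizer (AtpG L) (show RowT n from r)) =
      Nat.card {t : Equiv.Perm (Fin n) × Equiv.Perm (Fin n) × Equiv.Perm (Fin n) //
        t ∈ Atp L ∧ t.1 r = r} := by
  apply Nat.card_congr
  exact
    { toFun := fun t => ⟨t.1.1, t.1.2, t.2⟩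
      invFun := fun t => ⟨⟨t.1, t.2.1⟩, t.2.2⟩
      left_inv := fun t => rfl
      right_inv := fun t => rfl }

/-- the theorem for rows. -/
theorem row_main {n : ℕ} (hn : 2 ≤ n) (L : Fin n → Equiv.Perm (Fin n))
    (hrow : ∀ i j : Fin n, i ≠ j →
      ((L j)⁻¹ * L i).IsCycle ∧ ((L j)⁻¹ * L i).support.card = n) (hcyc : ¬ IsCyc L) :
    (∀ r : Fin n, Adm n (Nat.card
      {t : Equiv.Perm (Fin n) × Equiv.Perm (Fin n) × Equiv.Perm (Fin n) //
        t ∈ Atp L ∧ t.1 r = r})) ∧
    Nat.card (Atp L) ≤ n * (n - 1) ∧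
    (¬ IsPrimePow n → 2 * Nat.card (Atp L) ≤ n * (n - 1)) := by
  have hL := rh_rel hn L hrow
  have hnt := nontrivial_col hn
  have r₀ : Fin n := ⟨0, by omega⟩
  have hno : ¬ ∃ x : AtpG L, (orderOf x).Prime ∧ orderOf x = Nat.card (ColT n) ∧
      ∀ t : RowT n, x • t = t := by
    rintro ⟨x, hp, hx, hfix⟩
    apply hcyc
    rw [hx, card_col] at hp
    refine ⟨hp, ?_⟩
    obtain ⟨u, a, hua⟩ := hL.cyclic x (by rw [hx, card_col]; exact hp) hx hfix r₀
    have key : ∀ m : ℕ, m = n → (∃ (u : ColT n ≃ ZMod m) (a : RowT n ≃ ZMod m),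
        ∀ t c, u (rel L r₀ t c) = u c + a t) →
        ∃ α β γ : Fin n ≃ ZMod n, ∀ r c : Fin n, γ (L r c) = α r + β c := by
      rintro m rfl ⟨u, a, hua⟩
      refine ⟨a, u, (L r₀).symm.trans u, fun r c => ?_⟩
      have h1 := hua r c
      rw [add_comm]
      exact h1
    exact key _ (card_col n) ⟨u, a, hua⟩
  have hG : Nat.card (AtpG L) = Nat.card (Atp L) := rfl
  refine ⟨fun r => ?_, ?_, fun hpp => ?_⟩
  · rw [← card_stab_eq]
    have h := hL.card_stabilizer (show RowT n from r)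
    have hle := hL.card_stabilizer_le hno (show RowT n from r)
    rw [card_col] at h hle
    refine ⟨hle, ?_⟩
    rcases h with h | h | h
    · exact absurd h (by rwa [card_col] at hno)
    · exact Or.inl h
    · exact Or.inr h
  · have h := hL.card_le hno (show RowT n from r₀)
    rwa [card_col] at h
  · have h := hL.card_le_half hno (by rwa [card_col])
    rwa [card_col] at h

end Pool.MP_a7cd38_co.AT
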