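import Pool.Agent.H.MP_a7cd38_co.AT.Cen
import Pool.Agent.H.MP_a7cd38_co.AT.Cnt

namespace Pool.MP_a7cd38_co.AT

variable {G R C : Type} [Group G] [MulAction G R] [MulAction G C] [Finite G] [Finite R] [Finite C]
  [Nontrivial C] {s : R → R → Equiv.Perm C}

/-- an element fixing a row and no column has prime order dividing `n`. -/
theorem RH.order_of_free (hL : RH G R C s) (r : R) (y : G) (hy : y • r = r) (h1 : y ≠ 1)
    (hfree : ∀ c : C, y • c ≠ c) : (orderOf y).Prime ∧ orderOf y ∣ Nat.card C := by
  have hpow : ∀ k : ℕ, y ^ k • r = r := by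
    intro k
    have : Subgroup.zpowers y ≤ MulAction.stabilizer G r := by
      rw [Subgroup.zpowers_le]
      exact hy
    exact this (Subgroup.npow_mem_zpowers _ _)
  have hne : orderOf y ≠ 1 := fun h => h1 (orderOf_eq_one_iff.mp h)
  have hpos := orderOf_pos y
  by_cases hall : ∀ l : ℕ, l.Prime → l ∣ orderOf y → l ∣ Nat.card C
  · obtain ⟨l, hl, hly⟩ := Nat.exists_prime_and_dvd hne
    have : Fact l.Prime := ⟨hl⟩
    have hln := hall l hl hly
    set z := y ^ (orderOf y / l) with hz
    have hoz : orderOf z = l := orderOf_pow_orderOf_div hpos.ne' hly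
    have hyz : y ∈ Subgroup.zpowers z :=
      hL.cent hln z hoz r (hpow _) y hy ((Commute.refl y).pow_left _)
    have h2 : orderOf y ∣ l := by
      rw [← hoz, ← Nat.card_zpowers z]
      exact Subgroup.orderOf_dvd_natCard _ hyz
    have h3 : orderOf y = l := (Nat.Prime.eq_one_or_self_of_dvd hl _ h2).resolve_left hne
    rw [h3]
    exact ⟨hl, hln⟩
  · exfalso
    simp only [not_forall] at hall
    obtain ⟨l, hl, hly, hln⟩ := hall
    have : Fact l.Prime := ⟨hl⟩
    set z := y ^ (orderOf y / l) with hz
    have hoz : orderOf z = l := orderOf_pow_orderOf_div hpos.ne' hly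
    have hz1 : z ≠ 1 := by
      intro h
      rw [h, orderOf_one] at hoz
      exact hl.one_lt.ne hoz
    have hQ : IsPGroup l (Subgroup.zpowers z) := by
      apply IsPGroup.of_card (n := 1)
      rw [Nat.card_zpowers, hoz, pow_one]
    have h2 := hQ.card_modEq_card_fixedPoints C
    have h3 : (MulAction.fixedPoints (Subgroup.zpowers z) C).Nonempty := by
      by_contra hemp
      rw [Set.not_nonempty_iff_eq_empty] at hemp
      rw [hemp] at h2
      apply hln
      have h4 : Nat.card (∅ : Set C) = 0 := by simp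
      rw [h4] at h2
      exact Nat.modEq_zero_iff_dvd.mp h2
    obtain ⟨c, hc⟩ := h3
    have hzc : z • c = c := hc ⟨z, Subgroup.mem_zpowers z⟩
    apply hfree c
    have h5 : z • y • c = y • c := by
      have : Commute z y := (Commute.refl y).pow_left _
      rw [← mul_smul, this.eq, mul_smul, hzc]
    exact hL.unique_col hz1 (hpow _) h5 hzc

/-- the order of a row stabilizer. -/
theorem RH.card_stabilizer (hL : RH G R C s) (r : R) :
    (∃ x : G, (orderOf x).Prime ∧ orderOf x = Nat.card C ∧ ∀ t : R, x • t = t) ∨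
    Nat.card (MulAction.stabilizer G r) ∣ Nat.card C - 1 ∨
      ∃ q e, q.Prime ∧ q ∣ Nat.card C ∧ q * q ≤ Nat.card C ∧
        Nat.card (MulAction.stabilizer G r) = q * e ∧ e ∣ q - 1 ∧
        (Nat.card (MulAction.stabilizer G r) ∣ Nat.card C - q ∨
          Nat.card (MulAction.stabilizer G r) ∣ Nat.card C) := by
  have hcoe : ∀ y : MulAction.stabilizer G r, y ≠ 1 → (y : G) ≠ 1 :=
    fun y hy h => hy (Subtype.ext h)
  have hfix : ∀ y : MulAction.stabilizer G r, (y : G) • r = r := fun y => y.2
  have h := card_stab (Γ := MulAction.stabilizer G r) (C := C) (Nat.card C) rfl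
    (fun y hy c c' hc hc' => hL.unique_col (hcoe y hy) (hfix y) hc hc')
    (fun y hy hfree => by
      rw [← Subgroup.orderOf_coe]
      exact hL.order_of_free r y (hfix y) (hcoe y hy) hfree)
    (fun y hp hd c hc => by
      rw [← Subgroup.orderOf_coe] at hp hd
      have : Fact (orderOf (y : G)).Prime := ⟨hp⟩
      exact hL.nofix_col hd (y : G) rfl r (hfix y) c hc)
    (fun x y hp hd hxy => by
      rw [← Subgroup.orderOf_coe] at hp hd
      have : Fact (orderOf (x : G)).Prime := ⟨hp⟩
      have hcom : Commute (x : G) (y : G) := congrArg Subtype.val hxy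
      obtain ⟨k, hk⟩ := Subgroup.mem_zpowers_iff.mp
        (hL.cent hd (x : G) rfl r (hfix x) y (hfix y) hcom)
      exact Subgroup.mem_zpowers_iff.mpr ⟨k, Subtype.ext (by simpa using hk)⟩)
    (fun q Q hp hd hQ => by
      have : Fact q.Prime := ⟨hp⟩
      have h1 := hL.pgroup hd (Q.map (MulAction.stabilizer G r).subtype) (hQ.map _) r (by
        rintro g ⟨z, -, rfl⟩
        exact z.2)
      rwa [Subgroup.card_map_of_injective (Subgroup.subtype_injective _)] at h1)
  rcases h with h | ⟨q, e, hp, hd, hqe, he, h⟩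
  · exact Or.inr (Or.inl h)
  · have : Fact q.Prime := ⟨hp⟩
    have hqG : q ∣ Nat.card (MulAction.stabilizer G r) := by
      rw [hqe]
      exact Dvd.intro _ rfl
    obtain ⟨x, hx⟩ := exists_prime_orderOf_dvd_card' q hqG
    have hx' : orderOf (x : G) = q := by rw [Subgroup.orderOf_coe, hx]
    rcases hL.sq_le hd (x : G) hx' r x.2 with h1 | h1
    · exact Or.inr (Or.inr ⟨q, e, hp, hd, h1, hqe, he, h⟩)
    · left
      refine ⟨x, by rw [hx']; exact hp, by rw [hx', h1], fun t => ?_⟩
      have h2 := (hL.key hd (x : G) hx' r x.2).1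
      rw [h1, ← hL.card] at h2
      -- the subtype is everything
      by_contra hne
      have h3 : Nat.card {t : R // (x : G) • t = t} < Nat.card R := by
        have hfR := Fintype.ofFinite R
        classical
        rw [Nat.card_eq_fintype_card, Nat.card_eq_fintype_card]
        exact Fintype.card_subtype_lt hne
      omega

/-- if no element of prime order `n` fixes all the rows, row stabilizers have order `≤ n - 1`. -/
theorem RH.card_stabilizer_le (hL : RH G R C s)
    (hno : ¬ ∃ x : G, (orderOf x).Prime ∧ orderOf x = Nat.card C ∧ ∀ t : R, x • t = t) (r : R) :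
    Nat.card (MulAction.stabilizer G r) ≤ Nat.card C - 1 := by
  have hC : 1 < Nat.card C := Finite.one_lt_card
  rcases hL.card_stabilizer r with h | h | ⟨q, e, hp, hd, hqq, hqe, he, -⟩
  · exact absurd h hno
  · exact Nat.le_of_dvd (by omega) h
  · have h1 := hp.two_le
    have h2 : e ≤ q - 1 := Nat.le_of_dvd (by omega) he
    have h3 : q * e ≤ q * (q - 1) := Nat.mul_le_mul_left q h2
    have h4 : q * (q - 1) + q = q * q := by
      rw [← Nat.mul_succ]
      congr 1
      omega
    rw [hqe]
    omega

/-- the order of the group. -/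
theorem RH.card_le (hL : RH G R C s)
    (hno : ¬ ∃ x : G, (orderOf x).Prime ∧ orderOf x = Nat.card C ∧ ∀ t : R, x • t = t) (r : R) :
    Nat.card G ≤ Nat.card C * (Nat.card C - 1) := by
  rw [← Subgroup.card_mul_index (MulAction.stabilizer G r), MulAction.index_stabilizer, mul_comm]
  apply Nat.mul_le_mul _ (hL.card_stabilizer_le hno r)
  rw [← hL.card]
  exact Set.ncard_le_card _

end Pool.MP_a7cd38_co.AT
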