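import Mathlib

/-!
`Γ` is a finite group, `q` a prime dividing its order, such that
 (P4) every `y` commuting with an element `x` of order `q` is a power of `x`,
 (P5) every `q`-subgroup has order dividing `q`.
Let `P` be a Sylow `q`-subgroup, it has order `q`, let `N` be its normalizer.  The homomorphism
`Subgroup.normalizerMonoidHom : N →* MulAut P` has kernel the centralizer of `P` (intersected with
`N`), which is `P` by (P4), so of order `q`; its range is a subgroup of the cyclic group
`MulAut P` (`IsCyclic.mulAutMulEquiv`, `MulAut P ≃* (ZMod q)ˣ`) of order `q - 1`; let `e` be its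
order, `e ∣ q - 1`, and let `y ∈ N` be mapped to a generator: `e` divides the order of `y`
(`orderOf_map_dvd`).  So `card N = q * e`; the number `k` of Sylow `q`-subgroups is the index of
`N` (`Sylow.card_eq_index_normalizer`), `k * (q * e) = card Γ`.
The elements of order `q` are the disjoint union over the Sylow `q`-subgroups `P` of `P \ {1}`
(two different subgroups of prime order `q` meet in `1`), so there are `k * (q - 1)` of them.
-/

namespace Pool.MP_a7cd38_co.AT

private theorem Syl_zpowers {Γ : Type} [Group Γ] [Finite Γ] {q : ℕ} [hq : Fact q.Prime]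
    {P : Subgroup Γ} (hP : Nat.card P = q) {x : Γ} (hx : x ∈ P) (h1 : x ≠ 1) :
    orderOf x = q ∧ Subgroup.zpowers x = P := by
  have hle : Subgroup.zpowers x ≤ P := (Subgroup.zpowers_le).2 hx
  have h2 : orderOf x ∣ q := by
    rw [← Nat.card_zpowers, ← hP]
    exact Subgroup.card_dvd_of_le hle
  have h3 : orderOf x = q := by
    rcases (Nat.dvd_prime hq.out).1 h2 with h | h
    · exact absurd (orderOf_eq_one_iff.1 h) h1
    · exact h
  refine ⟨h3, Subgroup.eq_of_le_of_card_ge hle ?_⟩
  rw [hP, Nat.card_zpowers, h3]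

theorem sylow_count {Γ : Type} [Group Γ] [Finite Γ] (q : ℕ) [Fact q.Prime]
    (hq : q ∣ Nat.card Γ)
    (P4 : ∀ x y : Γ, orderOf x = q → Commute x y → y ∈ Subgroup.zpowers x)
    (P5 : ∀ Q : Subgroup Γ, IsPGroup q Q → Nat.card Q ∣ q) :
    ∃ k e : ℕ, k * q * e = Nat.card Γ ∧ 0 < e ∧ e ∣ q - 1 ∧ (∃ y : Γ, e ∣ orderOf y) ∧
      Nat.card {y : Γ // orderOf y = q} = k * (q - 1) := by
  classical
  have hqp : q.Prime := Fact.out
  -- all Sylow subgroups have order `q`
  have hcard : ∀ P : Sylow q Γ, Nat.card P = q := by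
    intro P
    have h1 : q ∣ Nat.card P := by
      rw [P.card_eq_multiplicity]
      refine dvd_pow_self q ?_
      have h2 : 0 < (Nat.card Γ).factorization q :=
        hqp.factorization_pos_of_dvd (Nat.card_pos).ne' hq
      exact h2.ne'
    exact Nat.dvd_antisymm (P5 P P.isPGroup') h1
  let P : Sylow q Γ := default
  let H : Subgroup Γ := (P : Subgroup Γ)
  have hH : Nat.card H = q := hcard P
  -- a generator of `H`
  obtain ⟨x, hxH, hx1⟩ : ∃ x ∈ H, x ≠ 1 := by
    have h1 : Nontrivial H := by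
      rw [← Finite.one_lt_card_iff_nontrivial, hH]
      exact hqp.one_lt
    obtain ⟨x, hx⟩ := exists_ne (1 : H)
    exact ⟨x.1, x.2, fun h => hx (Subtype.ext h)⟩
  obtain ⟨hxo, hxz⟩ := Syl_zpowers hH hxH hx1
  have hcyc : IsCyclic H := isCyclic_of_prime_card hH
  have hcent : Subgroup.centralizer (H : Set Γ) = H := by
    apply le_antisymm
    · intro y hy
      rw [← hxz]
      exact P4 x y hxo (Subgroup.mem_centralizer_iff.1 hy x hxH)
    · intro y hy
      rw [Subgroup.mem_centralizer_iff]
      intro z hz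
      have hc : (⟨z, hz⟩ : H) * ⟨y, hy⟩ = ⟨y, hy⟩ * ⟨z, hz⟩ := by
        obtain ⟨g, hg⟩ := hcyc.exists_generator
        obtain ⟨m, hm⟩ := Subgroup.mem_zpowers_iff.1 (hg ⟨z, hz⟩)
        obtain ⟨n, hn⟩ := Subgroup.mem_zpowers_iff.1 (hg ⟨y, hy⟩)
        rw [← hm, ← hn, ← zpow_add, ← zpow_add, add_comm]
      exact congrArg Subtype.val hc
  let f : Subgroup.normalizer (H : Set Γ) →* MulAut H := H.normalizerMonoidHom
  have hker : Nat.card f.ker = q := by
    show Nat.card (H.normalizerMonoidHom).ker = q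
    rw [Subgroup.normalizerMonoidHom_ker, hcent]
    have h1 : Nat.card (H.subgroupOf (Subgroup.normalizer (H : Set Γ))) = Nat.card H :=
      Nat.card_congr (Subgroup.subgroupOfEquivOfLe Subgroup.le_normalizer).toEquiv
    rw [h1, hH]
  have hun : IsCyclic (ZMod (Nat.card H))ˣ := by
    rw [hH]
    infer_instance
  have hmc : IsCyclic (MulAut H) := (IsCyclic.mulAutMulEquiv H).isCyclic.2 hun
  have hmcard : Nat.card (MulAut H) = q - 1 := by
    rw [IsCyclic.card_mulAut, hH, Nat.totient_prime hqp]
  have hNcard : Nat.card (Subgroup.normalizer (H : Set Γ)) = q * Nat.card f.range := by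
    rw [← Subgroup.card_mul_index f.ker, Subgroup.index_ker, hker]
  refine ⟨Nat.card (Sylow q Γ), Nat.card f.range, ?_, Nat.card_pos, ?_, ?_, ?_⟩
  · rw [mul_assoc, ← hNcard, P.card_eq_index_normalizer, mul_comm]
    exact Subgroup.card_mul_index _
  · rw [← hmcard]
    exact Subgroup.card_subgroup_dvd_card _
  · have hrc : IsCyclic f.range := inferInstance
    obtain ⟨g, hg⟩ := hrc.exists_generator
    obtain ⟨y, hy⟩ := g.2
    refine ⟨y.1, ?_⟩
    have h1 : orderOf g = Nat.card f.range := orderOf_eq_card_of_forall_mem_zpowers hg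
    rw [← h1, ← Subgroup.orderOf_coe g, ← hy, Subgroup.orderOf_coe]
    exact orderOf_map_dvd f y
  · -- counting
    let φ : (Σ Q : Sylow q Γ, {z : Q // z ≠ 1}) → {y : Γ // orderOf y = q} := fun t =>
      ⟨t.2.1.1, (Syl_zpowers (hcard t.1) t.2.1.2 (fun h => t.2.2 (Subtype.ext h))).1⟩
    have hφ : Function.Bijective φ := by
      constructor
      · rintro ⟨Q, ⟨⟨z, hz⟩, hz1⟩⟩ ⟨Q', ⟨⟨z', hz'⟩, hz1'⟩⟩ h
        have h1 : z = z' := congrArg Subtype.val h
        subst h1
        have h2 := (Syl_zpowers (hcard Q) hz (fun h => hz1 (Subtype.ext h))).2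
        have h3 := (Syl_zpowers (hcard Q') hz' (fun h => hz1 (Subtype.ext h))).2
        have h4 : Q = Q' := Sylow.ext (h2.symm.trans h3)
        subst h4
        rfl
      · rintro ⟨y, hy⟩
        have h1 : IsPGroup q (Subgroup.zpowers y) := by
          refine IsPGroup.of_card (n := 1) ?_
          rw [Nat.card_zpowers, hy, pow_one]
        obtain ⟨Q, hQ⟩ := h1.exists_le_sylow
        have hyQ : y ∈ Q := hQ (Subgroup.mem_zpowers y)
        refine ⟨⟨Q, ⟨⟨y, hyQ⟩, fun h => ?_⟩⟩, rfl⟩
        have h2 : y = 1 := congrArg Subtype.val h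
        rw [h2, orderOf_one] at hy
        exact hqp.one_lt.ne hy
    rw [← Nat.card_congr (Equiv.ofBijective φ hφ)]
    have := Fintype.ofFinite (Sylow q Γ)
    rw [Nat.card_sigma]
    have h1 : ∀ Q : Sylow q Γ, Nat.card {z : Q // z ≠ 1} = q - 1 := by
      intro Q
      have h2 : Nat.card (Option {z : Q // z ≠ 1}) = Nat.card Q :=
        Nat.card_congr (Equiv.optionSubtypeNe (1 : Q))
      rw [Finite.card_option, hcard] at h2
      omega
    rw [Finset.sum_congr rfl fun Q _ => h1 Q, Finset.sum_const, Finset.card_univ, smul_eq_mul,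
      Nat.card_eq_fintype_card]

end Pool.MP_a7cd38_co.AT
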